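import Pool.Agent.Lib.MP_69e010_mp.M.MZ

/-!
# Stream M of MP_69e010_mp: the final theorem from the theorem about minimizing sequences
-/

open MeasureTheory Filter Topology

noncomputable section

namespace Ion

/-- the theorem about minimizing sequences of real wave functions implies the theorem about bound systems -/
theorem final_of_seq (h : ∃ C : ℝ, ∀ z : ℝ, 0 < z → ∀ (N : ℕ) (ψ : ℕ → RW N), (∀ n, Adms (ψ n)) → (∀ n, nrm2 (ψ n) = 1) →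
      Tendsto (fun n => qf z (ψ n)) atTop (𝓝 (EN z N)) →
      (∀ e : ℝ, 0 < e → ∃ n0, ∀ n, n0 ≤ n → nrm2 (fun σ X => ψ n σ X - ψ n0 σ X) ≤ e) →
      (N : ℝ) ≤ z + C) :
    (∀ (z : ℝ) (N : ℕ), ∃! A : Fer N →ₗ.[ℂ] Fer N, IsHam z N A) ∧
    (∀ z : ℝ, 0 < z → ∀ (N : ℕ) (A : Fer N →ₗ.[ℂ] Fer N), IsHam z N A →
      BddBelow (specR A) ∧ sInf (specR A) ∈ specR A) ∧
    ∃ C : ℝ, ∀ z : ℝ, 0 < z →
      (∀ N : ℕ, Bound z N → (N : ℝ) ≤ z + C) ∧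
      {N : ℕ | Bound z N}.Nonempty ∧ BddAbove {N : ℕ | Bound z N} ∧ (Nc z : ℝ) ≤ z + C := by
  refine ⟨exists_unique_ham, fun z hz N A hA => ?_, ?_⟩
  · obtain ⟨h1, h2, h3⟩ := spec_facts hz hA
    rw [h3]
    exact ⟨⟨EN z N, fun t ht => h2 t ht⟩, h1⟩
  obtain ⟨C, hC⟩ := h
  have key : ∀ z : ℝ, 0 < z → ∀ N : ℕ, Bound z N → (N : ℝ) ≤ z + C := by
    intro z hz N hb
    obtain ⟨χ, h1, h2, h3, h4⟩ := bound_seq hz hb
    exact hC z hz N χ (fun n => (h1 n).admsM) h2 h3 (by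
      intro e he
      obtain ⟨n0, hn0⟩ := h4 e he
      exact ⟨n0, fun n hn => hn0 n hn n0 le_rfl⟩)
  refine ⟨C, fun z hz => ?_⟩
  have hne : {N : ℕ | Bound z N}.Nonempty := ⟨0, bound_zero hz⟩
  have hbdd : BddAbove {N : ℕ | Bound z N} := by
    refine ⟨⌈z + C⌉₊, ?_⟩
    intro N hN
    have h5 := key z hz N hN
    exact_mod_cast h5.trans (Nat.le_ceil _)
  exact ⟨key z hz, hne, hbdd, key z hz _ (Nat.sSup_mem hne hbdd)⟩

end Ion
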