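import Pool.Agent.Lib.MP_69e010_mp.M.MDefs

/-!
# JOB MA (stream M of MP_69e010_mp): the measure `mu N` is the sum over the spin configurations of Lebesgue measures

* `mu_eq`: `Measure.pi_eq`: for measurable boxes `s`, `jn σ ⁻¹' (univ.pi s) = univ.pi fun i => {x | (x, σ i) ∈ s i}`, its volume is
  `∏ i, volume {x | (x, σ i) ∈ s i}` (`Measure.pi_pi`, `volume_pi_pi`); `∑ σ, ∏ i, a i (σ i) = ∏ i, ∑ b, a i b` (`Finset.prod_univ_sum`,
  `Fintype.piFinset_univ`), and `((volume : Measure E3).prod count) t = ∑ b : Fin 2, volume {x | (x, b) ∈ t}` (`Measure.prod_apply_symm`, `lintegral_count`, `tsum_fintype`).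
  `jn σ` is measurable (`measurable_pi_lambda`), even a measurable embedding (injective, continuous, closed range), use `Measure.map_apply` or
  `MeasurableEmbedding.map_apply`.  `Measure.sum` of a family over a `Fintype` is applied with `Measure.sum_apply`, `tsum_fintype`.
* `ae_mu`: `Measure.ae_sum_iff` and `MeasurableEmbedding.ae_map_iff`.
* `integrable_mu`: `integrable_finsetSum_measure` (`Measure.sum_fintype`), `MeasurableEmbedding.integrable_map_iff`.
* `integral_mu`: `integral_finsetSum_measure`, `MeasurableEmbedding.integral_map`.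
* `memLp_mu`: measurability: `AEStronglyMeasurable` w.r.t. a finite sum of measures (`aestronglyMeasurable_sum_measure_iff` or similar); the
  integrability of `‖f‖ ^ 2` with `memLp_two_iff_integrable_sq_norm` and `integrable_mu`.
-/

open MeasureTheory Filter Topology
open scoped ENNReal

noncomputable section

namespace Ion

variable {N : ℕ}

theorem measurable_jn (σ : Spin N) : Measurable (jn σ) :=
  measurable_pi_lambda _ fun i => (measurable_pi_apply i).prodMk measurable_const

theorem measurableEmbedding_jn (σ : Spin N) : MeasurableEmbedding (jn σ) := by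
  refine (measurable_jn σ).measurableEmbedding ?_
  intro X Y h
  funext i
  have h1 := congrFun h i
  exact congrArg Prod.fst h1

theorem mu_eq (N : ℕ) : mu N = Measure.sum fun σ : Spin N => (volume : Measure (Conf N)).map (jn σ) := by
  refine Measure.pi_eq fun s hs => ?_
  rw [Measure.sum_apply _ (MeasurableSet.univ_pi hs), tsum_fintype]
  have h1 : ∀ σ : Spin N, (volume : Measure (Conf N)).map (jn σ) (Set.univ.pi s)
      = ∏ i, (volume : Measure E3) ((fun x => (x, σ i)) ⁻¹' (s i)) := by
    intro σ
    rw [Measure.map_apply (measurable_jn σ) (MeasurableSet.univ_pi hs)]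
    have h2 : jn σ ⁻¹' (Set.univ.pi s) = Set.univ.pi fun i => (fun x : E3 => (x, σ i)) ⁻¹' (s i) := by
      ext X
      simp [jn, Set.mem_pi]
    rw [h2, volume_pi_pi]
  have h3 : ∀ i : Fin N, ((volume : Measure E3).prod (Measure.count : Measure (Fin 2))) (s i)
      = ∑ b : Fin 2, (volume : Measure E3) ((fun x => (x, b)) ⁻¹' (s i)) := by
    intro i
    rw [Measure.prod_apply_symm (hs i), lintegral_count, tsum_fintype]
  simp only [h1, h3]
  rw [Finset.prod_univ_sum, Fintype.piFinset_univ]

theorem ae_mu {P : Om N → Prop} : (∀ᵐ ω ∂(mu N), P ω) ↔ ∀ σ : Spin N, ∀ᵐ X : Conf N, P (jn σ X) := by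
  rw [mu_eq, Measure.ae_sum_iff]
  exact forall_congr' fun σ => (measurableEmbedding_jn σ).ae_map_iff

theorem aesm_mu {E : Type*} [NormedAddCommGroup E] {f : Om N → E} :
    AEStronglyMeasurable f (mu N) ↔ ∀ σ : Spin N, AEStronglyMeasurable (fun X : Conf N => f (jn σ X)) volume := by
  rw [mu_eq, aestronglyMeasurable_sum_measure_iff]
  exact forall_congr' fun σ => (measurableEmbedding_jn σ).aestronglyMeasurable_map_iff

theorem integrable_mu {E : Type*} [NormedAddCommGroup E] {f : Om N → E} :
    Integrable f (mu N) ↔ ∀ σ : Spin N, Integrable (fun X : Conf N => f (jn σ X)) := by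
  rw [mu_eq, Measure.sum_fintype, integrable_finsetSum_measure]
  simp only [Finset.mem_univ, forall_true_left]
  exact forall_congr' fun σ => (measurableEmbedding_jn σ).integrable_map_iff

theorem integral_mu {E : Type*} [NormedAddCommGroup E] [NormedSpace ℝ E] {f : Om N → E} (hf : Integrable f (mu N)) :
    ∫ ω, f ω ∂(mu N) = ∑ σ : Spin N, ∫ X : Conf N, f (jn σ X) := by
  have h := integrable_mu.1 hf
  rw [mu_eq, Measure.sum_fintype, integral_finsetSum_measure]
  · exact Finset.sum_congr rfl fun σ _ => (measurableEmbedding_jn σ).integral_map f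
  · intro σ _
    exact (measurableEmbedding_jn σ).integrable_map_iff.2 (h σ)

theorem memLp_mu {f : Om N → ℂ} :
    MemLp f 2 (mu N) ↔ ∀ σ : Spin N, MemLp (fun X : Conf N => f (jn σ X)) 2 (volume : Measure (Conf N)) := by
  constructor
  · intro h σ
    have h1 := aesm_mu.1 h.1 σ
    rw [memLp_two_iff_integrable_sq_norm h1]
    exact integrable_mu.1 ((memLp_two_iff_integrable_sq_norm h.1).1 h) σ
  · intro h
    have h1 : AEStronglyMeasurable f (mu N) := aesm_mu.2 fun σ => (h σ).1
    rw [memLp_two_iff_integrable_sq_norm h1]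
    exact integrable_mu.2 fun σ => (memLp_two_iff_integrable_sq_norm (h σ).1).1 (h σ)

end Ion
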