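import Pool.Agent.Lib.MP_69e010_mp.M.MB2

/-!
# Stream M of MP_69e010_mp: the classes of test functions in the fermionic space
-/

open MeasureTheory Filter Topology
open scoped ENNReal

noncomputable section

namespace Ion

variable {N : ℕ}

/-- the class of an antisymmetric square integrable function -/
def mkFer (f : Om N → ℂ) (h : MemLp f 2 (mu N)) (ha : ∀ (π : Equiv.Perm (Fin N)) (ω : Om N), f (ω ∘ π) = sgn π * f ω) :
    Fer N :=
  ⟨h.toLp f, by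
    intro π
    have h1 := h.coeFn_toLp
    have h2 := (mp_perm π).quasiMeasurePreserving.ae_eq_comp h1
    filter_upwards [h1, h2] with ω a1 a2
    have a2' : (h.toLp f : Om N → ℂ) (ω ∘ π) = f (ω ∘ π) := a2
    show (h.toLp f : Om N → ℂ) (ω ∘ π) = sgn π * (h.toLp f : Om N → ℂ) ω
    rw [a2', a1, ha]⟩

theorem mkFer_coe (f : Om N → ℂ) (h : MemLp f 2 (mu N))
    (ha : ∀ (π : Equiv.Perm (Fin N)) (ω : Om N), f (ω ∘ π) = sgn π * f ω) :
    ((mkFer f h ha : L2 N) : Om N → ℂ) =ᵐ[mu N] f := h.coeFn_toLp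

theorem aux_MB_add {f g h : Om N → ℂ} (hf : MemLp f 2 (mu N)) (hg : MemLp g 2 (mu N)) (hh : MemLp h 2 (mu N))
    (af : ∀ (π : Equiv.Perm (Fin N)) (ω : Om N), f (ω ∘ π) = sgn π * f ω)
    (ag : ∀ (π : Equiv.Perm (Fin N)) (ω : Om N), g (ω ∘ π) = sgn π * g ω)
    (ah : ∀ (π : Equiv.Perm (Fin N)) (ω : Om N), h (ω ∘ π) = sgn π * h ω)
    (e : ∀ ω, h ω = f ω + g ω) : mkFer h hh ah = mkFer f hf af + mkFer g hg ag := by
  apply Subtype.ext
  show (hh.toLp h : L2 N) = hf.toLp f + hg.toLp g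
  rw [← MemLp.toLp_add]
  exact MemLp.toLp_congr hh (hf.add hg) (Filter.Eventually.of_forall e)

theorem aux_MB_smul {f h : Om N → ℂ} (c : ℂ) (hf : MemLp f 2 (mu N)) (hh : MemLp h 2 (mu N))
    (af : ∀ (π : Equiv.Perm (Fin N)) (ω : Om N), f (ω ∘ π) = sgn π * f ω)
    (ah : ∀ (π : Equiv.Perm (Fin N)) (ω : Om N), h (ω ∘ π) = sgn π * h ω)
    (e : ∀ ω, h ω = c * f ω) : mkFer h hh ah = c • mkFer f hf af := by
  apply Subtype.ext
  show (hh.toLp h : L2 N) = c • hf.toLp f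
  rw [← MemLp.toLp_const_smul]
  exact MemLp.toLp_congr hh (hf.const_smul c) (Filter.Eventually.of_forall e)

/-- the class of a test function -/
def clM (N : ℕ) : CTest N →ₗ[ℂ] Fer N where
  toFun φ := mkFer φ.1 (memLp_ct φ.2) φ.2.2.2
  map_add' φ χ := by
    exact aux_MB_add _ _ _ _ _ _ fun _ => rfl
  map_smul' c φ := by
    exact aux_MB_smul c _ _ _ _ fun _ => rfl

/-- the class of `-Δ φ` -/
def clK (N : ℕ) : CTest N →ₗ[ℂ] Fer N where
  toFun φ := mkFer (KF φ.1) (memLp_K φ.2) (KF_perm φ.2)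
  map_add' φ χ := by
    refine aux_MB_add _ _ _ _ _ _ fun ω => ?_
    show -lapC (fun X : Conf N => φ.1 (jn (fun i => (ω i).2) X) + χ.1 (jn (fun i => (ω i).2) X)) (fun i => (ω i).1) =
      -lapC (fun X : Conf N => φ.1 (jn (fun i => (ω i).2) X)) (fun i => (ω i).1) +
        -lapC (fun X : Conf N => χ.1 (jn (fun i => (ω i).2) X)) (fun i => (ω i).1)
    rw [lapC_add (φ.2.1 _) (χ.2.1 _)]
    ring
  map_smul' c φ := by
    refine aux_MB_smul c _ _ _ _ fun ω => ?_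
    show -lapC (fun X : Conf N => c * φ.1 (jn (fun i => (ω i).2) X)) (fun i => (ω i).1) =
      c * -lapC (fun X : Conf N => φ.1 (jn (fun i => (ω i).2) X)) (fun i => (ω i).1)
    rw [lapC_mul (φ.2.1 _)]
    ring

/-- the class of `V φ` -/
def clV (z : ℝ) (N : ℕ) : CTest N →ₗ[ℂ] Fer N where
  toFun φ := mkFer (VF z φ.1) (memLp_V z φ.2) (VF_perm z φ.2)
  map_add' φ χ := by
    refine aux_MB_add _ _ _ _ _ _ fun ω => ?_
    show (V z (fun i => (ω i).1) : ℂ) * (φ.1 ω + χ.1 ω) =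
      (V z (fun i => (ω i).1) : ℂ) * φ.1 ω + (V z (fun i => (ω i).1) : ℂ) * χ.1 ω
    ring
  map_smul' c φ := by
    refine aux_MB_smul c _ _ _ _ fun ω => ?_
    show (V z (fun i => (ω i).1) : ℂ) * (c * φ.1 ω) = c * ((V z (fun i => (ω i).1) : ℂ) * φ.1 ω)
    ring

theorem cl_coe (φ : CTest N) : ((clM N φ : L2 N) : Om N → ℂ) =ᵐ[mu N] φ.1 :=
  mkFer_coe φ.1 (memLp_ct φ.2) φ.2.2.2

theorem clK_coe (φ : CTest N) : ((clK N φ : L2 N) : Om N → ℂ) =ᵐ[mu N] KF φ.1 :=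
  mkFer_coe (KF φ.1) (memLp_K φ.2) (KF_perm φ.2)

theorem clV_coe (z : ℝ) (φ : CTest N) : ((clV z N φ : L2 N) : Om N → ℂ) =ᵐ[mu N] VF z φ.1 :=
  mkFer_coe (VF z φ.1) (memLp_V z φ.2) (VF_perm z φ.2)

end Ion
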