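import Pool.Agent.Lib.MP_69e010_mp.M.MR

/-!
# JOB MB1 (stream M of MP_69e010_mp): antisymmetry of `-Δ φ` and `V φ`

* antisymmetry of `KF φ`: with `F_σ X := φ (jn σ X)`: `F_{σ∘π}(X∘π) = sgn π * F_σ X`, i.e. `F_{σ∘π} = sgn π • F_σ ∘ A` with the linear isometry equivalence `A X = X ∘ π⁻¹`;
  `lapC (F ∘ A) X = (lapC F) (A X)` because `A (ev k c) = ev (π k) c` (permutation of the coordinates; use `ContinuousLinearEquiv.comp_right_fderiv` /
  `fderiv_comp` for the continuous linear equivalence `A` (build it, or `LinearIsometryEquiv.piCongrLeft`)), and the sum over the electrons is invariant (`Equiv.sum_comp`).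
* antisymmetry of `VF`: `V z (X ∘ π) = V z X`: `Ven` by `Equiv.sum_comp`; `Vee X = (1/2) ∑_{i ≠ j} ‖X i - X j‖⁻¹` (symmetric summand), then `Equiv.sum_comp` twice.
-/

open MeasureTheory Filter Topology
open scoped ENNReal

noncomputable section

namespace Ion

variable {N : ℕ}

/-- `-Δ φ` -/
def KF (φ : Om N → ℂ) (ω : Om N) : ℂ := - lapC (fun X : Conf N => φ (jn (fun i => (ω i).2) X)) (fun i => (ω i).1)

/-- `V φ` -/
def VF (z : ℝ) (φ : Om N → ℂ) (ω : Om N) : ℂ := (V z (fun i => (ω i).1) : ℂ) * φ ω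

theorem HF_eq (z : ℝ) (φ : Om N → ℂ) (ω : Om N) : HF z φ ω = KF φ ω + VF z φ ω := rfl

theorem KF_jn (φ : Om N → ℂ) (σ : Spin N) (X : Conf N) : KF φ (jn σ X) = - lapC (fun Y => φ (jn σ Y)) X := rfl

theorem VF_jn (z : ℝ) (φ : Om N → ℂ) (σ : Spin N) (X : Conf N) : VF z φ (jn σ X) = (V z X : ℂ) * φ (jn σ X) := rfl

/-- permutation of the electrons as a continuous linear equivalence -/
def aux_MB1_A (π : Equiv.Perm (Fin N)) : Conf N ≃L[ℝ] Conf N where
  toFun := fun Y => Y ∘ π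
  invFun := fun Y => Y ∘ π.symm
  left_inv := fun Y => by funext i; simp
  right_inv := fun Y => by funext i; simp
  map_add' := fun _ _ => rfl
  map_smul' := fun _ _ => rfl
  continuous_toFun := continuous_pi fun i => continuous_apply (π i)
  continuous_invFun := continuous_pi fun i => continuous_apply (π.symm i)

theorem aux_MB1_ev (π : Equiv.Perm (Fin N)) (k : Fin N) (c : Fin 3) :
    aux_MB1_A π (ev k c) = ev (π.symm k) c := by
  funext i
  show (Pi.single k (EuclideanSpace.single c (1 : ℝ)) : Conf N) (π i)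
    = (Pi.single (π.symm k) (EuclideanSpace.single c (1 : ℝ)) : Conf N) i
  by_cases h : i = π.symm k
  · subst h
    rw [Equiv.apply_symm_apply, Pi.single_eq_same, Pi.single_eq_same]
  · rw [Pi.single_eq_of_ne h, Pi.single_eq_of_ne]
    intro h2
    apply h
    rw [← h2, Equiv.symm_apply_apply]

theorem aux_MB1_fd (π : Equiv.Perm (Fin N)) (G : Conf N → ℂ) (X v : Conf N) :
    fderiv ℝ (fun Y => G (Y ∘ π)) X v = fderiv ℝ G (X ∘ π) (aux_MB1_A π v) := by
  have h : (fun Y => G (Y ∘ π)) = G ∘ (aux_MB1_A π) := rfl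
  rw [h, ContinuousLinearEquiv.comp_right_fderiv]
  rfl

/-- the Laplacian commutes with permutations of the electrons -/
theorem lapC_perm {F : Conf N → ℂ} (hF : ContDiff ℝ (⊤ : ℕ∞) F) (π : Equiv.Perm (Fin N)) (X : Conf N) :
    lapC (fun Y => F (Y ∘ π)) X = lapC F (X ∘ π) := by
  unfold lapC
  rw [← Equiv.sum_comp π.symm (fun k => ∑ c : Fin 3, fderiv ℝ (fun Y => fderiv ℝ F Y (ev k c)) (X ∘ π) (ev k c))]
  refine Finset.sum_congr rfl fun k _ => Finset.sum_congr rfl fun c _ => ?_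
  have h1 : (fun Y => fderiv ℝ (fun Y => F (Y ∘ π)) Y (ev k c))
      = fun Y => (fun Z => fderiv ℝ F Z (ev (π.symm k) c)) (Y ∘ π) := by
    funext Y
    rw [aux_MB1_fd, aux_MB1_ev]
  rw [h1, aux_MB1_fd π (fun Z => fderiv ℝ F Z (ev (π.symm k) c)) X (ev k c), aux_MB1_ev]

theorem aux_MB1_diff {F : Conf N → ℂ} (hF : ContDiff ℝ (⊤ : ℕ∞) F) (X v : Conf N) :
    DifferentiableAt ℝ (fun Y => fderiv ℝ F Y v) X := by
  have h : ContDiff ℝ 1 (fun Y => fderiv ℝ F Y v) := by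
    have h1 : ContDiff ℝ 1 (fderiv ℝ F) := hF.fderiv_right (by norm_cast)
    exact h1.clm_apply contDiff_const
  exact h.differentiable one_ne_zero X

theorem lapC_mul {F : Conf N → ℂ} (hF : ContDiff ℝ (⊤ : ℕ∞) F) (a : ℂ) (X : Conf N) :
    lapC (fun Y => a * F Y) X = a * lapC F X := by
  have hd : Differentiable ℝ F := hF.differentiable (by simp)
  unfold lapC
  rw [Finset.mul_sum]
  refine Finset.sum_congr rfl fun k _ => ?_
  rw [Finset.mul_sum]
  refine Finset.sum_congr rfl fun c _ => ?_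
  have h1 : (fun Y => fderiv ℝ (fun Y => a * F Y) Y (ev k c)) = fun Y => a * fderiv ℝ F Y (ev k c) := by
    funext Y
    rw [fderiv_const_mul (hd Y)]
    rfl
  rw [h1, fderiv_const_mul (aux_MB1_diff hF X (ev k c))]
  rfl

theorem lapC_add {F G : Conf N → ℂ} (hF : ContDiff ℝ (⊤ : ℕ∞) F) (hG : ContDiff ℝ (⊤ : ℕ∞) G) (X : Conf N) :
    lapC (fun Y => F Y + G Y) X = lapC F X + lapC G X := by
  have hd : Differentiable ℝ F := hF.differentiable (by simp)
  have hd' : Differentiable ℝ G := hG.differentiable (by simp)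
  unfold lapC
  rw [← Finset.sum_add_distrib]
  refine Finset.sum_congr rfl fun k _ => ?_
  rw [← Finset.sum_add_distrib]
  refine Finset.sum_congr rfl fun c _ => ?_
  have h1 : (fun Y => fderiv ℝ (fun Y => F Y + G Y) Y (ev k c))
      = fun Y => fderiv ℝ F Y (ev k c) + fderiv ℝ G Y (ev k c) := by
    funext Y
    rw [fderiv_fun_add (hd Y) (hd' Y)]
    rfl
  rw [h1, fderiv_fun_add (aux_MB1_diff hF X (ev k c)) (aux_MB1_diff hG X (ev k c))]
  rfl

theorem aux_MB1_Vee (X : Conf N) : Vee X = (1 / 2) * ∑ i, ∑ j, if i = j then 0 else ‖X i - X j‖⁻¹ := by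
  have h1 : ∀ i : Fin N, (∑ j, if i = j then (0 : ℝ) else ‖X i - X j‖⁻¹)
      = (∑ j, if i < j then ‖X i - X j‖⁻¹ else 0) + ∑ j, if j < i then ‖X i - X j‖⁻¹ else 0 := by
    intro i
    rw [← Finset.sum_add_distrib]
    refine Finset.sum_congr rfl fun j _ => ?_
    rcases lt_trichotomy i j with h | h | h
    · rw [if_neg h.ne, if_pos h, if_neg (not_lt.2 h.le), add_zero]
    · subst h
      simp
    · rw [if_neg h.ne', if_neg (not_lt.2 h.le), if_pos h, zero_add]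
  have h2 : (∑ i : Fin N, ∑ j, if j < i then ‖X i - X j‖⁻¹ else 0)
      = ∑ i : Fin N, ∑ j, if i < j then ‖X i - X j‖⁻¹ else 0 := by
    rw [Finset.sum_comm]
    refine Finset.sum_congr rfl fun i _ => Finset.sum_congr rfl fun j _ => ?_
    rw [norm_sub_rev]
  simp only [h1]
  rw [Finset.sum_add_distrib, h2]
  unfold Vee
  simp only [Finset.sum_filter]
  ring

theorem V_permM (z : ℝ) (X : Conf N) (π : Equiv.Perm (Fin N)) : V z (X ∘ π) = V z X := by
  have h1 : Ven (X ∘ π) = Ven X := Equiv.sum_comp π (fun i => ‖X i‖⁻¹)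
  have h2 : Vee (X ∘ π) = Vee X := by
    rw [aux_MB1_Vee, aux_MB1_Vee]
    congr 1
    have h3 : ∀ i : Fin N, (∑ j, if i = j then (0 : ℝ) else ‖(X ∘ π) i - (X ∘ π) j‖⁻¹)
        = ∑ j, if π i = j then (0 : ℝ) else ‖X (π i) - X j‖⁻¹ := by
      intro i
      rw [← Equiv.sum_comp π (fun j => if π i = j then (0 : ℝ) else ‖X (π i) - X j‖⁻¹)]
      refine Finset.sum_congr rfl fun j _ => ?_
      simp only [Function.comp_apply, EmbeddingLike.apply_eq_iff_eq]
    simp only [h3]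
    exact Equiv.sum_comp π (fun i => ∑ j, if i = j then (0 : ℝ) else ‖X i - X j‖⁻¹)
  unfold V
  rw [h1, h2]

theorem KF_perm {φ : Om N → ℂ} (hφ : φ ∈ CTest N) (π : Equiv.Perm (Fin N)) (ω : Om N) :
    KF φ (ω ∘ π) = sgn π * KF φ ω := by
  obtain ⟨h1, _, h3⟩ := hφ
  set σ : Spin N := fun i => (ω i).2 with hσ
  set X : Conf N := fun i => (ω i).1 with hX
  have e1 : KF φ (ω ∘ π) = - lapC (fun Y => φ (jn (σ ∘ π) Y)) (X ∘ π) := rfl
  have e2 : KF φ ω = - lapC (fun Y => φ (jn σ Y)) X := rfl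
  rw [e1, e2]
  have e3 : lapC (fun Y => φ (jn (σ ∘ π) Y)) (X ∘ π)
      = lapC (fun Y => (fun Z => φ (jn (σ ∘ π) Z)) (Y ∘ π)) X := (lapC_perm (h1 (σ ∘ π)) π X).symm
  have e4 : (fun Y : Conf N => (fun Z => φ (jn (σ ∘ π) Z)) (Y ∘ π)) = fun Y => sgn π * φ (jn σ Y) := by
    funext Y
    exact h3 π (jn σ Y)
  rw [e3, e4, lapC_mul (h1 σ)]
  ring

theorem VF_perm (z : ℝ) {φ : Om N → ℂ} (hφ : φ ∈ CTest N) (π : Equiv.Perm (Fin N)) (ω : Om N) :
    VF z φ (ω ∘ π) = sgn π * VF z φ ω := by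
  have e1 : VF z φ (ω ∘ π) = (V z ((fun i => (ω i).1) ∘ π) : ℂ) * φ (ω ∘ π) := rfl
  have e2 : VF z φ ω = (V z (fun i => (ω i).1) : ℂ) * φ ω := rfl
  rw [e1, e2, V_permM, hφ.2.2 π ω]
  ring

end Ion
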