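import Pool.Agent.Lib.MP_69e010_mp.M.MA
import Pool.Agent.Lib.MP_69e010_mp.M.MB1

/-!
# JOB MB2 (stream M of MP_69e010_mp): test functions, `-Δ φ` and `V φ` are square integrable

* `memLp_ct`, `memLp_K`: `memLp_mu`; continuous with compact support (`Continuous.memLp_of_hasCompactSupport`).  For `KF`: by `ct_eq`, `lapC_re`, `lapC_im` (MR.lean) or directly `lapC F` is continuous
  with compact support (a finite sum of second derivatives: `lapR_smooth`, `lapR_supp` for the real and imaginary parts).
* `memLp_V`: measurable; `‖V z X φ(σ,X)‖² = (V z X)² (re² + im²)` integrable by `V_sq_le` (real and imaginary part are `LipC` by `reW_test`, `imW_test`, `IsTest.admsM`);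
  `memLp_two_iff_integrable_sq_norm`.
-/

open MeasureTheory Filter Topology
open scoped ENNReal

noncomputable section

namespace Ion

variable {N : ℕ}

theorem measurable_V (z : ℝ) : Measurable (fun X : Conf N => V z X) := by
  unfold V Vee Ven
  refine Measurable.sub ?_ ?_
  · refine Finset.measurable_sum _ fun i _ => Finset.measurable_sum _ fun j _ => ?_
    exact ((measurable_pi_apply i).sub (measurable_pi_apply j)).norm.inv
  · refine Measurable.const_mul ?_ z
    refine Finset.measurable_sum _ fun i _ => ?_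
    exact (measurable_pi_apply i).norm.inv

theorem memLp_ct {φ : Om N → ℂ} (hφ : φ ∈ CTest N) : MemLp φ 2 (mu N) := by
  exact memLp_mu.2 fun σ => (hφ.1 σ).continuous.memLp_of_hasCompactSupport (hφ.2.1 σ)

theorem memLp_K {φ : Om N → ℂ} (hφ : φ ∈ CTest N) : MemLp (KF φ) 2 (mu N) := by
  refine memLp_mu.2 fun σ => ?_
  have hF := hφ.1 σ
  have hF' := hφ.2.1 σ
  set F : Conf N → ℂ := fun X => φ (jn σ X) with hFdef
  have hre : ContDiff ℝ (⊤ : ℕ∞) (fun Y => (F Y).re) := Complex.reCLM.contDiff.comp hF
  have him : ContDiff ℝ (⊤ : ℕ∞) (fun Y => (F Y).im) := Complex.imCLM.contDiff.comp hF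
  have hre' : HasCompactSupport (fun Y => (F Y).re) := hF'.comp_left (g := Complex.re) rfl
  have him' : HasCompactSupport (fun Y => (F Y).im) := hF'.comp_left (g := Complex.im) rfl
  have h1 : (fun X : Conf N => KF φ (jn σ X)) = fun X =>
      -(((lapR (fun Y => (F Y).re) X : ℝ) : ℂ) + ((lapR (fun Y => (F Y).im) X : ℝ) : ℂ) * Complex.I) := by
    funext X
    rw [KF_jn]
    congr 1
    apply Complex.ext
    · simp
      exact lapC_re hF X
    · simp
      exact lapC_im hF X
  rw [h1]
  have c1 : Continuous (lapR (fun Y => (F Y).re)) := (lapR_smooth hre).continuous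
  have c2 : Continuous (lapR (fun Y => (F Y).im)) := (lapR_smooth him).continuous
  refine Continuous.memLp_of_hasCompactSupport ?_ ?_
  · fun_prop
  · have s1 : HasCompactSupport (fun X => ((lapR (fun Y => (F Y).re) X : ℝ) : ℂ)) :=
      (lapR_supp hre').comp_left (g := fun t : ℝ => (t : ℂ)) Complex.ofReal_zero
    have s2 : HasCompactSupport (fun X => ((lapR (fun Y => (F Y).im) X : ℝ) : ℂ) * Complex.I) :=
      (lapR_supp him').comp_left (g := fun t : ℝ => (t : ℂ) * Complex.I) (by simp)
    exact (s1.add s2).comp_left (g := fun t : ℂ => -t) neg_zero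

theorem memLp_V (z : ℝ) {φ : Om N → ℂ} (hφ : φ ∈ CTest N) : MemLp (VF z φ) 2 (mu N) := by
  refine memLp_mu.2 fun σ => ?_
  have hF := hφ.1 σ
  obtain ⟨C, -, hC⟩ := V_sq_le z N
  have h1 := (hC _ ((reW_test hφ).admsM.1 σ)).1
  have h2 := (hC _ ((imW_test hφ).admsM.1 σ)).1
  have hm : AEStronglyMeasurable (fun X : Conf N => VF z φ (jn σ X)) volume := by
    simp only [VF_jn]
    exact ((Complex.measurable_ofReal.comp (measurable_V z)).mul
      hF.continuous.measurable).aestronglyMeasurable
  rw [memLp_two_iff_integrable_sq_norm hm]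
  refine (h1.add h2).congr (Filter.Eventually.of_forall fun X => ?_)
  simp only [Pi.add_apply]
  rw [VF_jn, norm_mul, mul_pow, Complex.norm_real, Real.norm_eq_abs, sq_abs, ← mul_add]
  congr 1
  rw [← Complex.normSq_eq_norm_sq, Complex.normSq_apply]
  unfold reW imW
  ring

end Ion
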