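import Pool.Agent.Lib.MP_69e010_mp.M.MB1

/-!
# JOB MD1 (stream M of MP_69e010_mp): antisymmetrization of test functions

For a real scalar test function `χ` on `Conf N` and a spin configuration `σ₀` let `spn σ₀ χ ω := if (spins of ω) = σ₀ then χ (positions of ω) else 0` and
`asymM b ω := ∑ π, sgn π * b (ω ∘ π)`; it is in `CTest N`: `(ω ∘ π') ∘ π = ω ∘ (π' * π)`, `sgn (π' * π) = sgn π' * sgn π`, `sgn π * sgn π = 1`, reindex with `Equiv.mulLeft`
(`Equiv.sum_comp`, `Fintype.sum_equiv`); smooth in the positions: `spn σ₀ χ (jn σ X ∘ π) = if σ ∘ π = σ₀ then χ (X ∘ π) else 0`.  Compact support of `X ↦ χ (X ∘ π)`: `HasCompactSupport.comp_homeomorph` or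
`comp_isClosedEmbedding` (`X ↦ X ∘ π` is a homeomorphism).
`KF_asym`: for fixed spins `σ` the function `Y ↦ asymM (spn σ₀ χ) (jn σ Y)` is the finite sum over `π` of `sgn π * (if σ ∘ π = σ₀ then χ (Y ∘ π) else 0)`; `lapC_perm`, `lapC_mul`, `lapC_add` (for finite
sums by induction), `lapC_ofReal`.
-/

open MeasureTheory Filter Topology
open scoped ENNReal ComplexConjugate

noncomputable section

namespace Ion

variable {N : ℕ}

/-- antisymmetrization -/
def asymM (b : Om N → ℂ) (ω : Om N) : ℂ := ∑ π : Equiv.Perm (Fin N), sgn π * b (ω ∘ π)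

/-- a scalar function of the positions with fixed spins -/
def spn (σ₀ : Spin N) (χ : Conf N → ℝ) (ω : Om N) : ℂ :=
  if (fun i => (ω i).2) = σ₀ then (χ (fun i => (ω i).1) : ℂ) else 0

theorem aux_MD1_sgn_mul (π ρ : Equiv.Perm (Fin N)) : sgn (π * ρ) = sgn π * sgn ρ := by
  unfold sgn
  rw [Equiv.Perm.sign_mul]
  push_cast
  ring

theorem aux_MD1_sgn_sq (π : Equiv.Perm (Fin N)) : sgn π * sgn π = 1 := by
  unfold sgn
  rcases Int.units_eq_one_or (Equiv.Perm.sign π) with h | h <;> rw [h] <;> norm_num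

theorem aux_MD1_asym_jn (σ₀ : Spin N) (χ : Conf N → ℝ) (σ : Spin N) (X : Conf N) :
    asymM (spn σ₀ χ) (jn σ X) =
      ∑ π : Equiv.Perm (Fin N), sgn π * (if σ ∘ π = σ₀ then ((χ (X ∘ π) : ℝ) : ℂ) else 0) := rfl

theorem aux_MD1_perm_smooth (π : Equiv.Perm (Fin N)) :
    ContDiff ℝ (⊤ : ℕ∞) (fun X : Conf N => X ∘ π) := by
  rw [contDiff_pi]
  intro i
  exact contDiff_apply ℝ E3 (π i)

/-- permutation of the electrons as a homeomorphism -/
def aux_MD1_homeo (π : Equiv.Perm (Fin N)) : Conf N ≃ₜ Conf N where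
  toFun X := X ∘ π
  invFun X := X ∘ π.symm
  left_inv X := by
    funext i
    simp
  right_inv X := by
    funext i
    simp
  continuous_toFun := continuous_pi fun i => continuous_apply (π i)
  continuous_invFun := continuous_pi fun i => continuous_apply (π.symm i)

theorem aux_MD1_lapC_zero (X : Conf N) : lapC (fun _ : Conf N => (0 : ℂ)) X = 0 := by
  simp [lapC]

theorem aux_MD1_lapC_sum {κ : Type*} (s : Finset κ) (F : κ → Conf N → ℂ)
    (hF : ∀ k ∈ s, ContDiff ℝ (⊤ : ℕ∞) (F k)) (X : Conf N) :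
    lapC (fun Y => ∑ k ∈ s, F k Y) X = ∑ k ∈ s, lapC (F k) X := by
  classical
  induction s using Finset.induction_on with
  | empty =>
    simp only [Finset.sum_empty]
    exact aux_MD1_lapC_zero X
  | insert a s ha ih =>
    simp only [Finset.sum_insert ha]
    rw [lapC_add (hF a (Finset.mem_insert_self a s))
      (ContDiff.sum fun k hk => hF k (Finset.mem_insert_of_mem hk)),
      ih fun k hk => hF k (Finset.mem_insert_of_mem hk)]

theorem asym_perm (b : Om N → ℂ) (π : Equiv.Perm (Fin N)) (ω : Om N) : asymM b (ω ∘ π) = sgn π * asymM b ω := by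
  have h1 : ∀ ρ : Equiv.Perm (Fin N), sgn ρ * b ((ω ∘ π) ∘ ρ) =
      sgn π * (sgn (π * ρ) * b (ω ∘ ⇑(π * ρ))) := by
    intro ρ
    have h2 : (ω ∘ π) ∘ ρ = ω ∘ ⇑(π * ρ) := rfl
    rw [h2, aux_MD1_sgn_mul, ← mul_assoc, ← mul_assoc, aux_MD1_sgn_sq, one_mul]
  unfold asymM
  rw [Finset.sum_congr rfl fun ρ _ => h1 ρ, ← Finset.mul_sum]
  congr 1
  exact Equiv.sum_comp (Equiv.mulLeft π) (fun ρ => sgn ρ * b (ω ∘ ⇑ρ))

theorem asym_ct (σ₀ : Spin N) {χ : Conf N → ℝ} (hχ : ContDiff ℝ (⊤ : ℕ∞) χ) (hχ' : HasCompactSupport χ) :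
    asymM (spn σ₀ χ) ∈ CTest N := by
  refine ⟨fun σ => ?_, fun σ => ?_, asym_perm _⟩
  · simp only [aux_MD1_asym_jn]
    refine ContDiff.sum fun π _ => contDiff_const.mul ?_
    by_cases h : σ ∘ π = σ₀
    · simp only [if_pos h]
      exact Complex.ofRealCLM.contDiff.comp (hχ.comp (aux_MD1_perm_smooth π))
    · simp only [if_neg h]
      exact contDiff_const
  · have hK : IsCompact (⋃ π : Equiv.Perm (Fin N), (aux_MD1_homeo π) ⁻¹' tsupport χ) :=
      isCompact_iUnion fun π => (aux_MD1_homeo π).isCompact_preimage.2 hχ'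
    refine HasCompactSupport.intro hK fun X hX => ?_
    rw [aux_MD1_asym_jn]
    refine Finset.sum_eq_zero fun π _ => ?_
    have h1 : χ (X ∘ π) = 0 := by
      by_contra h2
      apply hX
      refine Set.mem_iUnion.2 ⟨π, ?_⟩
      exact subset_tsupport χ h2
    rw [h1]
    simp

theorem KF_asym (σ₀ : Spin N) {χ : Conf N → ℝ} (hχ : ContDiff ℝ (⊤ : ℕ∞) χ) (ω : Om N) :
    KF (asymM (spn σ₀ χ)) ω = asymM (spn σ₀ (fun X => - lapR χ X)) ω := by
  obtain ⟨σ, X, rfl⟩ : ∃ σ X, ω = jn σ X := ⟨fun i => (ω i).2, fun i => (ω i).1, rfl⟩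
  rw [KF_jn, aux_MD1_asym_jn]
  have h1 : (fun Y : Conf N => asymM (spn σ₀ χ) (jn σ Y)) = fun Y =>
      ∑ π : Equiv.Perm (Fin N), sgn π * (if σ ∘ π = σ₀ then ((χ (Y ∘ π) : ℝ) : ℂ) else 0) := by
    funext Y
    exact aux_MD1_asym_jn σ₀ χ σ Y
  have hs : ∀ π : Equiv.Perm (Fin N), ContDiff ℝ (⊤ : ℕ∞)
      (fun Y : Conf N => (if σ ∘ π = σ₀ then ((χ (Y ∘ π) : ℝ) : ℂ) else 0)) := by
    intro π
    by_cases h : σ ∘ π = σ₀
    · simp only [if_pos h]
      exact Complex.ofRealCLM.contDiff.comp (hχ.comp (aux_MD1_perm_smooth π))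
    · simp only [if_neg h]
      exact contDiff_const
  rw [h1, aux_MD1_lapC_sum _ _ (fun π _ => contDiff_const.mul (hs π)), ← Finset.sum_neg_distrib]
  refine Finset.sum_congr rfl fun π _ => ?_
  rw [lapC_mul (hs π), ← mul_neg]
  congr 1
  by_cases h : σ ∘ π = σ₀
  · simp only [if_pos h]
    have h2 := lapC_perm (F := fun Y : Conf N => ((χ Y : ℝ) : ℂ))
      (Complex.ofRealCLM.contDiff.comp hχ) π X
    rw [h2, lapC_ofReal hχ]
    push_cast
    rfl
  · simp only [if_neg h]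
    rw [aux_MD1_lapC_zero, neg_zero]

end Ion
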