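import Pool.Agent.Lib.MP_69e010_mp.M.MR

/-!
# JOB MF2 (stream M of MP_69e010_mp): mollification of a square integrable function

`mol ρ f X := ∫ Y, ρ (X - Y) * f Y` for smooth `ρ` with compact support and `f ∈ L²` (locally integrable: `MemLp.locallyIntegrable`).
* it is a convolution (`MeasureTheory.convolution`, with `ContinuousLinearMap.mul ℝ ℝ` or `lsmul`; `convolution_eq_swap`), smooth by `HasCompactSupport.contDiff_convolution_left`.
* `pd_mol`: the derivative falls on `ρ`: `HasCompactSupport.hasFDerivAt_convolution_left` (Mathlib/Analysis/Calculus/ContDiff/Convolution.lean), or differentiate under the integral sign.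
* `lapR_mol`: twice `pd_mol` (`pd k c ρ` is again smooth with compact support: `pd_smooth`, `pd_supp`), finite sums and integrals.
* `mol_sq`: for `ρ >= 0`, `∫ ρ = 1`: `(∫ ρ(X-Y) f(Y) dY)² <= ∫ ρ(X-Y) f(Y)² dY` (Cauchy-Schwarz with `√ρ · √ρ f`, or Jensen
  `ConvexOn.map_integral_le` for the probability measure `ρ(X - Y) dY`, or: `∫ ρ(X-Y) (f(Y) - m)² dY >= 0` with `m = ∫ ρ(X-Y) f(Y) dY`, expand), then Tonelli:
  `∫ (∫ ρ(X-Y) f(Y)² dY) dX = ∫ f²` (`MeasureTheory.Integrable.integrable_convolution`, `integral_convolution`).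
-/

open MeasureTheory Filter Topology
open scoped ENNReal

noncomputable section

namespace Ion

variable {N : ℕ}

/-- mollification -/
def mol (ρ f : Conf N → ℝ) (X : Conf N) : ℝ := ∫ Y, ρ (X - Y) * f Y

theorem aux_MF2_conv (ρ f : Conf N → ℝ) : mol ρ f = convolution f ρ (ContinuousLinearMap.mul ℝ ℝ) volume := by
  funext X
  simp only [mol, convolution, ContinuousLinearMap.mul_apply']
  exact integral_congr_ae (Eventually.of_forall fun Y => mul_comm _ _)

theorem aux_MF2_int {ρ f : Conf N → ℝ} (hρ : Continuous ρ) (hρ' : HasCompactSupport ρ) (hf : LocallyIntegrable f)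
    (X : Conf N) : Integrable (fun Y => ρ (X - Y) * f Y) := by
  have h := (hρ'.convolutionExists_right (ContinuousLinearMap.mul ℝ ℝ) hf hρ) X
  have h1 : Integrable (fun Y => (ContinuousLinearMap.mul ℝ ℝ) (f Y) (ρ (X - Y))) := h
  refine h1.congr (Eventually.of_forall fun Y => ?_)
  simp only [ContinuousLinearMap.mul_apply']
  exact mul_comm _ _

theorem aux_MF2_neg : (volume : Measure (Conf N)).IsNegInvariant := by
  have : (volume : Measure (Conf N)).Regular := Measure.Regular.of_sigmaCompactSpace_of_isLocallyFiniteMeasure _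
  exact Measure.IsAddHaarMeasure.isNegInvariant_of_regular _

theorem mol_smooth {ρ f : Conf N → ℝ} (hρ : ContDiff ℝ (⊤ : ℕ∞) ρ) (hρ' : HasCompactSupport ρ) (hf : LocallyIntegrable f) :
    ContDiff ℝ (⊤ : ℕ∞) (mol ρ f) := by
  rw [aux_MF2_conv]
  exact hρ'.contDiff_convolution_right _ hf hρ

theorem pd_mol {ρ f : Conf N → ℝ} (hρ : ContDiff ℝ (⊤ : ℕ∞) ρ) (hρ' : HasCompactSupport ρ) (hf : LocallyIntegrable f)
    (k : Fin N) (c : Fin 3) (X : Conf N) : pd k c (mol ρ f) X = mol (fun Y => pd k c ρ Y) f X := by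
  have hρ1 : ContDiff ℝ 1 ρ := hρ.of_le (by exact_mod_cast le_top)
  have h := hρ'.hasFDerivAt_convolution_right (ContinuousLinearMap.mul ℝ ℝ) hf hρ1 X
  rw [pd, aux_MF2_conv, h.fderiv]
  rw [convolution_precompR_apply (ContinuousLinearMap.mul ℝ ℝ) hf (hρ'.fderiv ℝ) (hρ1.continuous_fderiv one_ne_zero)]
  rw [aux_MF2_conv]
  rfl

theorem lapR_mol {ρ f : Conf N → ℝ} (hρ : ContDiff ℝ (⊤ : ℕ∞) ρ) (hρ' : HasCompactSupport ρ) (hf : LocallyIntegrable f)
    (X : Conf N) : lapR (mol ρ f) X = mol (lapR ρ) f X := by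
  have h1 : ∀ (k : Fin N) (c : Fin 3), pd k c (fun Y => pd k c (mol ρ f) Y) X
      = mol (fun Y => pd k c (fun Z => pd k c ρ Z) Y) f X := by
    intro k c
    have h2 : (fun Y => pd k c (mol ρ f) Y) = mol (fun Y => pd k c ρ Y) f := by
      funext Y
      exact pd_mol hρ hρ' hf k c Y
    rw [h2]
    exact pd_mol (pd_smooth hρ k c) (pd_supp hρ' k c) hf k c X
  have h3 : ∀ (k : Fin N) (c : Fin 3), Integrable (fun Y => pd k c (fun Z => pd k c ρ Z) (X - Y) * f Y) := by
    intro k c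
    exact aux_MF2_int (pd_smooth (pd_smooth hρ k c) k c).continuous (pd_supp (pd_supp hρ' k c) k c) hf X
  unfold lapR
  simp only [h1]
  simp only [mol]
  symm
  have h4 : (fun Y => (∑ k : Fin N, ∑ c : Fin 3, pd k c (fun Z => pd k c ρ Z) (X - Y)) * f Y)
      = fun Y => ∑ k : Fin N, ∑ c : Fin 3, pd k c (fun Z => pd k c ρ Z) (X - Y) * f Y := by
    funext Y
    rw [Finset.sum_mul]
    exact Finset.sum_congr rfl fun k _ => Finset.sum_mul _ _ _
  rw [h4, integral_finsetSum _ fun k _ => integrable_finsetSum _ fun c _ => h3 k c]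
  exact Finset.sum_congr rfl fun k _ => integral_finsetSum _ fun c _ => h3 k c

theorem mol_sq {ρ f : Conf N → ℝ} (hρ : ContDiff ℝ (⊤ : ℕ∞) ρ) (hρ' : HasCompactSupport ρ) (h0 : ∀ X, 0 ≤ ρ X)
    (h1 : ∫ X, ρ X = 1) (hf : MemLp f 2 volume) :
    Integrable (fun X => (mol ρ f X) ^ 2) ∧ ∫ X, (mol ρ f X) ^ 2 ≤ ∫ X, (f X) ^ 2 := by
  have : (volume : Measure (Conf N)).IsNegInvariant := aux_MF2_neg
  have hfl : LocallyIntegrable f := hf.locallyIntegrable (by norm_num)
  have hf2 : Integrable (fun X => (f X) ^ 2) := hf.integrable_sq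
  have hρc : Continuous ρ := hρ.continuous
  have hρi : Integrable ρ := hρc.integrable_of_hasCompactSupport hρ'
  have hmc : Continuous (mol ρ f) := (mol_smooth hρ hρ' hfl).continuous
  -- pointwise Jensen inequality
  have hJ : ∀ X, (mol ρ f X) ^ 2 ≤ mol ρ (fun Y => (f Y) ^ 2) X := by
    intro X
    set m := mol ρ f X with hm
    have i1 : Integrable (fun Y => ρ (X - Y) * (f Y) ^ 2) := aux_MF2_int hρc hρ' hf2.locallyIntegrable X
    have i2 : Integrable (fun Y => ρ (X - Y) * f Y) := aux_MF2_int hρc hρ' hfl X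
    have i3 : Integrable (fun Y => ρ (X - Y)) := hρi.comp_sub_left X
    have e3 : ∫ Y, ρ (X - Y) = 1 := by
      rw [integral_sub_left_eq_self]
      exact h1
    have e1 : 0 ≤ ∫ Y, ρ (X - Y) * (f Y - m) ^ 2 :=
      integral_nonneg fun Y => mul_nonneg (h0 _) (sq_nonneg _)
    have e2 : (fun Y => ρ (X - Y) * (f Y - m) ^ 2)
        = fun Y => (ρ (X - Y) * (f Y) ^ 2 - (2 * m) * (ρ (X - Y) * f Y)) + m ^ 2 * ρ (X - Y) := by
      funext Y
      ring
    have i4 : Integrable (fun Y => ρ (X - Y) * (f Y) ^ 2 - (2 * m) * (ρ (X - Y) * f Y)) :=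
      i1.sub (i2.const_mul _)
    rw [e2, integral_add i4 (i3.const_mul _), integral_sub i1 (i2.const_mul _),
      integral_const_mul, integral_const_mul, e3] at e1
    have e4 : ∫ Y, ρ (X - Y) * f Y = m := rfl
    have e5 : ∫ Y, ρ (X - Y) * (f Y) ^ 2 = mol ρ (fun Y => (f Y) ^ 2) X := rfl
    rw [e4, e5] at e1
    nlinarith [e1]
  have hg : Integrable (mol ρ (fun Y => (f Y) ^ 2)) := by
    rw [aux_MF2_conv]
    exact hf2.integrable_convolution _ hρi
  have hgi : ∫ X, mol ρ (fun Y => (f Y) ^ 2) X = ∫ X, (f X) ^ 2 := by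
    rw [aux_MF2_conv, integral_convolution _ hf2 hρi, ContinuousLinearMap.mul_apply', h1, mul_one]
  have hi : Integrable (fun X => (mol ρ f X) ^ 2) := by
    refine hg.mono' (hmc.pow 2).aestronglyMeasurable (Eventually.of_forall fun X => ?_)
    rw [Real.norm_eq_abs, abs_of_nonneg (sq_nonneg _)]
    exact hJ X
  refine ⟨hi, ?_⟩
  rw [← hgi]
  exact integral_mono hi hg hJ

end Ion
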