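import Pool.Agent.Lib.MP_69e010_mp.M.MF1
import Pool.Agent.Lib.MP_69e010_mp.M.MF2

/-!
# JOB MF3 (stream M of MP_69e010_mp): `(-Δ + l) C_c^∞` is dense in `L²`

Take the bump functions `φ_n : ContDiffBump (0 : Conf N)` with radii `rIn = 1/(2(n+1))`, `rOut = 1/(n+1)`, `ρ_n := φ_n.normed volume` (smooth, compact support, even: `ContDiffBump.normed_neg`,
nonnegative, integral 1: `ContDiffBump.contDiff_normed`, `hasCompactSupport_normed`, `nonneg_normed`, `integral_normed`).
`u := mol ρ_n f` is smooth, `u² ` is integrable (`mol_sq`) and `- Δ u + l u = 0`: for fixed `X`, `lapR_mol`: `- Δ u (X) + l u(X) = ∫ (-lapR ρ_n + l ρ_n)(X - Y) f(Y) dY`; the function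
`χ(Y) := ρ_n (X - Y)` is a test function with `lapR χ (Y) = (lapR ρ_n)(X - Y)` (two derivatives, two signs), so this is `0` by hypothesis.
By `sol_zero`, `mol ρ_n f = 0` for every `n`.  By `ContDiffBump.ae_convolution_tendsto_right_of_locallyIntegrable` (`mol ρ_n f` is the convolution `ρ_n ⋆ f`), `mol ρ_n f X → f X` for a.e. `X`.
-/

open MeasureTheory Filter Topology
open scoped ENNReal Convolution

noncomputable section

namespace Ion

variable {N : ℕ}

theorem aux_MF3_pd_reflect {G : Conf N → ℝ} (hG : Differentiable ℝ G) (k : Fin N) (c : Fin 3) (X Y : Conf N) :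
    pd k c (fun Z => G (X - Z)) Y = - pd k c G (X - Y) := by
  unfold pd
  have h1 : HasFDerivAt (fun Z : Conf N => X - Z) (-(ContinuousLinearMap.id ℝ (Conf N))) Y := by
    simpa using (hasFDerivAt_id (𝕜 := ℝ) Y).const_sub X
  have h2 := (hG (X - Y)).hasFDerivAt.comp Y h1
  have h3 : (G ∘ fun Z : Conf N => X - Z) = fun Z => G (X - Z) := rfl
  rw [h3] at h2
  rw [h2.fderiv]
  simp

theorem aux_MF3_pd_neg (G : Conf N → ℝ) (k : Fin N) (c : Fin 3) (Y : Conf N) :
    pd k c (fun Z => - G Z) Y = - pd k c G Y := by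
  unfold pd
  rw [fderiv_fun_neg]
  simp

theorem lapR_reflect {ρ : Conf N → ℝ} (hρ : ContDiff ℝ (⊤ : ℕ∞) ρ) (X Y : Conf N) :
    lapR (fun Y => ρ (X - Y)) Y = lapR ρ (X - Y) := by
  unfold lapR
  refine Finset.sum_congr rfl fun k _ => Finset.sum_congr rfl fun c _ => ?_
  have h1 : (fun Z => pd k c (fun Y => ρ (X - Y)) Z) = fun Z => - pd k c ρ (X - Z) := by
    funext Z
    exact aux_MF3_pd_reflect (hρ.differentiable (by simp)) k c X Z
  have h2 : (fun Z : Conf N => - pd k c ρ (X - Z)) = fun Z => - (fun W => pd k c ρ (X - W)) Z := rfl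
  rw [h1, h2, aux_MF3_pd_neg, aux_MF3_pd_reflect ((pd_smooth hρ k c).differentiable (by simp)) k c X Y, neg_neg]

/-- the approximate identity -/
def aux_MF3_bump (N : ℕ) (n : ℕ) : ContDiffBump (0 : Conf N) where
  rIn := 1 / (2 * ((n : ℝ) + 1))
  rOut := 1 / ((n : ℝ) + 1)
  rIn_pos := by positivity
  rIn_lt_rOut := by
    apply one_div_lt_one_div_of_lt (by positivity)
    have : (0 : ℝ) ≤ n := Nat.cast_nonneg n
    linarith

theorem aux_MF3_ball (φ : ContDiffBump (0 : Conf N)) {l : ℝ} (hl : 0 < l) {f : Conf N → ℝ} (hf : MemLp f 2 volume)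
    (h : ∀ χ : Conf N → ℝ, ContDiff ℝ (⊤ : ℕ∞) χ → HasCompactSupport χ → ∫ X, (- lapR χ X + l * χ X) * f X = 0)
    (X : Conf N) : mol (φ.normed volume) f X = 0 := by
  have hs : ContDiff ℝ (⊤ : ℕ∞) (φ.normed volume) := φ.contDiff_normed
  have hc : HasCompactSupport (φ.normed (volume : Measure (Conf N))) := φ.hasCompactSupport_normed
  have hfl : LocallyIntegrable f := hf.locallyIntegrable (by norm_num)
  refine sol_zero (mol_smooth hs hc hfl) (mol_sq hs hc (fun X => φ.nonneg_normed X) φ.integral_normed hf).1 hl ?_ X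
  intro X
  have hrefl : ∀ g : Conf N → ℝ, Continuous g → HasCompactSupport g → Integrable fun Y => g (X - Y) * f Y := by
    intro g hg hg'
    have h1 : Continuous fun Y : Conf N => g (X - Y) := hg.comp (continuous_const.sub continuous_id)
    have h2 : HasCompactSupport fun Y : Conf N => g (X - Y) :=
      hg'.comp_homeomorph (Homeomorph.subLeft X)
    exact hfl.integrable_smul_left_of_hasCompactSupport h1 h2
  rw [lapR_mol hs hc hfl]
  have hχ : ContDiff ℝ (⊤ : ℕ∞) fun Y : Conf N => φ.normed volume (X - Y) := hs.comp (contDiff_const.sub contDiff_id)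
  have hχ' : HasCompactSupport fun Y : Conf N => φ.normed volume (X - Y) := hc.comp_homeomorph (Homeomorph.subLeft X)
  have h1 := h _ hχ hχ'
  have h2 := hrefl (lapR (φ.normed volume)) (lapR_smooth hs).continuous (lapR_supp hc)
  have h3 := hrefl (φ.normed volume) hs.continuous hc
  rw [← h1]
  unfold mol
  have h4 : Integrable fun Y => - (lapR (φ.normed volume) (X - Y) * f Y) := h2.neg
  rw [← integral_neg, ← integral_const_mul, ← integral_add h4 (h3.const_mul l)]
  congr 1
  funext Y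
  rw [lapR_reflect hs]
  ring

theorem dense_scalar {l : ℝ} (hl : 0 < l) {f : Conf N → ℝ} (hf : MemLp f 2 volume)
    (h : ∀ χ : Conf N → ℝ, ContDiff ℝ (⊤ : ℕ∞) χ → HasCompactSupport χ → ∫ X, (- lapR χ X + l * χ X) * f X = 0) :
    f =ᵐ[volume] 0 := by
  have hfl : LocallyIntegrable f := hf.locallyIntegrable (by norm_num)
  have h1 : Tendsto (fun n : ℕ => (aux_MF3_bump N n).rOut) atTop (𝓝 0) := tendsto_one_div_add_atTop_nhds_zero_nat
  have h2 : ∀ᶠ n : ℕ in atTop, (aux_MF3_bump N n).rOut ≤ 2 * (aux_MF3_bump N n).rIn := by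
    refine Eventually.of_forall fun n => ?_
    show 1 / ((n : ℝ) + 1) ≤ 2 * (1 / (2 * ((n : ℝ) + 1)))
    have : (n : ℝ) + 1 ≠ 0 := by positivity
    apply le_of_eq
    field_simp
  have h3 := ContDiffBump.ae_convolution_tendsto_right_of_locallyIntegrable (μ := (volume : Measure (Conf N)))
    h1 h2 hfl
  filter_upwards [h3] with X hX
  haveI : (volume : Measure (Conf N)).IsNegInvariant := Measure.pi.isNegInvariant _
  have h4 : (fun n : ℕ => (((aux_MF3_bump N n).normed volume) ⋆[ContinuousLinearMap.lsmul ℝ ℝ, volume] f) X)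
      = fun _ => (0 : ℝ) := by
    funext n
    rw [convolution_lsmul_swap]
    exact aux_MF3_ball (aux_MF3_bump N n) hl hf h X
  rw [h4] at hX
  exact tendsto_nhds_unique hX tendsto_const_nhds |>.trans rfl

end Ion
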