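import Pool.Agent.Lib.MP_69e010_mp.M.MG2
import Pool.Agent.Lib.MP_69e010_mp.M.MF3
import Pool.Agent.Lib.MP_69e010_mp.M.MD1

/-!
# JOB MD (stream M of MP_69e010_mp): `(-Δ + l)` maps the antisymmetric test functions onto a dense subspace of the fermionic space

* `pair_asym`: `conj (asymM b ω) = asymM b ω` for real `b`; `∫ b(ω ∘ π) f(ω) dmu = sgn π ∫ b(ω) f(ω) dmu` (`mp_perm π`, `f ∈ Fer N`); sum over `π`.
* `orth_zero`, `orth_zero'`: orthogonality to all antisymmetrized test functions gives the scalar statement for every spin configuration.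
-/

open MeasureTheory Filter Topology
open scoped ENNReal ComplexConjugate

noncomputable section

namespace Ion

variable {N : ℕ}

theorem aux_MD_sgn_conj (π : Equiv.Perm (Fin N)) : conj (sgn π) = sgn π := by
  unfold sgn
  simp

theorem aux_MD_sgn_sq (π : Equiv.Perm (Fin N)) : sgn π * sgn π = 1 := by
  unfold sgn
  rcases Int.units_eq_one_or (Equiv.Perm.sign π) with h | h <;> simp [h]

theorem aux_MD_spn_jn (σ₀ σ : Spin N) (χ : Conf N → ℝ) (X : Conf N) :
    spn σ₀ χ (jn σ X) = if σ = σ₀ then (χ X : ℂ) else 0 := rfl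

theorem aux_MD_spn_conj (σ₀ : Spin N) (χ : Conf N → ℝ) (ω : Om N) : conj (spn σ₀ χ ω) = spn σ₀ χ ω := by
  unfold spn
  split_ifs <;> simp

theorem aux_MD_memLp (σ₀ : Spin N) {χ : Conf N → ℝ} (hχ : Continuous χ) (hχ' : HasCompactSupport χ) :
    MemLp (spn σ₀ χ) 2 (mu N) := by
  rw [memLp_mu]
  intro σ
  by_cases h : σ = σ₀
  · have : (fun X : Conf N => spn σ₀ χ (jn σ X)) = fun X => (χ X : ℂ) := by
      funext X
      rw [aux_MD_spn_jn, if_pos h]
    rw [this]
    have hc : Continuous (fun X : Conf N => (χ X : ℂ)) := Complex.continuous_ofReal.comp hχ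
    have hs : HasCompactSupport (fun X : Conf N => (χ X : ℂ)) :=
      hχ'.comp_left (g := fun t : ℝ => (t : ℂ)) (by simp)
    exact hc.memLp_of_hasCompactSupport hs
  · have : (fun X : Conf N => spn σ₀ χ (jn σ X)) = fun _ => 0 := by
      funext X
      rw [aux_MD_spn_jn, if_neg h]
    rw [this]
    exact MemLp.zero

theorem aux_MD_fer (f : Fer N) (π : Equiv.Perm (Fin N)) :
    (fun ω : Om N => (f : L2 N) ω) =ᵐ[mu N] fun ω => sgn π * (f : L2 N) (ω ∘ π) := by
  have h : (fun ω : Om N => (f : L2 N) (ω ∘ π)) =ᵐ[mu N] fun ω => sgn π * (f : L2 N) ω := f.2 π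
  filter_upwards [h] with ω hω
  rw [hω, ← mul_assoc, aux_MD_sgn_sq, one_mul]

/-- pairing of an antisymmetrized function with an antisymmetric function -/
theorem pair_asym (σ₀ : Spin N) {χ : Conf N → ℝ} (hχ : Continuous χ) (hχ' : HasCompactSupport χ) (f : Fer N) :
    ∫ ω, conj (asymM (spn σ₀ χ) ω) * (f : L2 N) ω ∂(mu N)
      = (Nat.factorial N : ℂ) * ∫ X : Conf N, (χ X : ℂ) * (f : L2 N) (jn σ₀ X) := by
  set b : Om N → ℂ := spn σ₀ χ with hb
  have hbm : MemLp b 2 (mu N) := aux_MD_memLp σ₀ hχ hχ'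
  have hfm : MemLp (f : L2 N) 2 (mu N) := Lp.memLp (f : L2 N)
  have hbf : Integrable (fun ω => b ω * (f : L2 N) ω) (mu N) := hbm.integrable_mul hfm
  have hbπ : ∀ π : Equiv.Perm (Fin N), MemLp (fun ω : Om N => b (ω ∘ π)) 2 (mu N) := fun π =>
    hbm.comp_measurePreserving (mp_perm π)
  have hint : ∀ π : Equiv.Perm (Fin N), Integrable (fun ω : Om N => sgn π * (b (ω ∘ π) * (f : L2 N) ω)) (mu N) :=
    fun π => ((hbπ π).integrable_mul hfm).const_mul _
  have h1 : (fun ω => conj (asymM b ω) * (f : L2 N) ω)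
      = fun ω => ∑ π : Equiv.Perm (Fin N), sgn π * (b (ω ∘ π) * (f : L2 N) ω) := by
    funext ω
    unfold asymM
    rw [map_sum, Finset.sum_mul]
    refine Finset.sum_congr rfl fun π _ => ?_
    rw [map_mul, aux_MD_sgn_conj, hb, aux_MD_spn_conj, mul_assoc]
  rw [h1, integral_finsetSum _ fun π _ => hint π]
  have h2 : ∀ π : Equiv.Perm (Fin N), ∫ ω, sgn π * (b (ω ∘ π) * (f : L2 N) ω) ∂(mu N)
      = ∫ ω, b ω * (f : L2 N) ω ∂(mu N) := by
    intro π
    have h3 : (fun ω => sgn π * (b (ω ∘ π) * (f : L2 N) ω)) =ᵐ[mu N]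
        fun ω => b (ω ∘ π) * (f : L2 N) (ω ∘ π) := by
      filter_upwards [aux_MD_fer f π] with ω hω
      have hω' : (f : L2 N) ω = sgn π * (f : L2 N) (ω ∘ π) := hω
      rw [hω']
      calc sgn π * (b (ω ∘ π) * (sgn π * (f : L2 N) (ω ∘ π)))
          = (sgn π * sgn π) * (b (ω ∘ π) * (f : L2 N) (ω ∘ π)) := by ring
        _ = _ := by rw [aux_MD_sgn_sq, one_mul]
    rw [integral_congr_ae h3]
    have h4 := (mp_perm (N := N) π).map_eq
    have h5 : AEStronglyMeasurable (fun ω => b ω * (f : L2 N) ω) ((mu N).map fun ω : Om N => ω ∘ π) := by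
      rw [h4]
      exact hbf.aestronglyMeasurable
    have h6 := integral_map (mp_perm (N := N) π).measurable.aemeasurable h5
    rw [h4] at h6
    exact h6.symm
  rw [Finset.sum_congr rfl fun π _ => h2 π, Finset.sum_const, Finset.card_univ, Fintype.card_perm, Fintype.card_fin,
    nsmul_eq_mul]
  congr 1
  rw [integral_mu hbf, Finset.sum_eq_single σ₀]
  · refine integral_congr_ae (Eventually.of_forall fun X => ?_)
    show b (jn σ₀ X) * (f : L2 N) (jn σ₀ X) = _
    rw [hb, aux_MD_spn_jn, if_pos rfl]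
  · intro σ _ hσ
    rw [← integral_zero (Conf N) ℂ]
    refine integral_congr_ae (Eventually.of_forall fun X => ?_)
    show b (jn σ X) * (f : L2 N) (jn σ X) = 0
    rw [hb, aux_MD_spn_jn, if_neg hσ, zero_mul]
  · intro h
    exact absurd (Finset.mem_univ _) h

/-- the inner product of a class of an antisymmetrized function with an antisymmetric function -/
theorem aux_MD_inner (σ₀ : Spin N) {χ : Conf N → ℝ} (hχ : Continuous χ) (hχ' : HasCompactSupport χ) (f x : Fer N)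
    (hx : ((x : L2 N) : Om N → ℂ) =ᵐ[mu N] asymM (spn σ₀ χ)) :
    inner ℂ x f = (Nat.factorial N : ℂ) * ∫ X : Conf N, (χ X : ℂ) * (f : L2 N) (jn σ₀ X) := by
  rw [← pair_asym σ₀ hχ hχ' f, Submodule.coe_inner, L2.inner_def]
  refine integral_congr_ae ?_
  filter_upwards [hx] with ω hω
  rw [hω, RCLike.inner_apply]
  first
    | rfl
    | exact mul_comm _ _

theorem aux_MD_slice (f : Fer N) (σ : Spin N) : MemLp (fun X : Conf N => (f : L2 N) (jn σ X)) 2 volume :=
  memLp_mu.mp (Lp.memLp (f : L2 N)) σ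

theorem aux_MD_zero (f : Fer N) (h : ∀ σ : Spin N, ∀ᵐ X : Conf N, (f : L2 N) (jn σ X) = 0) : f = 0 := by
  apply Subtype.ext
  apply Lp.ext
  have h1 : ∀ᵐ ω ∂(mu N), (f : L2 N) ω = 0 := ae_mu.mpr h
  have h2 := Lp.coeFn_zero ℂ 2 (mu N)
  filter_upwards [h1, h2] with ω a1 a2
  rw [a1]
  exact a2.symm

theorem orth_zero (N : ℕ) {l : ℝ} (hl : 0 < l) (f : Fer N)
    (h : ∀ φ : CTest N, inner ℂ (clK N φ + (l : ℂ) • clM N φ) f = 0) : f = 0 := by
  apply aux_MD_zero
  intro σ₀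
  have hN : (Nat.factorial N : ℂ) ≠ 0 := by
    exact_mod_cast Nat.factorial_ne_zero N
  have key : ∀ χ : Conf N → ℝ, ContDiff ℝ (⊤ : ℕ∞) χ → HasCompactSupport χ →
      Integrable (fun X => ((- lapR χ X + l * χ X : ℝ) : ℂ) * (f : L2 N) (jn σ₀ X)) ∧
      ∫ X, ((- lapR χ X + l * χ X : ℝ) : ℂ) * (f : L2 N) (jn σ₀ X) = 0 := by
    intro χ hχ hχ'
    have hl1 : Continuous (fun X => - lapR χ X) := (lapR_smooth hχ).continuous.neg
    have hl2 : HasCompactSupport (fun X => - lapR χ X) :=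
      (lapR_supp hχ').comp_left (g := fun t : ℝ => -t) (by simp)
    have hm1 : MemLp (fun X : Conf N => ((- lapR χ X : ℝ) : ℂ)) 2 volume :=
      (Complex.continuous_ofReal.comp hl1).memLp_of_hasCompactSupport
        (hl2.comp_left (g := fun t : ℝ => (t : ℂ)) (by simp))
    have hm2 : MemLp (fun X : Conf N => ((χ X : ℝ) : ℂ)) 2 volume :=
      (Complex.continuous_ofReal.comp hχ.continuous).memLp_of_hasCompactSupport
        (hχ'.comp_left (g := fun t : ℝ => (t : ℂ)) (by simp))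
    have hi1 : Integrable (fun X : Conf N => ((- lapR χ X : ℝ) : ℂ) * (f : L2 N) (jn σ₀ X)) :=
      hm1.integrable_mul (aux_MD_slice f σ₀)
    have hi2 : Integrable (fun X : Conf N => ((χ X : ℝ) : ℂ) * (f : L2 N) (jn σ₀ X)) :=
      hm2.integrable_mul (aux_MD_slice f σ₀)
    have he : (fun X => ((- lapR χ X + l * χ X : ℝ) : ℂ) * (f : L2 N) (jn σ₀ X))
        = fun X => ((- lapR χ X : ℝ) : ℂ) * (f : L2 N) (jn σ₀ X) + (l : ℂ) * (((χ X : ℝ) : ℂ) * (f : L2 N) (jn σ₀ X)) := by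
      funext X
      push_cast
      ring
    refine ⟨by rw [he]; exact hi1.add (hi2.const_mul _), ?_⟩
    set φ : CTest N := ⟨asymM (spn σ₀ χ), asym_ct σ₀ hχ hχ'⟩ with hφ
    have h1 := h φ
    have h0 : inner ℂ ((l : ℂ) • clM N φ) f = (l : ℂ) * inner ℂ (clM N φ) f := by
      refine (inner_smul_left (clM N φ) f (l : ℂ)).trans ?_
      rw [Complex.conj_ofReal]
    rw [inner_add_left, h0] at h1
    have e1 : ((clK N φ : L2 N) : Om N → ℂ) =ᵐ[mu N] asymM (spn σ₀ (fun X => - lapR χ X)) := by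
      refine (clK_coe φ).trans (Eventually.of_forall fun ω => ?_)
      exact KF_asym σ₀ hχ ω
    have e2 : ((clM N φ : L2 N) : Om N → ℂ) =ᵐ[mu N] asymM (spn σ₀ χ) := cl_coe φ
    rw [aux_MD_inner σ₀ hl1 hl2 f _ e1, aux_MD_inner σ₀ hχ.continuous hχ' f _ e2] at h1
    rw [he, integral_add hi1 (hi2.const_mul _), integral_const_mul]
    have h2 : (Nat.factorial N : ℂ) * ((∫ X, ((- lapR χ X : ℝ) : ℂ) * (f : L2 N) (jn σ₀ X))
        + (l : ℂ) * ∫ X, ((χ X : ℝ) : ℂ) * (f : L2 N) (jn σ₀ X)) = 0 := by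
      rw [← h1]
      ring
    exact (mul_eq_zero.mp h2).resolve_left hN
  have hre : (fun X => ((f : L2 N) (jn σ₀ X)).re) =ᵐ[volume] 0 := by
    refine dense_scalar hl (aux_MD_slice f σ₀).re fun χ hχ hχ' => ?_
    obtain ⟨hi, h0⟩ := key χ hχ hχ'
    have h1 := integral_re (𝕜 := ℂ) hi
    rw [h0] at h1
    have h2 : (fun X => (- lapR χ X + l * χ X) * ((f : L2 N) (jn σ₀ X)).re)
        = fun X => RCLike.re (((- lapR χ X + l * χ X : ℝ) : ℂ) * (f : L2 N) (jn σ₀ X)) := by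
      funext X
      show _ = (((- lapR χ X + l * χ X : ℝ) : ℂ) * (f : L2 N) (jn σ₀ X)).re
      rw [Complex.re_ofReal_mul]
    rw [h2, h1]
    simp
  have him : (fun X => ((f : L2 N) (jn σ₀ X)).im) =ᵐ[volume] 0 := by
    refine dense_scalar hl (aux_MD_slice f σ₀).im fun χ hχ hχ' => ?_
    obtain ⟨hi, h0⟩ := key χ hχ hχ'
    have h1 := integral_im (𝕜 := ℂ) hi
    rw [h0] at h1
    have h2 : (fun X => (- lapR χ X + l * χ X) * ((f : L2 N) (jn σ₀ X)).im)
        = fun X => RCLike.im (((- lapR χ X + l * χ X : ℝ) : ℂ) * (f : L2 N) (jn σ₀ X)) := by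
      funext X
      show _ = (((- lapR χ X + l * χ X : ℝ) : ℂ) * (f : L2 N) (jn σ₀ X)).im
      rw [Complex.im_ofReal_mul]
    rw [h2, h1]
    simp
  filter_upwards [hre, him] with X a1 a2
  exact Complex.ext a1 a2

/-- the antisymmetric test functions are dense -/
theorem orth_zero' (N : ℕ) (f : Fer N) (h : ∀ φ : CTest N, inner ℂ (clM N φ) f = 0) : f = 0 := by
  apply aux_MD_zero
  intro σ₀
  have hN : (Nat.factorial N : ℂ) ≠ 0 := by
    exact_mod_cast Nat.factorial_ne_zero N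
  refine ae_eq_zero_of_integral_contDiff_smul_eq_zero
    ((aux_MD_slice f σ₀).locallyIntegrable (by norm_num)) fun χ hχ hχ' => ?_
  set φ : CTest N := ⟨asymM (spn σ₀ χ), asym_ct σ₀ hχ hχ'⟩ with hφ
  have h1 := h φ
  have e2 : ((clM N φ : L2 N) : Om N → ℂ) =ᵐ[mu N] asymM (spn σ₀ χ) := cl_coe φ
  rw [aux_MD_inner σ₀ hχ.continuous hχ' f _ e2] at h1
  have h2 := (mul_eq_zero.mp h1).resolve_left hN
  rw [← h2]
  refine integral_congr_ae (Eventually.of_forall fun X => ?_)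
  show χ X • (f : L2 N) (jn σ₀ X) = _
  rw [Complex.real_smul]

end Ion
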