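import Pool.Agent.Lib.MP_69e010_mp.QDefs

/-!
# MP_69e010_mp: the fermionic Hilbert space, the atomic Hamiltonian, bound systems

The Hilbert space is the space of antisymmetric functions in `L²((ℝ³ × {1,2})^N)`; the atomic Hamiltonian is the self-adjoint
operator in this space which acts on the antisymmetric functions in `C_c^∞` as the differential expression
`∑ (-Δ_j - z/|x_j|) + ∑_{i<j} 1/|x_i - x_j|` (it exists and is unique, this is proved).
-/

open MeasureTheory Filter Topology
open scoped ENNReal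

noncomputable section

namespace Ion

/-- one electron has a position in `ℝ³` and a spin; configurations of `N` electrons with spin -/
abbrev Om (N : ℕ) := Fin N → E3 × Fin 2

/-- Lebesgue measure in the positions, counting measure in the spins -/
def mu (N : ℕ) : Measure (Om N) :=
  Measure.pi fun _ => (volume : Measure E3).prod (Measure.count : Measure (Fin 2))

/-- `L²((ℝ³ × {1,2})^N)` -/
abbrev L2 (N : ℕ) := Lp ℂ 2 (mu N)

/-- the configuration with spins `σ` and positions `X` -/
def jn {N : ℕ} (σ : Spin N) (X : Conf N) : Om N := fun i => (X i, σ i)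

/-- exchange of electrons preserves the measure -/
theorem mp_perm {N : ℕ} (π : Equiv.Perm (Fin N)) :
    MeasurePreserving (fun ω : Om N => ω ∘ π) (mu N) (mu N) := by
  have h := measurePreserving_piCongrLeft
    (fun _ : Fin N => (volume : Measure E3).prod (Measure.count : Measure (Fin 2))) (π.symm : Fin N ≃ Fin N)
  have h1 : ⇑(MeasurableEquiv.piCongrLeft (fun _ : Fin N => E3 × Fin 2) (π.symm : Fin N ≃ Fin N))
      = fun ω : Om N => ω ∘ π := by
    funext ω i
    have h2 := MeasurableEquiv.piCongrLeft_apply_apply (π.symm : Fin N ≃ Fin N) (β := fun _ : Fin N => E3 × Fin 2)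
      ω (π i)
    rw [Equiv.symm_apply_apply] at h2
    exact h2
  rw [h1] at h
  exact h

/-- the sign of a permutation as a complex number -/
def sgn {N : ℕ} (π : Equiv.Perm (Fin N)) : ℂ := ((Equiv.Perm.sign π : ℤ) : ℂ)

/-- the fermionic space: the functions in `L²((ℝ³ × {1,2})^N)` that are antisymmetric under exchange of the pairs (position, spin) -/
def Fer (N : ℕ) : Submodule ℂ (L2 N) where
  carrier := {f | ∀ π : Equiv.Perm (Fin N), (fun ω : Om N => f (ω ∘ π)) =ᵐ[mu N] fun ω => sgn π * f ω}
  add_mem' := by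
    intro f g hf hg π
    have h1 := (mp_perm π).quasiMeasurePreserving.ae_eq_comp (Lp.coeFn_add f g)
    have h2 := Lp.coeFn_add f g
    filter_upwards [hf π, hg π, h1, h2] with ω a1 a2 a3 a4
    have a3' : (f + g) (ω ∘ π) = f (ω ∘ π) + g (ω ∘ π) := a3
    show (f + g) (ω ∘ π) = sgn π * (f + g) ω
    rw [a3', a4, Pi.add_apply, mul_add]
    exact congrArg₂ (· + ·) a1 a2
  zero_mem' := by
    intro π
    have h2 := Lp.coeFn_zero ℂ 2 (mu N)
    have h1 := (mp_perm π).quasiMeasurePreserving.ae_eq_comp h2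
    filter_upwards [h1, h2] with ω a1 a2
    have a1' : (0 : L2 N) (ω ∘ π) = 0 := a1
    show (0 : L2 N) (ω ∘ π) = sgn π * (0 : L2 N) ω
    rw [a1', a2]
    simp
  smul_mem' := by
    intro c f hf π
    have h2 := Lp.coeFn_smul c f
    have h1 := (mp_perm π).quasiMeasurePreserving.ae_eq_comp h2
    filter_upwards [hf π, h1, h2] with ω a1 a2 a3
    have a2' : (c • f) (ω ∘ π) = c * f (ω ∘ π) := a2
    have a1' : f (ω ∘ π) = sgn π * f ω := a1
    show (c • f) (ω ∘ π) = sgn π * (c • f) ω
    rw [a2', a1', a3]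
    simp only [Pi.smul_apply, smul_eq_mul]
    ring

theorem isClosed_Fer (N : ℕ) : IsClosed (Fer N : Set (L2 N)) := by
  have h : (Fer N : Set (L2 N)) = ⋂ π : Equiv.Perm (Fin N),
      {f : L2 N | Lp.compMeasurePreserving (fun ω : Om N => ω ∘ π) (mp_perm π) f = sgn π • f} := by
    ext f
    simp only [Set.mem_iInter, Set.mem_setOf_eq, SetLike.mem_coe]
    constructor
    · intro hf π
      apply Lp.ext
      have h1 := Lp.coeFn_compMeasurePreserving f (mp_perm π)
      have h2 := Lp.coeFn_smul (sgn π) f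
      have h3 := hf π
      filter_upwards [h1, h2, h3] with ω a1 a2 a3
      rw [a1, a2]
      exact a3
    · intro hf π
      have h1 := Lp.coeFn_compMeasurePreserving f (mp_perm π)
      have h2 := Lp.coeFn_smul (sgn π) f
      rw [hf π] at h1
      filter_upwards [h1, h2] with ω a1 a2
      exact a1.symm.trans a2
  rw [h]
  refine isClosed_iInter fun π => ?_
  refine isClosed_eq ?_ (continuous_const_smul _)
  exact (Lp.isometry_compMeasurePreserving (mp_perm π)).continuous

instance (N : ℕ) : CompleteSpace (Fer N) := (isClosed_Fer N).completeSpace_coe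

/-- complex test functions: antisymmetric under exchange of the pairs (position, spin); for every spin configuration smooth with
compact support in the positions -/
def CTest (N : ℕ) : Submodule ℂ (Om N → ℂ) where
  carrier := {φ | (∀ σ : Spin N, ContDiff ℝ (⊤ : ℕ∞) fun X : Conf N => φ (jn σ X)) ∧
    (∀ σ : Spin N, HasCompactSupport fun X : Conf N => φ (jn σ X)) ∧
    ∀ (π : Equiv.Perm (Fin N)) (ω : Om N), φ (ω ∘ π) = sgn π * φ ω}
  add_mem' := by
    rintro f g ⟨h1, h2, h3⟩ ⟨g1, g2, g3⟩
    refine ⟨fun σ => (h1 σ).add (g1 σ), fun σ => (h2 σ).add (g2 σ), fun π ω => ?_⟩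
    rw [Pi.add_apply, Pi.add_apply, h3, g3, mul_add]
  zero_mem' := ⟨fun σ => contDiff_const, fun σ => HasCompactSupport.zero, fun π ω => by simp⟩
  smul_mem' := by
    rintro c f ⟨h1, h2, h3⟩
    refine ⟨fun σ => contDiff_const.mul (h1 σ), fun σ => (h2 σ).mul_left (f := fun _ => c), fun π ω => ?_⟩
    simp only [Pi.smul_apply, smul_eq_mul, h3]
    ring

/-- the unit vector in the direction of the coordinate `c` of electron `k` -/
def ev {N : ℕ} (k : Fin N) (c : Fin 3) : Conf N := Pi.single k (EuclideanSpace.single c (1 : ℝ))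

/-- the Laplacian in all coordinates of all electrons -/
def lapC {N : ℕ} (F : Conf N → ℂ) (X : Conf N) : ℂ :=
  ∑ k : Fin N, ∑ c : Fin 3, fderiv ℝ (fun Y => fderiv ℝ F Y (ev k c)) X (ev k c)

/-- the Hamiltonian as a differential expression:
`H φ = ∑_j (-Δ_j φ - z/|x_j| φ) + ∑_{i<j} 1/|x_i - x_j| φ` -/
def HF (z : ℝ) {N : ℕ} (φ : Om N → ℂ) (ω : Om N) : ℂ :=
  - lapC (fun X : Conf N => φ (jn (fun i => (ω i).2) X)) (fun i => (ω i).1) + (V z (fun i => (ω i).1) : ℂ) * φ ω

/-- `A` is the atomic Hamiltonian of `N` electrons and a nucleus of charge `z`: a self-adjoint operator in the fermionic space which is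
given on the antisymmetric functions in `C_c^∞` by the differential expression -/
structure IsHam (z : ℝ) (N : ℕ) (A : Fer N →ₗ.[ℂ] Fer N) : Prop where
  sa : IsSelfAdjoint A
  ext : ∀ φ ∈ CTest N, ∃ x : A.domain, (((x : Fer N) : L2 N) : Om N → ℂ) =ᵐ[mu N] φ ∧
    ((A x : L2 N) : Om N → ℂ) =ᵐ[mu N] HF z φ

section spectrum
variable {E : Type*} [NormedAddCommGroup E] [InnerProductSpace ℂ E]

/-- `l` is in the resolvent set of `A`: `A - l` has a bounded inverse which is defined everywhere -/
def IsRes (A : E →ₗ.[ℂ] E) (l : ℂ) : Prop :=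
  ∃ B : E →L[ℂ] E, (∀ y : E, ∃ x : A.domain, (x : E) = B y ∧ A x - l • (x : E) = y) ∧
    ∀ x : A.domain, B (A x - l • (x : E)) = x

/-- the real part of the spectrum of `A` (the spectrum, if `A` is self-adjoint) -/
def specR (A : E →ₗ.[ℂ] E) : Set ℝ := {t : ℝ | ¬ IsRes A (t : ℂ)}

/-- `l` is an eigenvalue of `A` -/
def IsEig (A : E →ₗ.[ℂ] E) (l : ℂ) : Prop := ∃ x : A.domain, (x : E) ≠ 0 ∧ A x = l • (x : E)

end spectrum

/-- the system with `N` electrons is bound: the bottom of the spectrum of the Hamiltonian is an eigenvalue -/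
def Bound (z : ℝ) (N : ℕ) : Prop :=
  ∃ A : Fer N →ₗ.[ℂ] Fer N, IsHam z N A ∧ IsEig A ((sInf (specR A) : ℝ) : ℂ)

/-- the maximal number of electrons of a bound system -/
def Nc (z : ℝ) : ℕ := sSup {N : ℕ | Bound z N}

end Ion
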