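import Pool.Agent.Lib.MP_69e010_mp.M.MG1

/-!
# JOB MF1 (stream M of MP_69e010_mp): a square integrable solution of `-Δ u + l u = 0` vanishes

Cutoff functions, Caccioppoli inequality, Liouville theorem.
-/

open MeasureTheory Filter Topology
open scoped ENNReal

noncomputable section

namespace Ion

variable {N : ℕ}

/-- cutoff functions -/
theorem exists_cut (N : ℕ) : ∃ M : ℝ, 0 ≤ M ∧ ∀ R : ℝ, 1 ≤ R → ∃ χ : Conf N → ℝ, ContDiff ℝ (⊤ : ℕ∞) χ ∧
    HasCompactSupport χ ∧ (∀ X, 0 ≤ χ X ∧ χ X ≤ 1) ∧ (∀ X, ‖X‖ ≤ R → χ X = 1) ∧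
    ∀ (k : Fin N) (c : Fin 3) (X : Conf N), |pd k c χ X| ≤ M / R := by
  let η : ContDiffBump (0 : Conf N) := ⟨1, 2, by norm_num, by norm_num⟩
  have hsm : ContDiff ℝ (⊤ : ℕ∞) (η : Conf N → ℝ) := η.contDiff
  have hcs : HasCompactSupport (η : Conf N → ℝ) := η.hasCompactSupport
  obtain ⟨C, hC⟩ : ∃ C, ∀ X : Conf N, ‖fderiv ℝ (η : Conf N → ℝ) X‖ ≤ C :=
    (hcs.fderiv ℝ).exists_bound_of_continuous (hsm.continuous_fderiv (by simp))
  have hC0 : 0 ≤ C := (norm_nonneg _).trans (hC 0)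
  refine ⟨C, hC0, fun R hR => ?_⟩
  have hR0 : 0 < R := by linarith
  refine ⟨fun X => η (R⁻¹ • X), ?_, ?_, fun X => ⟨η.nonneg, η.le_one⟩, fun X hX => ?_, fun k c X => ?_⟩
  · exact hsm.comp (contDiff_const_smul _)
  · exact hcs.comp_smul (inv_ne_zero hR0.ne')
  · apply η.one_of_mem_closedBall
    rw [mem_closedBall_zero_iff, norm_smul, norm_inv, Real.norm_of_nonneg hR0.le]
    show R⁻¹ * ‖X‖ ≤ 1
    rw [inv_mul_le_iff₀ hR0]
    linarith
  · have h1 : pd k c (fun X : Conf N => η (R⁻¹ • X)) X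
        = R⁻¹ * fderiv ℝ (η : Conf N → ℝ) (R⁻¹ • X) (Pi.single k (EuclideanSpace.single c (1 : ℝ))) := by
      unfold pd
      have := fderiv_comp_smul (𝕜 := ℝ) (f := (η : Conf N → ℝ)) (x := X) R⁻¹
      rw [this]
      rfl
    rw [h1, abs_mul, abs_inv, abs_of_pos hR0, div_eq_inv_mul]
    have h2 : ‖(Pi.single k (EuclideanSpace.single c (1 : ℝ)) : Conf N)‖ ≤ 1 := by
      rw [Pi.norm_single]
      simp
    have h3 : |fderiv ℝ (η : Conf N → ℝ) (R⁻¹ • X) (Pi.single k (EuclideanSpace.single c (1 : ℝ)))| ≤ C := by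
      calc |fderiv ℝ (η : Conf N → ℝ) (R⁻¹ • X) (Pi.single k (EuclideanSpace.single c (1 : ℝ)))|
          ≤ ‖fderiv ℝ (η : Conf N → ℝ) (R⁻¹ • X)‖ * ‖(Pi.single k (EuclideanSpace.single c (1 : ℝ)) : Conf N)‖ :=
            (fderiv ℝ (η : Conf N → ℝ) (R⁻¹ • X)).le_opNorm _
        _ ≤ C * 1 := mul_le_mul (hC _) h2 (norm_nonneg _) hC0
        _ = C := mul_one _
    exact mul_le_mul_of_nonneg_left h3 (inv_nonneg.mpr hR0.le)

theorem caccioppoli {u χ : Conf N → ℝ} (hu : ContDiff ℝ (⊤ : ℕ∞) u) {l : ℝ} (hl : 0 < l)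
    (hu0 : ∀ X, - lapR u X + l * u X = 0) (hχ : ContDiff ℝ (⊤ : ℕ∞) χ) (hχ' : HasCompactSupport χ) :
    l * ∫ X, (χ X) ^ 2 * (u X) ^ 2 ≤ ∫ X, (u X) ^ 2 * ∑ k : Fin N, ∑ c : Fin 3, (pd k c χ X) ^ 2 := by
  set F : Conf N → ℝ := fun X => χ X * (χ X * u X) with hF
  have hFs : ContDiff ℝ (⊤ : ℕ∞) F := hχ.mul (hχ.mul hu)
  have hFc : HasCompactSupport F := hχ'.mul_right
  have hg := greenR hFs hFc hu
  have hdχ : ∀ X, DifferentiableAt ℝ χ X := fun X => (hχ.differentiable (by simp)) X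
  have hdu : ∀ X, DifferentiableAt ℝ u X := fun X => (hu.differentiable (by simp)) X
  have h1 : ∫ X, F X * (- lapR u X) = - (l * ∫ X, (χ X) ^ 2 * (u X) ^ 2) := by
    rw [← integral_const_mul, ← integral_neg]
    refine integral_congr_ae (Eventually.of_forall fun X => ?_)
    have := hu0 X
    have h2 : - lapR u X = - (l * u X) := by linarith
    show F X * (- lapR u X) = - (l * ((χ X) ^ 2 * (u X) ^ 2))
    rw [h2, hF]
    ring
  have hpdχ : ∀ k c, Continuous (pd k c χ) := fun k c => (pd_smooth hχ k c).continuous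
  have hpdF : ∀ k c, Continuous (pd k c F) := fun k c => (pd_smooth hFs k c).continuous
  have hpdu : ∀ k c, Continuous (pd k c u) := fun k c => (pd_smooth hu k c).continuous
  have hi1 : ∀ (k : Fin N) (c : Fin 3), Integrable (fun X => pd k c F X * pd k c u X) := by
    intro k c
    exact ((hpdF k c).mul (hpdu k c)).integrable_of_hasCompactSupport ((pd_supp hFc k c).mul_right)
  have hi2 : ∀ (k : Fin N) (c : Fin 3), Integrable (fun X => (u X) ^ 2 * (pd k c χ X) ^ 2) := by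
    intro k c
    have hc : HasCompactSupport (fun X => (u X) ^ 2 * (pd k c χ X) ^ 2) := by
      have : (fun X => (u X) ^ 2 * (pd k c χ X) ^ 2) = fun X => ((u X) ^ 2 * (pd k c χ X)) * (pd k c χ X) := by
        funext X; ring
      rw [this]
      exact (pd_supp hχ' k c).mul_left
    exact ((hu.continuous.pow 2).mul ((hpdχ k c).pow 2)).integrable_of_hasCompactSupport hc
  have h3 : ∑ k : Fin N, ∑ c : Fin 3, - ∫ X, (u X) ^ 2 * (pd k c χ X) ^ 2 ≤
      ∑ k : Fin N, ∑ c : Fin 3, ∫ X, pd k c F X * pd k c u X := by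
    refine Finset.sum_le_sum fun k _ => Finset.sum_le_sum fun c _ => ?_
    rw [← integral_neg]
    refine integral_mono (hi2 k c).neg (hi1 k c) fun X => ?_
    have e1 : pd k c F X = χ X * (χ X * pd k c u X + pd k c χ X * u X) + pd k c χ X * (χ X * u X) := by
      have hd : DifferentiableAt ℝ (fun X => χ X * u X) X := (hdχ X).mul (hdu X)
      rw [hF, pd_mul (hdχ X) hd, pd_mul (hdχ X) (hdu X)]
    show - ((u X) ^ 2 * (pd k c χ X) ^ 2) ≤ pd k c F X * pd k c u X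
    rw [e1]
    nlinarith [sq_nonneg (χ X * pd k c u X + u X * pd k c χ X)]
  have h4 : ∫ X, (u X) ^ 2 * ∑ k : Fin N, ∑ c : Fin 3, (pd k c χ X) ^ 2
      = ∑ k : Fin N, ∑ c : Fin 3, ∫ X, (u X) ^ 2 * (pd k c χ X) ^ 2 := by
    have : (fun X => (u X) ^ 2 * ∑ k : Fin N, ∑ c : Fin 3, (pd k c χ X) ^ 2)
        = fun X => ∑ k : Fin N, ∑ c : Fin 3, (u X) ^ 2 * (pd k c χ X) ^ 2 := by
      funext X
      rw [Finset.mul_sum]
      exact Finset.sum_congr rfl fun k _ => by rw [Finset.mul_sum]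
    rw [this, integral_finsetSum _ fun k _ => integrable_finsetSum _ fun c _ => hi2 k c]
    exact Finset.sum_congr rfl fun k _ => integral_finsetSum _ fun c _ => hi2 k c
  rw [h4]
  rw [← hg, h1] at h3
  simp only [Finset.sum_neg_distrib] at h3
  linarith

theorem sol_zero {u : Conf N → ℝ} (hu : ContDiff ℝ (⊤ : ℕ∞) u) (hi : Integrable fun X => (u X) ^ 2) {l : ℝ} (hl : 0 < l)
    (hu0 : ∀ X, - lapR u X + l * u X = 0) (X : Conf N) : u X = 0 := by
  obtain ⟨M, hM, hcut⟩ := exists_cut N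
  choose χ hχs hχc hχ01 hχ1 hχd using fun n : ℕ => hcut ((n : ℝ) + 1) (by
    have : (0 : ℝ) ≤ n := Nat.cast_nonneg n
    linarith)
  -- bound
  have hb : ∀ n : ℕ, l * ∫ X, (χ n X) ^ 2 * (u X) ^ 2 ≤ (3 * N * M ^ 2 * ∫ X, (u X) ^ 2) * (1 / ((n : ℝ) + 1)) := by
    intro n
    have hn0 : (0 : ℝ) ≤ n := Nat.cast_nonneg n
    have hn1 : (0 : ℝ) < (n : ℝ) + 1 := by linarith
    refine (caccioppoli hu hl hu0 (hχs n) (hχc n)).trans ?_
    have hs : ∀ X, ∑ k : Fin N, ∑ c : Fin 3, (pd k c (χ n) X) ^ 2 ≤ 3 * N * (M / ((n : ℝ) + 1)) ^ 2 := by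
      intro X
      calc ∑ k : Fin N, ∑ c : Fin 3, (pd k c (χ n) X) ^ 2
          ≤ ∑ k : Fin N, ∑ c : Fin 3, (M / ((n : ℝ) + 1)) ^ 2 :=
            Finset.sum_le_sum fun k _ => Finset.sum_le_sum fun c _ =>
              sq_le_sq' (by linarith [neg_abs_le (pd k c (χ n) X), hχd n k c X]) ((le_abs_self _).trans (hχd n k c X))
        _ = 3 * N * (M / ((n : ℝ) + 1)) ^ 2 := by
            simp
            ring
    have h5 : ∫ X, (u X) ^ 2 * ∑ k : Fin N, ∑ c : Fin 3, (pd k c (χ n) X) ^ 2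
        ≤ ∫ X, (u X) ^ 2 * (3 * N * (M / ((n : ℝ) + 1)) ^ 2) := by
      refine integral_mono_of_nonneg (Eventually.of_forall fun X => ?_) (hi.mul_const _)
        (Eventually.of_forall fun X => ?_)
      · exact mul_nonneg (sq_nonneg _) (Finset.sum_nonneg fun k _ => Finset.sum_nonneg fun c _ => sq_nonneg _)
      · exact mul_le_mul_of_nonneg_left (hs X) (sq_nonneg _)
    refine h5.trans ?_
    rw [integral_mul_const]
    have h6 : (1 / ((n : ℝ) + 1)) ^ 2 ≤ 1 / ((n : ℝ) + 1) := by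
      have h7 : 1 / ((n : ℝ) + 1) ≤ 1 := by
        rw [div_le_one hn1]
        linarith
      have h8 : 0 ≤ 1 / ((n : ℝ) + 1) := by positivity
      nlinarith
    have h9 : 0 ≤ ∫ X, (u X) ^ 2 := integral_nonneg fun X => sq_nonneg _
    have h10 : (∫ X, (u X) ^ 2) * (3 * N * (M / ((n : ℝ) + 1)) ^ 2)
        = (3 * N * M ^ 2 * ∫ X, (u X) ^ 2) * (1 / ((n : ℝ) + 1)) ^ 2 := by
      field_simp
    rw [h10]
    exact mul_le_mul_of_nonneg_left h6 (by positivity)
  -- limit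
  have hlim : Tendsto (fun n : ℕ => l * ∫ X, (χ n X) ^ 2 * (u X) ^ 2) atTop (𝓝 (l * ∫ X, (u X) ^ 2)) := by
    refine Tendsto.const_mul l ?_
    refine tendsto_integral_of_dominated_convergence (fun X => (u X) ^ 2) (fun n => ?_) hi (fun n => ?_) ?_
    · exact (((hχs n).continuous.pow 2).mul (hu.continuous.pow 2)).aestronglyMeasurable
    · refine Eventually.of_forall fun X => ?_
      rw [Real.norm_of_nonneg (mul_nonneg (sq_nonneg _) (sq_nonneg _))]
      have h1 := hχ01 n X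
      have h2 : (χ n X) ^ 2 ≤ 1 := by nlinarith [h1.1, h1.2]
      have h3 := sq_nonneg (u X)
      nlinarith
    · refine Eventually.of_forall fun X => ?_
      refine tendsto_const_nhds.congr' ?_
      filter_upwards [eventually_ge_atTop (Nat.ceil ‖X‖)] with n hn
      have h1 : ‖X‖ ≤ (n : ℝ) + 1 := by
        have := Nat.le_ceil ‖X‖
        have h2 : ((Nat.ceil ‖X‖ : ℕ) : ℝ) ≤ n := by exact_mod_cast hn
        linarith
      rw [hχ1 n X h1]
      ring
  have hlim2 : Tendsto (fun n : ℕ => (3 * N * M ^ 2 * ∫ X, (u X) ^ 2) * (1 / ((n : ℝ) + 1))) atTop (𝓝 0) := by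
    have := (tendsto_one_div_add_atTop_nhds_zero_nat (𝕜 := ℝ)).const_mul (3 * N * M ^ 2 * ∫ X, (u X) ^ 2)
    simpa using this
  have hle : l * ∫ X, (u X) ^ 2 ≤ 0 := le_of_tendsto_of_tendsto' hlim hlim2 hb
  have h0 : 0 ≤ ∫ X, (u X) ^ 2 := integral_nonneg fun X => sq_nonneg _
  have hz : ∫ X, (u X) ^ 2 = 0 := by
    by_contra hne
    have : 0 < ∫ X, (u X) ^ 2 := lt_of_le_of_ne h0 (Ne.symm hne)
    have := mul_pos hl this
    linarith
  have hae : (fun X => (u X) ^ 2) =ᵐ[volume] 0 :=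
    (integral_eq_zero_iff_of_nonneg (fun X => sq_nonneg _) hi).mp hz
  have hall : (fun X => (u X) ^ 2) = 0 :=
    (Continuous.ae_eq_iff_eq volume (hu.continuous.pow 2) continuous_const).mp hae
  have := congrFun hall X
  simpa using this

end Ion
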