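import Pool.Agent.Lib.MP_69e010_mp.M.MR

/-!
# JOB MG1 (stream M of MP_69e010_mp): Green's identity

* `green`: for every `k, c` integrate by parts once: `integral_mul_fderiv_eq_neg_fderiv_mul_of_integrable` or
  `integral_bilinear_fderiv_right_eq_neg_left_of_integrable` (Mathlib/Analysis/Calculus/LineDeriv/IntegrationByParts.lean) with
  `f X := conj (F X)` and `g := fderiv ℝ G · (ev k c)`; everything is continuous with compact support, hence integrable
  (`Continuous.integrable_of_hasCompactSupport`); `fderiv (conj ∘ F) X v = conj (fderiv F X v)` (`Complex.conjCLE`).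
* `green_re`: the real part of `conj (∂F) * ∂F` is `(∂ Re F)² + (∂ Im F)²` (`fderiv_re`, `fderiv_im` of MR.lean).
* `green_sym`: apply `green` to `(F, G)` and to `(G, F)` and conjugate.
* `greenR`: real version.
-/

open MeasureTheory Filter Topology
open scoped ENNReal ComplexConjugate

noncomputable section

namespace Ion

variable {N : ℕ}

theorem aux_MG1_smooth {E : Type*} [NormedAddCommGroup E] [NormedSpace ℝ E] {F : Conf N → E}
    (hF : ContDiff ℝ (⊤ : ℕ∞) F) (v : Conf N) : ContDiff ℝ (⊤ : ℕ∞) (fun Y => fderiv ℝ F Y v) :=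
  (hF.fderiv_right (m := (⊤ : ℕ∞)) (by simp)).clm_apply contDiff_const

theorem aux_MG1_diff {E : Type*} [NormedAddCommGroup E] [NormedSpace ℝ E] {F : Conf N → E}
    (hF : ContDiff ℝ (⊤ : ℕ∞) F) (X : Conf N) : DifferentiableAt ℝ F X :=
  (hF.differentiable (by simp)) X

theorem aux_MG1_int {𝕜 : Type*} [RCLike 𝕜] {f g : Conf N → 𝕜} (hf : Continuous f)
    (hf' : HasCompactSupport f) (hg : Continuous g) : Integrable (fun X => f X * g X) :=
  (hf.mul hg).integrable_of_hasCompactSupport (hf'.mul_right)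

theorem aux_MG1_ibp {𝕜 : Type*} [RCLike 𝕜] {f g : Conf N → 𝕜} (hf : ContDiff ℝ (⊤ : ℕ∞) f)
    (hf' : HasCompactSupport f) (hg : ContDiff ℝ (⊤ : ℕ∞) g) (v : Conf N) :
    ∫ X, f X * fderiv ℝ g X v = - ∫ X, fderiv ℝ f X v * g X := by
  refine integral_mul_fderiv_eq_neg_fderiv_mul_of_integrable ?_ ?_ ?_
    (fun X _ => aux_MG1_diff hf X) (fun X _ => aux_MG1_diff hg X)
  · exact aux_MG1_int (aux_MG1_smooth hf v).continuous (hf'.fderiv_apply ℝ v) hg.continuous
  · exact aux_MG1_int hf.continuous hf' (aux_MG1_smooth hg v).continuous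
  · exact aux_MG1_int hf.continuous hf' hg.continuous

theorem aux_MG1_conj {F : Conf N → ℂ} (hF : ContDiff ℝ (⊤ : ℕ∞) F) (X v : Conf N) :
    fderiv ℝ (fun Y => conj (F Y)) X v = conj (fderiv ℝ F X v) := by
  have h : HasFDerivAt (fun Y => conj (F Y))
      ((Complex.conjCLE : ℂ →L[ℝ] ℂ).comp (fderiv ℝ F X)) X :=
    (Complex.conjCLE : ℂ →L[ℝ] ℂ).hasFDerivAt.comp X (aux_MG1_diff hF X).hasFDerivAt
  rw [h.fderiv]
  rfl

theorem aux_MG1_conj_smooth {F : Conf N → ℂ} (hF : ContDiff ℝ (⊤ : ℕ∞) F) :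
    ContDiff ℝ (⊤ : ℕ∞) (fun Y => conj (F Y)) :=
  (Complex.conjCLE : ℂ →L[ℝ] ℂ).contDiff.comp hF

theorem aux_MG1_conj_supp {F : Conf N → ℂ} (hF : HasCompactSupport F) :
    HasCompactSupport (fun Y => conj (F Y)) :=
  hF.comp_left (map_zero _)

theorem green {F G : Conf N → ℂ} (hF : ContDiff ℝ (⊤ : ℕ∞) F) (hF' : HasCompactSupport F)
    (hG : ContDiff ℝ (⊤ : ℕ∞) G) (hG' : HasCompactSupport G) :
    ∫ X, conj (F X) * (- lapC G X) = ∑ k : Fin N, ∑ c : Fin 3, ∫ X, conj (fderiv ℝ F X (ev k c)) * fderiv ℝ G X (ev k c) := by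
  have hFc := aux_MG1_conj_smooth hF
  have hFs := aux_MG1_conj_supp hF'
  have h1 : ∀ X, conj (F X) * (- lapC G X) = ∑ k : Fin N, ∑ c : Fin 3,
      - (conj (F X) * fderiv ℝ (fun Y => fderiv ℝ G Y (ev k c)) X (ev k c)) := by
    intro X
    unfold lapC
    simp only [Finset.sum_neg_distrib, Finset.mul_sum, mul_neg]
  have hi : ∀ (k : Fin N) (c : Fin 3), Integrable
      (fun X => - (conj (F X) * fderiv ℝ (fun Y => fderiv ℝ G Y (ev k c)) X (ev k c))) := fun k c =>
    (aux_MG1_int hFc.continuous hFs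
      (aux_MG1_smooth (aux_MG1_smooth hG _) _).continuous).neg
  simp only [h1]
  rw [integral_finsetSum _ (fun k _ => integrable_finsetSum _ fun c _ => hi k c)]
  refine Finset.sum_congr rfl fun k _ => ?_
  rw [integral_finsetSum _ (fun c _ => hi k c)]
  refine Finset.sum_congr rfl fun c _ => ?_
  rw [integral_neg, aux_MG1_ibp hFc hFs (aux_MG1_smooth hG _) (ev k c), neg_neg]
  simp only [aux_MG1_conj hF]

theorem green_sym {F G : Conf N → ℂ} (hF : ContDiff ℝ (⊤ : ℕ∞) F) (hF' : HasCompactSupport F)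
    (hG : ContDiff ℝ (⊤ : ℕ∞) G) (hG' : HasCompactSupport G) :
    ∫ X, conj (- lapC F X) * G X = ∫ X, conj (F X) * (- lapC G X) := by
  have h1 := green hG hG' hF hF'
  have h2 : ∫ X, conj (- lapC F X) * G X = conj (∫ X, conj (G X) * (- lapC F X)) := by
    rw [← integral_conj]
    refine integral_congr_ae (Eventually.of_forall fun X => ?_)
    simp only [map_mul, Complex.conj_conj]
    ring
  rw [h2, h1, green hF hF' hG hG', map_sum]
  refine Finset.sum_congr rfl fun k _ => ?_
  rw [map_sum]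
  refine Finset.sum_congr rfl fun c _ => ?_
  rw [← integral_conj]
  refine integral_congr_ae (Eventually.of_forall fun X => ?_)
  simp only [map_mul, Complex.conj_conj]
  ring

theorem green_re {F : Conf N → ℂ} (hF : ContDiff ℝ (⊤ : ℕ∞) F) (hF' : HasCompactSupport F) :
    ∫ X, conj (F X) * (- lapC F X) =
      ((∫ X, ∑ k, gsq k (fun Y => (F Y).re) X) + (∫ X, ∑ k, gsq k (fun Y => (F Y).im) X) : ℝ) := by
  have hre : ContDiff ℝ (⊤ : ℕ∞) (fun Y => (F Y).re) := Complex.reCLM.contDiff.comp hF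
  have him : ContDiff ℝ (⊤ : ℕ∞) (fun Y => (F Y).im) := Complex.imCLM.contDiff.comp hF
  have hres : HasCompactSupport (fun Y => (F Y).re) := hF'.comp_left (g := Complex.re) (by simp)
  have hims : HasCompactSupport (fun Y => (F Y).im) := hF'.comp_left (g := Complex.im) (by simp)
  have hi : ∀ {f : Conf N → ℝ}, ContDiff ℝ (⊤ : ℕ∞) f → HasCompactSupport f →
      ∀ (k : Fin N) (c : Fin 3), Integrable (fun X => (pd k c f X) ^ 2) := by
    intro f hf hf' k c
    have h := aux_MG1_int (aux_MG1_smooth hf (ev k c)).continuous (hf'.fderiv_apply ℝ (ev k c))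
      (aux_MG1_smooth hf (ev k c)).continuous
    simp only [sq]
    exact h
  rw [green hF hF' hF hF']
  have h1 : ∀ {f : Conf N → ℝ}, ContDiff ℝ (⊤ : ℕ∞) f → HasCompactSupport f →
      ∫ X, ∑ k, gsq k f X = ∑ k : Fin N, ∑ c : Fin 3, ∫ X, (pd k c f X) ^ 2 := by
    intro f hf hf'
    unfold gsq
    rw [integral_finsetSum _ (fun k _ => integrable_finsetSum _ fun c _ => hi hf hf' k c)]
    refine Finset.sum_congr rfl fun k _ => ?_
    rw [integral_finsetSum _ (fun c _ => hi hf hf' k c)]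
  rw [h1 hre hres, h1 him hims, ← Finset.sum_add_distrib, Complex.ofReal_sum]
  refine Finset.sum_congr rfl fun k _ => ?_
  rw [← Finset.sum_add_distrib, Complex.ofReal_sum]
  refine Finset.sum_congr rfl fun c _ => ?_
  rw [← integral_add (hi hre hres k c) (hi him hims k c), ← integral_complex_ofReal]
  refine integral_congr_ae (Eventually.of_forall fun X => ?_)
  have e1 : pd k c (fun Y => (F Y).re) X = (fderiv ℝ F X (ev k c)).re := fderiv_re hF X _
  have e2 : pd k c (fun Y => (F Y).im) X = (fderiv ℝ F X (ev k c)).im := fderiv_im hF X _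
  simp only [e1, e2]
  rw [← Complex.normSq_eq_conj_mul_self, Complex.normSq_apply]
  push_cast
  ring

/-- real version; `G` need not have compact support -/
theorem greenR {F G : Conf N → ℝ} (hF : ContDiff ℝ (⊤ : ℕ∞) F) (hF' : HasCompactSupport F)
    (hG : ContDiff ℝ (⊤ : ℕ∞) G) :
    ∫ X, F X * (- lapR G X) = ∑ k : Fin N, ∑ c : Fin 3, ∫ X, pd k c F X * pd k c G X := by
  have h1 : ∀ X, F X * (- lapR G X) = ∑ k : Fin N, ∑ c : Fin 3,
      - (F X * fderiv ℝ (fun Y => fderiv ℝ G Y (ev k c)) X (ev k c)) := by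
    intro X
    unfold lapR
    simp only [Finset.sum_neg_distrib, Finset.mul_sum, mul_neg]
    rfl
  have hi : ∀ (k : Fin N) (c : Fin 3), Integrable
      (fun X => - (F X * fderiv ℝ (fun Y => fderiv ℝ G Y (ev k c)) X (ev k c))) := fun k c =>
    (aux_MG1_int hF.continuous hF' (aux_MG1_smooth (aux_MG1_smooth hG _) _).continuous).neg
  simp only [h1]
  rw [integral_finsetSum _ (fun k _ => integrable_finsetSum _ fun c _ => hi k c)]
  refine Finset.sum_congr rfl fun k _ => ?_
  rw [integral_finsetSum _ (fun c _ => hi k c)]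
  refine Finset.sum_congr rfl fun c _ => ?_
  rw [integral_neg, aux_MG1_ibp hF hF' (aux_MG1_smooth hG _) (ev k c), neg_neg]
  rfl

end Ion
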