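import Pool.Agent.Lib.MP_69e010_mp.M.MB
import Pool.Agent.Lib.MP_69e010_mp.M.MG1

/-!
# JOB MG2 (stream M of MP_69e010_mp): inner products of classes of test functions

* `inner_Fer`: `Submodule.coe_inner`, `L2.inner_def`, `integral_mu` (integrability of the product of two `L²` functions: `L2.integrable_inner`); the classes agree a.e. with
  the functions (`ae_mu` or `integral_congr_ae`).  Mathlib: `inner ℂ a b = conj a * b` or `b * conj a` for complex numbers (`RCLike.inner_apply`, check the order).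
* `norm_cl`: `‖x‖² = re inner x x`; `|φ|² = re² + im²`; integrable because test functions are bounded with compact support.
* `inner_cl_K`: `green_re` for every spin configuration.
* `inner_cl_V`: `conj φ * (V φ) = V (re² + im²)`; integrability of `V ψ²`: `LipC.integrable_V` (H/HC2.lean).
* symmetry: `green_sym`; for `V` pointwise (real potential).
* `clV_le`: `‖V φ‖² = ∑_σ ∫ V² (re² + im²)`, `V_sq_le`.
-/

open MeasureTheory Filter Topology
open scoped ENNReal ComplexConjugate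

noncomputable section

namespace Ion

variable {N : ℕ}

/-- the inner product of two classes in terms of representatives -/
theorem inner_Fer {x y : Fer N} {f g : Om N → ℂ} (hf : ((x : L2 N) : Om N → ℂ) =ᵐ[mu N] f)
    (hg : ((y : L2 N) : Om N → ℂ) =ᵐ[mu N] g) :
    inner ℂ x y = ∑ σ : Spin N, ∫ X : Conf N, conj (f (jn σ X)) * g (jn σ X) := by
  have hi : Integrable (fun ω => inner ℂ ((x : L2 N) ω) ((y : L2 N) ω)) (mu N) :=
    L2.integrable_inner (𝕜 := ℂ) (x : L2 N) (y : L2 N)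
  have he : (fun ω => inner ℂ ((x : L2 N) ω) ((y : L2 N) ω)) =ᵐ[mu N] fun ω => conj (f ω) * g ω := by
    filter_upwards [hf, hg] with ω h1 h2
    rw [h1, h2, RCLike.inner_apply']
  rw [Submodule.coe_inner, L2.inner_def, integral_congr_ae he, integral_mu (hi.congr he)]

theorem aux_MG2_pt (v : ℝ) (w : ℂ) :
    conj ((v : ℂ) * w) * ((v : ℂ) * w) = ((v ^ 2 * w.re ^ 2 + v ^ 2 * w.im ^ 2 : ℝ) : ℂ) := by
  rw [← Complex.normSq_eq_conj_mul_self, map_mul, Complex.normSq_ofReal, Complex.normSq_apply]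
  push_cast
  ring

theorem aux_MG2_pt2 (v : ℝ) (w : ℂ) :
    conj w * ((v : ℂ) * w) = ((v * w.re ^ 2 + v * w.im ^ 2 : ℝ) : ℂ) := by
  rw [mul_left_comm, ← Complex.normSq_eq_conj_mul_self, Complex.normSq_apply]
  push_cast
  ring

theorem aux_MG2_self {x : Fer N} {f : Om N → ℂ} (hf : ((x : L2 N) : Om N → ℂ) =ᵐ[mu N] f)
    {f1 f2 : Spin N → Conf N → ℝ} (h1 : ∀ σ, Integrable (f1 σ)) (h2 : ∀ σ, Integrable (f2 σ))
    (h : ∀ σ X, conj (f (jn σ X)) * f (jn σ X) = ((f1 σ X + f2 σ X : ℝ) : ℂ)) :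
    ‖x‖ ^ 2 = (∑ σ : Spin N, ∫ X, f1 σ X) + ∑ σ : Spin N, ∫ X, f2 σ X := by
  have h3 := inner_Fer hf hf
  rw [inner_self_eq_norm_sq_to_K (𝕜 := ℂ) x] at h3
  simp only [h] at h3
  have h4 : ∀ σ : Spin N, ∫ X, ((f1 σ X + f2 σ X : ℝ) : ℂ) = (((∫ X, f1 σ X) + ∫ X, f2 σ X : ℝ) : ℂ) := by
    intro σ
    rw [← integral_add (h1 σ) (h2 σ)]
    exact integral_ofReal
  rw [Finset.sum_congr rfl fun σ _ => h4 σ, ← Complex.ofReal_sum] at h3
  rw [← Finset.sum_add_distrib]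
  have h5 : ((‖x‖ ^ 2 : ℝ) : ℂ) = ((∑ σ : Spin N, ((∫ X, f1 σ X) + ∫ X, f2 σ X) : ℝ) : ℂ) := by
    rw [← h3]
    push_cast
    rfl
  exact_mod_cast h5

theorem norm_cl (φ : CTest N) : ‖clM N φ‖ ^ 2 = nrm2 (reW φ.1) + nrm2 (imW φ.1) := by
  have h1 := inner_Fer (cl_coe φ) (cl_coe φ)
  have h2 := aux_MG2_self (cl_coe φ) (fun σ => ((reW_test φ.2).admsM.1 σ).integrable_sq)
    (fun σ => ((imW_test φ.2).admsM.1 σ).integrable_sq) (fun σ X => by
      rw [← Complex.normSq_eq_conj_mul_self, Complex.normSq_apply]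
      unfold reW imW
      push_cast
      ring)
  exact h2

theorem inner_cl_K (φ : CTest N) : inner ℂ (clM N φ) (clK N φ) = ((TT (reW φ.1) + TT (imW φ.1) : ℝ) : ℂ) := by
  rw [inner_Fer (cl_coe φ) (clK_coe φ)]
  unfold TT
  rw [← Finset.sum_add_distrib, Complex.ofReal_sum]
  refine Finset.sum_congr rfl fun σ _ => ?_
  exact green_re (φ.2.1 σ) (φ.2.2.1 σ)

theorem aux_MG2_inner_V (z : ℝ) (φ : CTest N) :
    inner ℂ (clM N φ) (clV z N φ) = (((∑ σ : Spin N, ∫ X, V z X * (reW φ.1 σ X) ^ 2) +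
      ∑ σ : Spin N, ∫ X, V z X * (imW φ.1 σ X) ^ 2 : ℝ) : ℂ) := by
  rw [inner_Fer (cl_coe φ) (clV_coe z φ), ← Finset.sum_add_distrib, Complex.ofReal_sum]
  refine Finset.sum_congr rfl fun σ _ => ?_
  rw [← integral_add (((reW_test φ.2).admsM.1 σ).integrable_V z) (((imW_test φ.2).admsM.1 σ).integrable_V z)]
  rw [← integral_complex_ofReal]
  exact integral_congr_ae (Filter.Eventually.of_forall fun X => aux_MG2_pt2 (V z X) (φ.1 (jn σ X)))

theorem inner_cl_H (z : ℝ) (φ : CTest N) :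
    inner ℂ (clM N φ) (clK N φ + clV z N φ) = ((qf z (reW φ.1) + qf z (imW φ.1) : ℝ) : ℂ) := by
  rw [inner_add_right, inner_cl_K, aux_MG2_inner_V]
  unfold qf
  push_cast
  ring

theorem sym_K (φ χ : CTest N) : inner ℂ (clK N φ) (clM N χ) = inner ℂ (clM N φ) (clK N χ) := by
  rw [inner_Fer (clK_coe φ) (cl_coe χ), inner_Fer (cl_coe φ) (clK_coe χ)]
  refine Finset.sum_congr rfl fun σ _ => ?_
  simp only [KF_jn]
  exact green_sym (φ.2.1 σ) (φ.2.2.1 σ) (χ.2.1 σ) (χ.2.2.1 σ)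

theorem sym_V (z : ℝ) (φ χ : CTest N) : inner ℂ (clV z N φ) (clM N χ) = inner ℂ (clM N φ) (clV z N χ) := by
  rw [inner_Fer (clV_coe z φ) (cl_coe χ), inner_Fer (cl_coe φ) (clV_coe z χ)]
  refine Finset.sum_congr rfl fun σ _ => ?_
  congr 1
  funext X
  rw [VF_jn, VF_jn, map_mul, Complex.conj_ofReal]
  ring

theorem clV_le (z : ℝ) (N : ℕ) : ∃ C : ℝ, 0 ≤ C ∧ ∀ φ : CTest N,
    ‖clV z N φ‖ ^ 2 ≤ C * (TT (reW φ.1) + TT (imW φ.1)) := by
  obtain ⟨C, hC0, hC⟩ := V_sq_le z N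
  have hre : ∀ (φ : CTest N) (σ : Spin N), Integrable (fun X => (V z X) ^ 2 * (reW φ.1 σ X) ^ 2) ∧
      ∫ X, (V z X) ^ 2 * (reW φ.1 σ X) ^ 2 ≤ C * ∫ X, ∑ k, gsq k (reW φ.1 σ) X :=
    fun φ σ => hC (reW φ.1 σ) ((reW_test φ.2).admsM.1 σ)
  have him : ∀ (φ : CTest N) (σ : Spin N), Integrable (fun X => (V z X) ^ 2 * (imW φ.1 σ X) ^ 2) ∧
      ∫ X, (V z X) ^ 2 * (imW φ.1 σ X) ^ 2 ≤ C * ∫ X, ∑ k, gsq k (imW φ.1 σ) X :=
    fun φ σ => hC (imW φ.1 σ) ((imW_test φ.2).admsM.1 σ)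
  refine ⟨C, hC0, fun φ => ?_⟩
  have h2 : ‖clV z N φ‖ ^ 2 = (∑ σ : Spin N, ∫ X, (V z X) ^ 2 * (reW φ.1 σ X) ^ 2) +
      ∑ σ : Spin N, ∫ X, (V z X) ^ 2 * (imW φ.1 σ X) ^ 2 :=
    aux_MG2_self (clV_coe z φ) (fun σ => (hre φ σ).1) (fun σ => (him φ σ).1)
      (fun σ X => aux_MG2_pt (V z X) (φ.1 (jn σ X)))
  rw [h2]
  unfold TT
  rw [mul_add, Finset.mul_sum, Finset.mul_sum]
  refine add_le_add ?_ ?_
  · exact Finset.sum_le_sum fun σ _ => (hre φ σ).2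
  · exact Finset.sum_le_sum fun σ _ => (him φ σ).2

end Ion
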