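import Mathlib

/-!
# JOB MH (stream M of MP_69e010_mp): the abstract Kato-Rellich lemma (weak solutions are limits in the graph norm)

Write `J x := T x + l i x`, `P x := J x + W x`.
(a) `‖P x‖ >= (1 - a) ‖J x‖ >= (1 - a) l ‖i x‖`.
(b) the range of `P` is dense, i.e. `f ⊥ P x` for all `x` implies `f = 0`: the range of `J` is dense (`hd`: orthogonal complement zero, `Submodule.topologicalClosure_eq_top_iff`), so there is a
sequence `x_n` with `J x_n → f`; `⟪f, J x_n⟫ = - ⟪f, W x_n⟫`, `|⟪f, W x_n⟫| <= ‖f‖ a ‖J x_n‖`; in the limit `‖f‖² <= a ‖f‖²`, so `f = 0`.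
(c) by (b) there is `x_n` with `P x_n → v + l u`.  By (a) `i x_n` is a Cauchy sequence (`i`, `P` linear); let `i x_n → u'`.  For all `x`:
`⟪P x, u'⟫ = lim ⟪P x, i x_n⟫ = lim ⟪i x, P x_n⟫ = ⟪i x, v + l u⟫ = ⟪P x, u⟫` (symmetry of `P` and `huv`), so `u' - u ⊥ P x` for all `x` and `u' = u` by (b).
Finally `T x_n + W x_n = P x_n - l i x_n → v`.
-/

open Filter Topology

noncomputable section

namespace Ion

theorem aux_MH_dense {H : Type*} [NormedAddCommGroup H] [InnerProductSpace ℂ H] [CompleteSpace H]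
    {D : Type*} [AddCommGroup D] [Module ℂ D] (L : D →ₗ[ℂ] H) (h : ∀ f : H, (∀ x, inner ℂ (L x) f = 0) → f = 0) (y : H) :
    ∃ x : ℕ → D, Tendsto (fun n => L (x n)) atTop (𝓝 y) := by
  have h1 : (LinearMap.range L).topologicalClosure = ⊤ := by
    rw [Submodule.topologicalClosure_eq_top_iff, Submodule.eq_bot_iff]
    intro f hf
    apply h
    intro x
    exact (Submodule.mem_orthogonal _ _).mp hf (L x) (LinearMap.mem_range_self L x)
  have h2 : y ∈ closure ((LinearMap.range L : Submodule ℂ H) : Set H) := by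
    rw [← Submodule.topologicalClosure_coe, h1]
    trivial
  obtain ⟨s, hs, hl⟩ := mem_closure_iff_seq_limit.mp h2
  choose x hx using hs
  refine ⟨x, ?_⟩
  simpa only [hx] using hl

theorem kato_abstract {H : Type*} [NormedAddCommGroup H] [InnerProductSpace ℂ H] [CompleteSpace H]
    {D : Type*} [AddCommGroup D] [Module ℂ D] (i T W : D →ₗ[ℂ] H) {l a : ℝ} (hl : 0 < l) (ha : a < 1) (ha0 : 0 ≤ a)
    (hT : ∀ x y, inner ℂ (T x) (i y) = inner ℂ (i x) (T y))
    (hW : ∀ x y, inner ℂ (W x) (i y) = inner ℂ (i x) (W y))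
    (hpos : ∀ x, l * ‖i x‖ ≤ ‖T x + (l : ℂ) • i x‖)
    (hWT : ∀ x, ‖W x‖ ≤ a * ‖T x + (l : ℂ) • i x‖)
    (hd : ∀ f : H, (∀ x, inner ℂ (T x + (l : ℂ) • i x) f = 0) → f = 0)
    (u v : H) (huv : ∀ x, inner ℂ (T x + W x) u = inner ℂ (i x) v) :
    ∃ x : ℕ → D, Tendsto (fun n => i (x n)) atTop (𝓝 u) ∧ Tendsto (fun n => T (x n) + W (x n)) atTop (𝓝 v) := by
  set J : D →ₗ[ℂ] H := T + (l : ℂ) • i with hJ
  have hJx : ∀ x, T x + (l : ℂ) • i x = J x := fun x => rfl
  set Q : D →ₗ[ℂ] H := J + W with hQ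
  have hQx : ∀ x, Q x = J x + W x := fun x => rfl
  simp only [hJx] at hpos hWT hd
  have h1 : ∀ x, (1 - a) * ‖J x‖ ≤ ‖Q x‖ := by
    intro x
    have h := hWT x
    have h2 : ‖J x‖ ≤ ‖Q x‖ + ‖W x‖ := by
      have h3 : Q x - W x = J x := by rw [hQx]; abel
      rw [← h3]
      exact norm_sub_le _ _
    linarith
  have hc : 0 < (1 - a) * l := mul_pos (by linarith) hl
  have h2 : ∀ x, ((1 - a) * l) * ‖i x‖ ≤ ‖Q x‖ := by
    intro x
    have h := mul_le_mul_of_nonneg_left (hpos x) (show (0 : ℝ) ≤ 1 - a by linarith)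
    have h' := h1 x
    nlinarith
  have key : ∀ f : H, (∀ x, inner ℂ (Q x) f = 0) → f = 0 := by
    intro f hf
    obtain ⟨x, hx⟩ := aux_MH_dense J hd f
    have e1 : ∀ n, inner ℂ (J (x n)) f = - inner ℂ (W (x n)) f := by
      intro n
      have h := hf (x n)
      rw [hQx, inner_add_left] at h
      exact eq_neg_of_add_eq_zero_left h
    have e2 : ∀ n, ‖inner ℂ (J (x n)) f‖ ≤ a * ‖J (x n)‖ * ‖f‖ := by
      intro n
      rw [e1, norm_neg]
      refine (norm_inner_le_norm _ _).trans ?_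
      exact mul_le_mul_of_nonneg_right (hWT _) (norm_nonneg _)
    have l1 : Tendsto (fun n => ‖inner ℂ (J (x n)) f‖) atTop (𝓝 ‖inner ℂ f f‖) :=
      (hx.inner tendsto_const_nhds).norm
    have l2 : Tendsto (fun n => a * ‖J (x n)‖ * ‖f‖) atTop (𝓝 (a * ‖f‖ * ‖f‖)) :=
      (tendsto_const_nhds.mul hx.norm).mul tendsto_const_nhds
    have l3 := le_of_tendsto_of_tendsto' l1 l2 e2
    rw [inner_self_eq_norm_sq_to_K] at l3
    have l4 : ‖((‖f‖ : ℂ)) ^ 2‖ = ‖f‖ ^ 2 := by simp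
    have l5 : ‖f‖ ^ 2 ≤ a * ‖f‖ * ‖f‖ := by
      rw [← l4]
      exact l3
    have l6 : (1 - a) * ‖f‖ ^ 2 ≤ 0 := by nlinarith
    have l7 : ‖f‖ ^ 2 ≤ 0 := by
      by_contra hcon
      push Not at hcon
      have := mul_pos (show (0 : ℝ) < 1 - a by linarith) hcon
      linarith
    have l8 : ‖f‖ = 0 := by
      have := sq_nonneg ‖f‖
      have l9 : ‖f‖ ^ 2 = 0 := le_antisymm l7 this
      exact pow_eq_zero_iff (two_ne_zero) |>.mp l9
    exact norm_eq_zero.mp l8
  obtain ⟨x, hx⟩ := aux_MH_dense Q key (v + (l : ℂ) • u)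
  have hcau : CauchySeq (fun n => i (x n)) := by
    have hq := hx.cauchySeq
    rw [Metric.cauchySeq_iff'] at hq ⊢
    intro ε hε
    obtain ⟨N, hN⟩ := hq (((1 - a) * l) * ε) (mul_pos hc hε)
    refine ⟨N, fun n hn => ?_⟩
    have h := hN n hn
    rw [dist_eq_norm, ← map_sub] at h ⊢
    have h' := (h2 (x n - x N)).trans_lt h
    exact lt_of_mul_lt_mul_left h' hc.le
  obtain ⟨u', hu'⟩ := cauchySeq_tendsto_of_complete hcau
  have hsym : ∀ x y, inner ℂ (Q x) (i y) = inner ℂ (i x) (Q y) := by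
    intro x y
    rw [hQx, hQx, ← hJx, ← hJx]
    simp only [inner_add_left, inner_add_right, hT, hW, inner_smul_left, inner_smul_right]
    simp
  have hu : u' = u := by
    have h3 : u' - u = 0 := by
      apply key
      intro y
      have l1 : Tendsto (fun n => inner ℂ (Q y) (i (x n))) atTop (𝓝 (inner ℂ (Q y) u')) :=
        tendsto_const_nhds.inner hu'
      have l2 : Tendsto (fun n => inner ℂ (i y) (Q (x n))) atTop (𝓝 (inner ℂ (i y) (v + (l : ℂ) • u))) :=
        tendsto_const_nhds.inner hx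
      simp only [hsym] at l1
      have l3 := tendsto_nhds_unique l1 l2
      have l4 : inner ℂ (Q y) u = inner ℂ (i y) (v + (l : ℂ) • u) := by
        have h := huv y
        have e : Q y = (T y + W y) + (l : ℂ) • i y := by
          rw [hQx, ← hJx]
          abel
        rw [e, inner_add_left, h, inner_add_right, inner_smul_left, inner_smul_right]
        simp
      rw [inner_sub_right, l3, l4, sub_self]
    exact sub_eq_zero.mp h3
  refine ⟨x, hu ▸ hu', ?_⟩
  have l1 : Tendsto (fun n => Q (x n) - (l : ℂ) • i (x n)) atTop (𝓝 (v + (l : ℂ) • u - (l : ℂ) • u)) :=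
    hx.sub ((hu ▸ hu').const_smul _)
  have e : ∀ n, Q (x n) - (l : ℂ) • i (x n) = T (x n) + W (x n) := by
    intro n
    rw [hQx, ← hJx]
    abel
  simp only [e, add_sub_cancel_right] at l1
  exact l1

end Ion
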