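import Mathlib

/-!
# JOB MI (stream M of MP_69e010_mp): essential self-adjointness, abstract

`i : D → H` (test functions), `S : D → H` (the operator on test functions), symmetric, `i D` dense; `core`: every weak solution is a limit in the graph norm.
Existence: `G0 := LinearMap.range (i.prod S) : Submodule ℂ (H × H)`; `(i x, S x) ∈ G0` and `i x = 0` imply `S x = 0` (`⟪S x, i y⟫ = ⟪i x, S y⟫ = 0`, `i D` dense).
`T0 := G0.toLinearPMap`, `T0.graph = G0` (`Submodule.toLinearPMap_graph_eq`), densely defined.  `A := T0†` (`LinearPMap.adjoint`); `A.graph = G0.adjoint`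
(`LinearPMap.adjoint_graph_eq_graph_adjoint`), `Submodule.mem_adjoint_iff`: `(u, v) ∈ A.graph ↔ ∀ x, ⟪S x, u⟫ = ⟪i x, v⟫`.  `G0 ⊆ A.graph` by symmetry.
By `core`, `A.graph ⊆ closure G0`.  `A† = A`: the graph of `A†` is `{(u, v) | ∀ (p, q) ∈ A.graph, ⟪q, u⟫ = ⟪p, v⟫}`; it is contained in `A.graph` because `G0 ⊆ A.graph`, and it contains
`A.graph` because for `(u, v) ∈ A.graph` the identity holds for `(p, q) ∈ G0` and passes to limits.  (`LinearPMap.eq_of_eq_graph`.)
`core_sa` (for every self-adjoint `A` which extends `S`): for `y ∈ A.domain`, `⟪S x, y⟫ = ⟪A (i x), y⟫ = ⟪i x, A y⟫`, apply `core`.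
Uniqueness: by `core_sa` and closedness (`IsSelfAdjoint.isClosed`) every such `A` has graph `closure G0`.
-/

open Filter Topology LinearPMap

noncomputable section

namespace Ion

variable {H : Type*} [NormedAddCommGroup H] [InnerProductSpace ℂ H] [CompleteSpace H]
  {D : Type*} [AddCommGroup D] [Module ℂ D]

theorem aux_MI_sym {A : H →ₗ.[ℂ] H} (hA : IsSelfAdjoint A) (x y : A.domain) :
    inner ℂ (A x) (y : H) = inner ℂ (x : H) (A y) := by
  have h := adjoint_isFormalAdjoint hA.dense_domain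
  rw [isSelfAdjoint_def.mp hA] at h
  exact h x y

theorem core_sa {i S : D →ₗ[ℂ] H}
    (core : ∀ u v : H, (∀ x, inner ℂ (S x) u = inner ℂ (i x) v) →
      ∃ x : ℕ → D, Tendsto (fun n => i (x n)) atTop (𝓝 u) ∧ Tendsto (fun n => S (x n)) atTop (𝓝 v))
    {A : H →ₗ.[ℂ] H} (hA : IsSelfAdjoint A) (hext : ∀ x : D, ∃ y : A.domain, (y : H) = i x ∧ A y = S x) (y : A.domain) :
    ∃ x : ℕ → D, Tendsto (fun n => i (x n)) atTop (𝓝 (y : H)) ∧ Tendsto (fun n => S (x n)) atTop (𝓝 (A y)) := by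
  apply core
  intro x
  obtain ⟨w, hw1, hw2⟩ := hext x
  rw [← hw1, ← hw2]
  exact aux_MI_sym hA w y

theorem aux_MI_mem {i S : D →ₗ[ℂ] H}
    (core : ∀ u v : H, (∀ x, inner ℂ (S x) u = inner ℂ (i x) v) →
      ∃ x : ℕ → D, Tendsto (fun n => i (x n)) atTop (𝓝 u) ∧ Tendsto (fun n => S (x n)) atTop (𝓝 v))
    {A : H →ₗ.[ℂ] H} (hA : IsSelfAdjoint A) (hext : ∀ x : D, ∃ y : A.domain, (y : H) = i x ∧ A y = S x) (p : H × H) :
    p ∈ A.graph ↔ ∀ x, inner ℂ (S x) p.1 = inner ℂ (i x) p.2 := by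
  constructor
  · intro hp x
    obtain ⟨y, hy1, hy2⟩ := (LinearPMap.mem_graph_iff A).mp hp
    obtain ⟨w, hw1, hw2⟩ := hext x
    rw [← hw1, ← hw2, ← hy1, ← hy2]
    exact aux_MI_sym hA w y
  · intro hp
    obtain ⟨x, hx1, hx2⟩ := core p.1 p.2 hp
    have hcl : IsClosed (A.graph : Set (H × H)) := hA.isClosed
    refine hcl.mem_of_tendsto (f := fun n => (i (x n), S (x n))) (b := atTop) ?_ ?_
    · exact hx1.prodMk_nhds hx2
    · refine Filter.Eventually.of_forall fun n => ?_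
      obtain ⟨w, hw1, hw2⟩ := hext (x n)
      rw [SetLike.mem_coe, LinearPMap.mem_graph_iff]
      exact ⟨w, hw1, hw2⟩

theorem aux_MI_dense {i : D →ₗ[ℂ] H} (hdense : ∀ f : H, (∀ x, inner ℂ (i x) f = 0) → f = 0) (p : Submodule ℂ H)
    (hp : ∀ x, i x ∈ p) : Dense (p : Set H) := by
  rw [Submodule.dense_iff_topologicalClosure_eq_top, Submodule.topologicalClosure_eq_top_iff, Submodule.eq_bot_iff]
  intro f hf
  apply hdense
  intro x
  exact (Submodule.mem_orthogonal _ _).mp hf (i x) (hp x)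

theorem exists_unique_sa {i S : D →ₗ[ℂ] H}
    (hS : ∀ x y, inner ℂ (S x) (i y) = inner ℂ (i x) (S y))
    (hdense : ∀ f : H, (∀ x, inner ℂ (i x) f = 0) → f = 0)
    (core : ∀ u v : H, (∀ x, inner ℂ (S x) u = inner ℂ (i x) v) →
      ∃ x : ℕ → D, Tendsto (fun n => i (x n)) atTop (𝓝 u) ∧ Tendsto (fun n => S (x n)) atTop (𝓝 v)) :
    ∃! A : H →ₗ.[ℂ] H, IsSelfAdjoint A ∧ ∀ x : D, ∃ y : A.domain, (y : H) = i x ∧ A y = S x := by
  set G0 : Submodule ℂ (H × H) := LinearMap.range (i.prod S) with hG0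
  have hG : ∀ x, (i x, S x) ∈ G0 := fun x => ⟨x, rfl⟩
  have hg : ∀ x ∈ G0, x.fst = 0 → x.snd = 0 := by
    rintro _ ⟨x, rfl⟩ h
    have h' : i x = 0 := h
    show S x = 0
    apply hdense
    intro y
    rw [← hS, h', inner_zero_right]
  set T0 : H →ₗ.[ℂ] H := G0.toLinearPMap with hT0
  have hT0g : T0.graph = G0 := Submodule.toLinearPMap_graph_eq G0 hg
  have hT0d : Dense (T0.domain : Set H) := by
    apply aux_MI_dense hdense
    intro x
    have h := hG x
    rw [← hT0g] at h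
    exact LinearPMap.mem_domain_of_mem_graph h
  have hAg : (T0†).graph = G0.adjoint := by
    rw [LinearPMap.adjoint_graph_eq_graph_adjoint hT0d, hT0g]
  have hmem : ∀ p : H × H, p ∈ (T0†).graph ↔ ∀ x, inner ℂ (S x) p.1 = inner ℂ (i x) p.2 := by
    intro p
    rw [hAg, Submodule.mem_adjoint_iff]
    constructor
    · intro h x
      exact sub_eq_zero.mp (h _ _ (hG x))
    · rintro h a b ⟨x, hx⟩
      have h1 : i x = a := congrArg Prod.fst hx
      have h2 : S x = b := congrArg Prod.snd hx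
      rw [← h1, ← h2]
      exact sub_eq_zero.mpr (h x)
  have hAext : ∀ x : D, ∃ y : (T0†).domain, (y : H) = i x ∧ (T0†) y = S x := by
    intro x
    have h : ((i x, S x) : H × H) ∈ (T0†).graph := (hmem _).mpr fun y => hS y x
    obtain ⟨y, hy1, hy2⟩ := (LinearPMap.mem_graph_iff _).mp h
    exact ⟨y, hy1, hy2⟩
  have hAd : Dense ((T0†).domain : Set H) := by
    apply aux_MI_dense hdense
    intro x
    obtain ⟨y, hy1, hy2⟩ := hAext x
    rw [← hy1]
    exact y.2
  have hAsa : IsSelfAdjoint (T0†) := by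
    rw [isSelfAdjoint_def]
    apply LinearPMap.eq_of_eq_graph
    ext p
    rw [LinearPMap.adjoint_graph_eq_graph_adjoint hAd, Submodule.mem_adjoint_iff, hmem]
    constructor
    · intro h x
      have h1 : ((i x, S x) : H × H) ∈ (T0†).graph := (hmem _).mpr fun y => hS y x
      exact sub_eq_zero.mp (h _ _ h1)
    · intro h a b hab
      obtain ⟨x, hx1, hx2⟩ := core a b ((hmem (a, b)).mp hab)
      have l1 : Tendsto (fun n => inner ℂ (S (x n)) p.1) atTop (𝓝 (inner ℂ b p.1)) := hx2.inner tendsto_const_nhds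
      have l2 : Tendsto (fun n => inner ℂ (i (x n)) p.2) atTop (𝓝 (inner ℂ a p.2)) := hx1.inner tendsto_const_nhds
      simp only [h] at l1
      exact sub_eq_zero.mpr (tendsto_nhds_unique l1 l2)
  refine ⟨T0†, ⟨hAsa, hAext⟩, ?_⟩
  rintro A' ⟨hA', hext'⟩
  apply LinearPMap.eq_of_eq_graph
  ext p
  rw [hmem, aux_MI_mem core hA' hext']

end Ion
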