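import Pool.Agent.Lib.MP_69e010_mp.M.MDefs

/-!
# JOB MJ (stream M of MP_69e010_mp): the bottom of the spectrum of a self-adjoint operator

`A` symmetric: `⟪A x, y⟫ = ⟪x, A y⟫` (`LinearPMap.adjoint_isFormalAdjoint hA.dense_domain` and `hA : A† = A`).
* `t < m` implies `IsRes A t`: `‖A x - t x‖ ‖x‖ >= re ⟪x, A x - t x⟫ >= (m - t) ‖x‖²`, so `‖A x - t x‖ >= (m - t) ‖x‖`; injective.  The range is closed: if
  `A x_n - t x_n → y` then `x_n` is Cauchy, `x_n → x`, `A x_n → y + t x`, `A` closed (`IsSelfAdjoint.isClosed`), so `x ∈ A.domain`, `A x = y + t x`.  The range is dense: if `f ⊥ A x - t x` for all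
  `x ∈ A.domain` then `⟪f, A x⟫ = ⟪t f, x⟫`, so `f ∈ A†.domain = A.domain` and `A f = t f` (`mem_adjoint_domain_of_exists`, `adjoint_apply_eq`), so `f = 0` by injectivity.  Hence `A - t` is
  bijective and the inverse `B` is linear with `‖B y‖ <= (m - t)⁻¹ ‖y‖` (`LinearMap.mkContinuous`).
* `m` is not in the resolvent set: if `B` is the bounded inverse of `A - m`: let `x ∈ A.domain`, `‖x‖ = 1`, `re ⟪x, A x⟫ <= m + e`.  The form `h(x, y) := ⟪x, (A - m) y⟫` on `A.domain` is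
  hermitian and positive semidefinite, so `|h(x,y)|² <= h(x,x) h(y,y)` (Cauchy-Schwarz; prove it by expanding `h(x + s y, x + s y) >= 0` or via `InnerProductSpace.Core`), take `y := B x`:
  `h(x, B x) = ⟪x, x⟫ = 1`, `h(x, x) <= e`, `h(B x, B x) = ⟪B x, x⟫ <= ‖B‖`.  So `1 <= e ‖B‖` for every `e > 0`, contradiction.
* `sInf = m`: `m ∈ specR A` and `m` is a lower bound.
-/

open Filter Topology LinearPMap

noncomputable section

namespace Ion

variable {H : Type*} [NormedAddCommGroup H] [InnerProductSpace ℂ H] [CompleteSpace H]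

theorem sa_sym {A : H →ₗ.[ℂ] H} (hA : IsSelfAdjoint A) (x y : A.domain) :
    inner ℂ (A x) (y : H) = inner ℂ (x : H) (A y) := by
  have h := adjoint_isFormalAdjoint hA.dense_domain
  rw [isSelfAdjoint_def.mp hA] at h
  exact h x y

/-- the map `A - t` -/
def aux_MJ_R (A : H →ₗ.[ℂ] H) (t : ℂ) : A.domain →ₗ[ℂ] H := A.toFun - t • A.domain.subtype

theorem aux_MJ_R_apply (A : H →ₗ.[ℂ] H) (t : ℂ) (x : A.domain) : aux_MJ_R A t x = A x - t • (x : H) := rfl

theorem aux_MJ_lower {A : H →ₗ.[ℂ] H} {m : ℝ}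
    (hm : ∀ x : A.domain, m * ‖(x : H)‖ ^ 2 ≤ (inner ℂ (x : H) (A x)).re) {t : ℝ} (x : A.domain) :
    (m - t) * ‖(x : H)‖ ≤ ‖aux_MJ_R A (t : ℂ) x‖ := by
  by_cases hx : (x : H) = 0
  · rw [hx, norm_zero, mul_zero]
    exact norm_nonneg _
  have hx' : 0 < ‖(x : H)‖ := norm_pos_iff.mpr hx
  have h1 : (inner ℂ (x : H) (aux_MJ_R A (t : ℂ) x)).re = (inner ℂ (x : H) (A x)).re - t * ‖(x : H)‖ ^ 2 := by
    rw [aux_MJ_R_apply, inner_sub_right, inner_smul_right, inner_self_eq_norm_sq_to_K]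
    simp only [Complex.sub_re, Complex.coe_algebraMap, Complex.mul_re, Complex.ofReal_re, Complex.ofReal_im, zero_mul, sub_zero]
    norm_cast
  have h2 : (inner ℂ (x : H) (aux_MJ_R A (t : ℂ) x)).re ≤ ‖(x : H)‖ * ‖aux_MJ_R A (t : ℂ) x‖ :=
    (Complex.re_le_norm _).trans (norm_inner_le_norm _ _)
  have h3 := hm x
  have h4 : ((m - t) * ‖(x : H)‖) * ‖(x : H)‖ ≤ ‖aux_MJ_R A (t : ℂ) x‖ * ‖(x : H)‖ := by nlinarith
  exact le_of_mul_le_mul_right h4 hx'

theorem aux_MJ_inj {A : H →ₗ.[ℂ] H} {m : ℝ}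
    (hm : ∀ x : A.domain, m * ‖(x : H)‖ ^ 2 ≤ (inner ℂ (x : H) (A x)).re) {t : ℝ} (ht : t < m) :
    Function.Injective (aux_MJ_R A (t : ℂ)) := by
  rw [injective_iff_map_eq_zero]
  intro x hx
  have h := aux_MJ_lower hm (t := t) x
  rw [hx, norm_zero] at h
  have h1 : ‖(x : H)‖ ≤ 0 := by
    by_contra hcon
    push Not at hcon
    have := mul_pos (sub_pos.mpr ht) hcon
    linarith
  exact Subtype.ext (norm_eq_zero.mp (le_antisymm h1 (norm_nonneg _)))

theorem aux_MJ_closed {A : H →ₗ.[ℂ] H} (hA : IsSelfAdjoint A) {m : ℝ}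
    (hm : ∀ x : A.domain, m * ‖(x : H)‖ ^ 2 ≤ (inner ℂ (x : H) (A x)).re) {t : ℝ} (ht : t < m) :
    IsClosed (LinearMap.range (aux_MJ_R A (t : ℂ)) : Set H) := by
  apply isClosed_of_closure_subset
  intro y hy
  obtain ⟨s, hs, hl⟩ := mem_closure_iff_seq_limit.mp hy
  choose x hx using hs
  have hcau : CauchySeq (fun n => ((x n : A.domain) : H)) := by
    have hq := hl.cauchySeq
    rw [Metric.cauchySeq_iff'] at hq ⊢
    intro ε hε
    obtain ⟨N, hN⟩ := hq ((m - t) * ε) (mul_pos (sub_pos.mpr ht) hε)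
    refine ⟨N, fun n hn => ?_⟩
    have h := hN n hn
    rw [dist_eq_norm, ← hx, ← hx, ← _root_.map_sub] at h
    have h' := (aux_MJ_lower hm (t := t) (x n - x N)).trans_lt h
    rw [dist_eq_norm]
    exact lt_of_mul_lt_mul_left h' (sub_pos.mpr ht).le
  obtain ⟨u, hu⟩ := cauchySeq_tendsto_of_complete hcau
  have hAx : Tendsto (fun n => A (x n)) atTop (𝓝 (y + (t : ℂ) • u)) := by
    have h1 : Tendsto (fun n => s n + (t : ℂ) • ((x n : A.domain) : H)) atTop (𝓝 (y + (t : ℂ) • u)) :=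
      hl.add (hu.const_smul _)
    have h2 : ∀ n, s n + (t : ℂ) • ((x n : A.domain) : H) = A (x n) := by
      intro n
      rw [← hx, aux_MJ_R_apply, sub_add_cancel]
    simpa only [h2] using h1
  have hcl : IsClosed (A.graph : Set (H × H)) := hA.isClosed
  have hgr : (u, y + (t : ℂ) • u) ∈ (A.graph : Set (H × H)) := by
    refine hcl.mem_of_tendsto (f := fun n => (((x n : A.domain) : H), A (x n))) (b := atTop) ?_ ?_
    · exact hu.prodMk_nhds hAx
    · exact Filter.Eventually.of_forall fun n => LinearPMap.mem_graph A (x n)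
  rw [SetLike.mem_coe, LinearPMap.mem_graph_iff] at hgr
  obtain ⟨w, hw1, hw2⟩ := hgr
  have hw1' : (w : H) = u := hw1
  have hw2' : A w = y + (t : ℂ) • u := hw2
  refine ⟨w, ?_⟩
  rw [aux_MJ_R_apply, hw1', hw2', add_sub_cancel_right]

theorem aux_MJ_surj {A : H →ₗ.[ℂ] H} (hA : IsSelfAdjoint A) {m : ℝ}
    (hm : ∀ x : A.domain, m * ‖(x : H)‖ ^ 2 ≤ (inner ℂ (x : H) (A x)).re) {t : ℝ} (ht : t < m) :
    Function.Surjective (aux_MJ_R A (t : ℂ)) := by
  have hcl := aux_MJ_closed hA hm ht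
  have hbot : (LinearMap.range (aux_MJ_R A (t : ℂ)))ᗮ = ⊥ := by
    rw [Submodule.eq_bot_iff]
    intro f hf
    have hf' : ∀ x : A.domain, inner ℂ ((t : ℂ) • f) (x : H) = inner ℂ f (A x) := by
      intro x
      have h := (Submodule.mem_orthogonal' _ _).mp hf _ (LinearMap.mem_range_self (aux_MJ_R A (t : ℂ)) x)
      rw [aux_MJ_R_apply, inner_sub_right, inner_smul_right] at h
      rw [inner_smul_left, Complex.conj_ofReal]
      exact (sub_eq_zero.mp h).symm
    have hdom : f ∈ (A†).domain := mem_adjoint_domain_of_exists f ⟨(t : ℂ) • f, hf'⟩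
    have happ : (A†) ⟨f, hdom⟩ = (t : ℂ) • f := adjoint_apply_eq hA.dense_domain _ hf'
    have hgr : (f, (t : ℂ) • f) ∈ (A†).graph := by
      rw [LinearPMap.mem_graph_iff]
      exact ⟨⟨f, hdom⟩, rfl, happ⟩
    rw [isSelfAdjoint_def.mp hA, LinearPMap.mem_graph_iff] at hgr
    obtain ⟨w, hw1, hw2⟩ := hgr
    have hw1' : (w : H) = f := hw1
    have hw2' : A w = (t : ℂ) • f := hw2
    have h0 : aux_MJ_R A (t : ℂ) w = 0 := by
      rw [aux_MJ_R_apply, hw1', hw2', sub_self]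
    have h1 : w = 0 := aux_MJ_inj hm ht (by rw [h0, _root_.map_zero])
    rw [← hw1', h1]
    rfl
  have htop : LinearMap.range (aux_MJ_R A (t : ℂ)) = ⊤ := by
    have h1 := (Submodule.topologicalClosure_eq_top_iff (K := LinearMap.range (aux_MJ_R A (t : ℂ)))).mpr hbot
    rwa [hcl.submodule_topologicalClosure_eq] at h1
  exact LinearMap.range_eq_top.mp htop

theorem isRes_of_lt {A : H →ₗ.[ℂ] H} (hA : IsSelfAdjoint A) {m : ℝ}
    (hm : ∀ x : A.domain, m * ‖(x : H)‖ ^ 2 ≤ (inner ℂ (x : H) (A x)).re) {t : ℝ} (ht : t < m) : IsRes A (t : ℂ) := by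
  have hmt : 0 < m - t := sub_pos.mpr ht
  let e : A.domain ≃ₗ[ℂ] H :=
    LinearEquiv.ofBijective (aux_MJ_R A (t : ℂ)) ⟨aux_MJ_inj hm ht, aux_MJ_surj hA hm ht⟩
  have he : ∀ x : A.domain, e x = A x - (t : ℂ) • (x : H) := fun x => rfl
  let B0 : H →ₗ[ℂ] H := A.domain.subtype.comp e.symm.toLinearMap
  have hB0 : ∀ y, B0 y = ((e.symm y : A.domain) : H) := fun y => rfl
  refine ⟨B0.mkContinuous (m - t)⁻¹ ?_, ?_, ?_⟩
  · intro y
    rw [hB0]
    have h := aux_MJ_lower hm (t := t) (e.symm y)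
    have h1 : aux_MJ_R A (t : ℂ) (e.symm y) = y := e.apply_symm_apply y
    rw [h1] at h
    rw [inv_mul_eq_div, le_div_iff₀ hmt, mul_comm]
    exact h
  · intro y
    refine ⟨e.symm y, ?_, ?_⟩
    · rfl
    · rw [← he]
      exact e.apply_symm_apply y
  · intro x
    show ((e.symm (A x - (t : ℂ) • (x : H)) : A.domain) : H) = x
    rw [← he, e.symm_apply_apply]

theorem aux_MJ_cs {A : H →ₗ.[ℂ] H} (hA : IsSelfAdjoint A) {m : ℝ}
    (hm : ∀ x : A.domain, m * ‖(x : H)‖ ^ 2 ≤ (inner ℂ (x : H) (A x)).re) (x y : A.domain)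
    (hxy : inner ℂ (x : H) (aux_MJ_R A (m : ℂ) y) = 1) :
    1 ≤ (inner ℂ (x : H) (aux_MJ_R A (m : ℂ) x)).re * (inner ℂ (y : H) (aux_MJ_R A (m : ℂ) y)).re := by
  have hpos : ∀ z : A.domain, 0 ≤ (inner ℂ (z : H) (aux_MJ_R A (m : ℂ) z)).re := by
    intro z
    have h1 : (inner ℂ (z : H) (aux_MJ_R A (m : ℂ) z)).re = (inner ℂ (z : H) (A z)).re - m * ‖(z : H)‖ ^ 2 := by
      rw [aux_MJ_R_apply, inner_sub_right, inner_smul_right, inner_self_eq_norm_sq_to_K]
      simp only [Complex.sub_re, Complex.coe_algebraMap, Complex.mul_re, Complex.ofReal_re, Complex.ofReal_im, zero_mul, sub_zero]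
      norm_cast
    rw [h1]
    have := hm z
    linarith
  have hyx : inner ℂ (y : H) (aux_MJ_R A (m : ℂ) x) = 1 := by
    have h : inner ℂ (y : H) (aux_MJ_R A (m : ℂ) x) = inner ℂ (aux_MJ_R A (m : ℂ) y) (x : H) := by
      rw [aux_MJ_R_apply, aux_MJ_R_apply, inner_sub_right, inner_sub_left, sa_sym hA, inner_smul_left, inner_smul_right,
        Complex.conj_ofReal]
    rw [h, ← inner_conj_symm, hxy, map_one]
  set p := (inner ℂ (x : H) (aux_MJ_R A (m : ℂ) x)).re with hp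
  set q := (inner ℂ (y : H) (aux_MJ_R A (m : ℂ) y)).re with hq
  have hquad : ∀ s : ℝ, 0 ≤ q * (s * s) + 2 * s + p := by
    intro s
    have h := hpos (x + (s : ℂ) • y)
    have e : (inner ℂ (((x + (s : ℂ) • y : A.domain)) : H) (aux_MJ_R A (m : ℂ) (x + (s : ℂ) • y))).re = q * (s * s) + 2 * s + p := by
      rw [_root_.map_add, _root_.map_smul, Submodule.coe_add, Submodule.coe_smul]
      simp only [inner_add_left, inner_add_right, inner_smul_left, inner_smul_right, hxy, hyx, Complex.conj_ofReal]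
      simp only [Complex.add_re, Complex.mul_re, Complex.ofReal_re, Complex.ofReal_im, Complex.one_re, Complex.one_im, Complex.mul_im]
      rw [← hp, ← hq]
      ring
    rw [e] at h
    exact h
  have hd := discrim_le_zero hquad
  unfold discrim at hd
  nlinarith

theorem not_isRes {A : H →ₗ.[ℂ] H} (hA : IsSelfAdjoint A) {m : ℝ}
    (hm : ∀ x : A.domain, m * ‖(x : H)‖ ^ 2 ≤ (inner ℂ (x : H) (A x)).re)
    (hseq : ∀ e > 0, ∃ x : A.domain, ‖(x : H)‖ = 1 ∧ (inner ℂ (x : H) (A x)).re ≤ m + e) : ¬ IsRes A (m : ℂ) := by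
  rintro ⟨B, hB1, hB2⟩
  have key : ∀ e > 0, 1 ≤ e * ‖B‖ := by
    intro e he
    obtain ⟨x, hx1, hx2⟩ := hseq e he
    obtain ⟨y, hy1, hy2⟩ := hB1 (x : H)
    have hxy : inner ℂ (x : H) (aux_MJ_R A (m : ℂ) y) = 1 := by
      rw [aux_MJ_R_apply, hy2, inner_self_eq_norm_sq_to_K, hx1]
      simp
    have h := aux_MJ_cs hA hm x y hxy
    have h1 : (inner ℂ (x : H) (aux_MJ_R A (m : ℂ) x)).re ≤ e := by
      rw [aux_MJ_R_apply, inner_sub_right, inner_smul_right, inner_self_eq_norm_sq_to_K, hx1]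
      simp only [Complex.sub_re]
      simp
      linarith
    have h1' : 0 ≤ (inner ℂ (x : H) (aux_MJ_R A (m : ℂ) x)).re := by
      rw [aux_MJ_R_apply, inner_sub_right, inner_smul_right, inner_self_eq_norm_sq_to_K, hx1]
      have := hm x
      rw [hx1] at this
      simp only [Complex.sub_re]
      simp
      linarith
    have h2 : (inner ℂ (y : H) (aux_MJ_R A (m : ℂ) y)).re ≤ ‖B‖ := by
      rw [aux_MJ_R_apply, hy2, hy1]
      refine (Complex.re_le_norm _).trans ((norm_inner_le_norm _ _).trans ?_)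
      rw [hx1, mul_one]
      have := B.le_opNorm (x : H)
      rwa [hx1, mul_one] at this
    calc (1 : ℝ) ≤ _ := h
      _ ≤ (inner ℂ (x : H) (aux_MJ_R A (m : ℂ) x)).re * ‖B‖ := mul_le_mul_of_nonneg_left h2 h1'
      _ ≤ e * ‖B‖ := mul_le_mul_of_nonneg_right h1 (norm_nonneg _)
  have hBn : 0 < ‖B‖ := by
    have h := key 1 one_pos
    linarith
  have h := key (1 / (2 * ‖B‖)) (by positivity)
  have h' : 1 / (2 * ‖B‖) * ‖B‖ = 1 / 2 := by
    field_simp
  rw [h'] at h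
  norm_num at h

theorem sInf_specR {A : H →ₗ.[ℂ] H} (hA : IsSelfAdjoint A) {m : ℝ}
    (hm : ∀ x : A.domain, m * ‖(x : H)‖ ^ 2 ≤ (inner ℂ (x : H) (A x)).re)
    (hseq : ∀ e > 0, ∃ x : A.domain, ‖(x : H)‖ = 1 ∧ (inner ℂ (x : H) (A x)).re ≤ m + e) : sInf (specR A) = m := by
  have h1 : m ∈ specR A := not_isRes hA hm hseq
  have h2 : ∀ t ∈ specR A, m ≤ t := by
    intro t ht
    by_contra hcon
    push Not at hcon
    exact ht (isRes_of_lt hA hm hcon)
  exact IsLeast.csInf_eq ⟨h1, h2⟩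

end Ion
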