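import Pool.Agent.Lib.MP_69e010_mp.M.MV

/-!
# JOB MV2 (stream M of MP_69e010_mp): scaling of wave functions; the energy of a test function is at least `EN`

* `scl a ψ σ X = a * ψ σ X`; `pd k c (a F) = a pd k c F` (`fderiv_const_mul` needs differentiability; for `F` not differentiable at `X` and `a ≠ 0` both sides are `0`; or use
  `fderiv_const_smul'`/`fderiv_fun_const_smul_of_invertible`; or only treat Lipschitz functions a.e. (`LipC.ae_diff`) - the lemmas are stated for `Adms` so that this is possible).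
* `EN_le_test`: if `nrm2 ψ = 0` then every `ψ σ` is continuous with `∫ (ψ σ)² = 0`, so `ψ = 0` (`integral_eq_zero_iff_of_nonneg`, `Continuous.ae_eq_iff_eq`) and `qf z ψ = 0`.
  Otherwise `scl (nrm2 ψ)^{-1/2} ψ` is in the set that defines `EN` (`csInf_le (EN_bddBelow z hz N)`).
* `exists_testM`: from a test function with `nrm2 ψ > 0` and `e > 0`: the set is not empty, `exists_lt_of_csInf_lt`.
-/

open MeasureTheory Metric Finset Filter Topology

noncomputable section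

namespace Ion

variable {N : ℕ}

/-- multiplication by a real number -/
def scl (a : ℝ) (ψ : RW N) : RW N := fun σ X => a * ψ σ X

theorem aux_MV2_anti {a : ℝ} {ψ : RW N} (h : Anti ψ) : Anti (scl a ψ) := by
  intro π σ X
  have h1 := h π σ X
  unfold scl
  rw [h1]
  ring

theorem scl_test {a : ℝ} {ψ : RW N} (h : IsTest ψ) : IsTest (scl a ψ) :=
  ⟨fun σ => contDiff_const.mul (h.1 σ), fun σ => (h.2.1 σ).mul_left, aux_MV2_anti h.2.2⟩

theorem scl_adms {a : ℝ} {ψ : RW N} (h : Adms ψ) : Adms (scl a ψ) :=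
  ⟨fun σ => (h.1 σ).const_mul a, aux_MV2_anti h.2⟩

theorem nrm2_scl (a : ℝ) (ψ : RW N) : nrm2 (scl a ψ) = a ^ 2 * nrm2 ψ := by
  unfold nrm2 scl
  rw [Finset.mul_sum]
  refine Finset.sum_congr rfl fun σ _ => ?_
  rw [← integral_const_mul]
  refine integral_congr_ae (Filter.Eventually.of_forall fun X => ?_)
  simp only
  ring

theorem aux_MV2_fderiv (a : ℝ) (F : Conf N → ℝ) (X : Conf N) :
    fderiv ℝ (fun X => a * F X) X = a • fderiv ℝ F X := by
  by_cases h : DifferentiableAt ℝ F X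
  · exact fderiv_const_mul h a
  · by_cases ha : a = 0
    · subst ha
      simp
    · have h2 : ¬ DifferentiableAt ℝ (fun X => a * F X) X := by
        intro h'
        apply h
        have h3 := h'.const_mul a⁻¹
        have h4 : (fun y => a⁻¹ * (a * F y)) = F := by
          funext y
          rw [← mul_assoc, inv_mul_cancel₀ ha, one_mul]
        rw [h4] at h3
        exact h3
      rw [fderiv_zero_of_not_differentiableAt h, smul_zero, fderiv_zero_of_not_differentiableAt h2]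

theorem aux_MV2_gsq (a : ℝ) (F : Conf N → ℝ) (k : Fin N) (X : Conf N) :
    gsq k (fun X => a * F X) X = a ^ 2 * gsq k F X := by
  unfold gsq pd
  rw [Finset.mul_sum]
  refine Finset.sum_congr rfl fun c _ => ?_
  rw [aux_MV2_fderiv]
  change (a * fderiv ℝ F X (Pi.single k (EuclideanSpace.single c (1 : ℝ)))) ^ 2 = _
  ring

theorem TT_scl (a : ℝ) {ψ : RW N} (h : Adms ψ) : TT (scl a ψ) = a ^ 2 * TT ψ := by
  unfold TT scl
  rw [Finset.mul_sum]
  refine Finset.sum_congr rfl fun σ _ => ?_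
  rw [← integral_const_mul]
  refine integral_congr_ae (Filter.Eventually.of_forall fun X => ?_)
  simp only
  rw [Finset.mul_sum]
  exact Finset.sum_congr rfl fun k _ => aux_MV2_gsq a (ψ σ) k X

theorem qf_scl (a z : ℝ) {ψ : RW N} (h : Adms ψ) : qf z (scl a ψ) = a ^ 2 * qf z ψ := by
  unfold qf
  rw [TT_scl a h, mul_add, Finset.mul_sum]
  congr 1
  refine Finset.sum_congr rfl fun σ _ => ?_
  rw [← integral_const_mul]
  refine integral_congr_ae (Filter.Eventually.of_forall fun X => ?_)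
  simp only [scl]
  ring

theorem aux_MV2_zero {ψ : RW N} (hψ : IsTest ψ) (h0 : nrm2 ψ = 0) : scl 0 ψ = ψ := by
  have h1 : ∀ σ, ∫ X, (ψ σ X) ^ 2 = 0 := by
    intro σ
    exact (Finset.sum_eq_zero_iff_of_nonneg fun σ _ => integral_nonneg fun X => sq_nonneg (ψ σ X)).1 h0 σ
      (mem_univ σ)
  funext σ X
  have hc : Continuous (ψ σ) := (hψ.1 σ).continuous
  have hi : Integrable (fun X => (ψ σ X) ^ 2) := (lipC_of_smooth (hψ.1 σ) (hψ.2.1 σ)).integrable_sq
  have h2 := (integral_eq_zero_iff_of_nonneg (fun X => sq_nonneg (ψ σ X)) hi).1 (h1 σ)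
  have h3 : (fun X => (ψ σ X) ^ 2) = 0 := (hc.pow 2).ae_eq_iff_eq volume continuous_zero |>.1 h2
  have h4 : (ψ σ X) ^ 2 = 0 := congrFun h3 X
  have h5 : ψ σ X = 0 := pow_eq_zero_iff (two_ne_zero) |>.1 h4
  unfold scl
  rw [h5, mul_zero]

theorem EN_le_test {z : ℝ} (hz : 0 < z) {ψ : RW N} (hψ : IsTest ψ) : EN z N * nrm2 ψ ≤ qf z ψ := by
  rcases (nrm2_nonnegM ψ).eq_or_lt with h0 | h0
  · have h1 := qf_scl 0 z hψ.admsM
    rw [aux_MV2_zero hψ h0.symm] at h1
    rw [← h0, mul_zero, h1]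
    simp
  · have hs : 0 < √(nrm2 ψ) := Real.sqrt_pos.2 h0
    have ha : ((√(nrm2 ψ))⁻¹) ^ 2 = (nrm2 ψ)⁻¹ := by
      rw [inv_pow, Real.sq_sqrt h0.le]
    have h1 : EN z N ≤ qf z (scl (√(nrm2 ψ))⁻¹ ψ) := by
      refine csInf_le (EN_bddBelow z hz N) ⟨_, scl_test hψ, ?_, rfl⟩
      rw [nrm2_scl, ha, inv_mul_cancel₀ h0.ne']
    rw [qf_scl _ z hψ.admsM, ha, inv_mul_eq_div, le_div_iff₀ h0] at h1
    exact h1

theorem exists_testM {z : ℝ} (hz : 0 < z) {ψ : RW N} (hψ : IsTest ψ) (h0 : 0 < nrm2 ψ) {e : ℝ} (he : 0 < e) :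
    ∃ χ : RW N, IsTest χ ∧ nrm2 χ = 1 ∧ qf z χ ≤ EN z N + e := by
  have ha : ((√(nrm2 ψ))⁻¹) ^ 2 = (nrm2 ψ)⁻¹ := by
    rw [inv_pow, Real.sq_sqrt h0.le]
  have hne : {e : ℝ | ∃ ψ : RW N, IsTest ψ ∧ nrm2 ψ = 1 ∧ e = qf z ψ}.Nonempty := by
    refine ⟨_, scl (√(nrm2 ψ))⁻¹ ψ, scl_test hψ, ?_, rfl⟩
    rw [nrm2_scl, ha, inv_mul_cancel₀ h0.ne']
  have hlt : sInf {e : ℝ | ∃ ψ : RW N, IsTest ψ ∧ nrm2 ψ = 1 ∧ e = qf z ψ} < EN z N + e := by
    change EN z N < EN z N + e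
    linarith
  obtain ⟨e', ⟨χ, h1, h2, h3⟩, h4⟩ := exists_lt_of_csInf_lt hne hlt
  exact ⟨χ, h1, h2, by rw [← h3]; exact h4.le⟩

end Ion
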