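import Pool.Agent.Lib.MP_69e010_mp.M.MK1
import Pool.Agent.Lib.MP_69e010_mp.M.MJ
import Pool.Agent.Lib.MP_69e010_mp.M.MV2

/-!
# JOB MK (stream M of MP_69e010_mp): the bottom of the spectrum is `EN`

* `ham_lower`: for test functions `re ⟪φ, H φ⟫ = qf re + qf im >= EN (nrm2 re + nrm2 im) = EN ‖φ‖²` (`inner_cl_H`, `norm_cl`, `EN_le_test`, `reW_test`, `imW_test`); for `x` in the domain take the
  sequence of `ham_core` and pass to the limit (`Filter.Tendsto.inner`, `le_of_tendsto_of_tendsto'`).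
* `ham_seq`: by `ham_core` there is a test function with `clM φ ≠ 0`, so the real or the imaginary part has `nrm2 > 0`; `exists_testM`; the class of `cpx χ` (`cpx_ct`, `reW_cpx`, `imW_cpx`,
  `norm_cl`, `inner_cl_H`; `nrm2 0 = 0`, `qf z 0 = 0`) is in the domain (`isHam_iff`).
* `EGS_eq`: `sInf_specR`.
-/

open MeasureTheory Filter Topology LinearPMap
open scoped ENNReal ComplexConjugate

noncomputable section

namespace Ion

variable {N : ℕ}
/-- the energy of a test function is bounded from below -/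
theorem aux_mk_lower {z : ℝ} (hz : 0 < z) (φ : CTest N) :
    EN z N * ‖clM N φ‖ ^ 2 ≤ (inner ℂ (clM N φ) ((clK N + clV z N) φ)).re := by
  rw [LinearMap.add_apply, inner_cl_H, norm_cl, Complex.ofReal_re, mul_add]
  exact add_le_add (EN_le_test hz (reW_test φ.2)) (EN_le_test hz (imW_test φ.2))

theorem ham_lower {z : ℝ} (hz : 0 < z) {A : Fer N →ₗ.[ℂ] Fer N} (hA : IsHam z N A) (x : A.domain) :
    EN z N * ‖(x : Fer N)‖ ^ 2 ≤ (inner ℂ (x : Fer N) (A x)).re := by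
  obtain ⟨s, hs1, hs2⟩ := ham_core hA x
  have h1 : Tendsto (fun n => EN z N * ‖clM N (s n)‖ ^ 2) atTop (𝓝 (EN z N * ‖(x : Fer N)‖ ^ 2)) :=
    ((hs1.norm).pow 2).const_mul _
  have h2 : Tendsto (fun n => (inner ℂ (clM N (s n)) ((clK N + clV z N) (s n))).re) atTop
      (𝓝 (inner ℂ (x : Fer N) (A x)).re) :=
    (Complex.continuous_re.tendsto _).comp (hs1.inner hs2)
  exact le_of_tendsto_of_tendsto' h1 h2 (fun n => aux_mk_lower hz (s n))

theorem aux_mk_nrm2_zero : nrm2 (fun _ _ => 0 : RW N) = 0 := by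
  unfold nrm2
  simp

theorem aux_mk_pd_zero (k : Fin N) (c : Fin 3) (X : Conf N) : pd k c (fun _ => (0 : ℝ)) X = 0 := by
  unfold pd
  rw [fderiv_fun_const]
  rfl

theorem aux_mk_TT_zero : TT (fun _ _ => 0 : RW N) = 0 := by
  unfold TT gsq
  simp only [aux_mk_pd_zero]
  simp

theorem aux_mk_qf_zero (z : ℝ) : qf z (fun _ _ => 0 : RW N) = 0 := by
  unfold qf
  rw [aux_mk_TT_zero]
  simp

theorem ham_seq {z : ℝ} (hz : 0 < z) {A : Fer N →ₗ.[ℂ] Fer N} (hA : IsHam z N A) {x : A.domain} (hx : (x : Fer N) ≠ 0)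
    {e : ℝ} (he : 0 < e) : ∃ x : A.domain, ‖(x : Fer N)‖ = 1 ∧ (inner ℂ (x : Fer N) (A x)).re ≤ EN z N + e := by
  obtain ⟨s, hs1, hs2⟩ := ham_core hA x
  -- a test function which is not zero
  have h1 : ∃ φ : CTest N, clM N φ ≠ 0 := by
    by_contra hcon
    push Not at hcon
    apply hx
    refine tendsto_nhds_unique hs1 ?_
    simp only [hcon]
    exact tendsto_const_nhds
  obtain ⟨φ, hφ⟩ := h1
  have h2 : 0 < nrm2 (reW φ.1) + nrm2 (imW φ.1) := by
    rw [← norm_cl]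
    exact pow_pos (norm_pos_iff.mpr hφ) 2
  have h3 : ∃ ψ : RW N, IsTest ψ ∧ 0 < nrm2 ψ := by
    by_cases h4 : 0 < nrm2 (reW φ.1)
    · exact ⟨_, reW_test φ.2, h4⟩
    · exact ⟨_, imW_test φ.2, by linarith⟩
  obtain ⟨ψ, hψ, hψ0⟩ := h3
  obtain ⟨χ, hχ, hχ1, hχ2⟩ := exists_testM hz hψ hψ0 he
  -- its class
  let η : CTest N := ⟨cpx χ, cpx_ct hχ⟩
  obtain ⟨y, hy1, hy2⟩ := ((isHam_iff z N A).mp hA).2 η
  refine ⟨y, ?_, ?_⟩
  · have h5 : ‖clM N η‖ ^ 2 = 1 := by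
      rw [norm_cl]
      show nrm2 (reW (cpx χ)) + nrm2 (imW (cpx χ)) = 1
      rw [reW_cpx, imW_cpx, aux_mk_nrm2_zero, hχ1, add_zero]
    rw [hy1]
    exact (pow_eq_one_iff_of_nonneg (norm_nonneg _) two_ne_zero).mp h5
  · rw [hy1, hy2, LinearMap.add_apply, inner_cl_H, Complex.ofReal_re]
    show qf z (reW (cpx χ)) + qf z (imW (cpx χ)) ≤ EN z N + e
    rw [reW_cpx, imW_cpx, aux_mk_qf_zero, add_zero]
    exact hχ2

theorem EGS_eq {z : ℝ} (hz : 0 < z) {A : Fer N →ₗ.[ℂ] Fer N} (hA : IsHam z N A) {x : A.domain} (hx : (x : Fer N) ≠ 0) :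
    sInf (specR A) = EN z N :=
  sInf_specR hA.sa (fun y => ham_lower hz hA y) (fun _ he => ham_seq hz hA hx he)

end Ion
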