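import Pool.Agent.Lib.MP_69e010_mp.M.MD
import Pool.Agent.Lib.MP_69e010_mp.M.MH
import Pool.Agent.Lib.MP_69e010_mp.M.MI

/-!
# JOB MK1 (stream M of MP_69e010_mp): the atomic Hamiltonian exists and is unique (Kato)

* `K_id`: `‖K φ + l φ‖² = ‖K φ‖² + 2 l (TT re + TT im) + l² ‖φ‖²` (`inner_cl_K`, `norm_add_sq`).
* `kato_const`: `‖V φ‖² <= C (TT re + TT im) <= C / (2 l) ‖K φ + l φ‖²` with `l := 2 C + 1` (`clV_le`, `TT_nonnegM`).
* `core_ham`: `kato_abstract` with `i = clM N`, `T = clK N`, `W = clV z N`, `a = 1/2`, `sym_K`, `sym_V`, `orth_zero`.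
* `isHam_iff`: equality of classes: `Subtype.ext`, `Lp.ext` with `cl_coe`, `clK_coe`, `clV_coe`, `Lp.coeFn_add`, `HF_eq`.
* `exists_unique_ham`: `exists_unique_sa` with `S = clK N + clV z N` (`sym_K`, `sym_V`, `orth_zero'`, `core_ham`).
* `ham_core`: `core_sa`.
-/

open MeasureTheory Filter Topology LinearPMap
open scoped ENNReal ComplexConjugate

noncomputable section

namespace Ion

variable {N : ℕ}
theorem K_id (l : ℝ) (φ : CTest N) : ‖clK N φ + (l : ℂ) • clM N φ‖ ^ 2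
    = ‖clK N φ‖ ^ 2 + 2 * l * (TT (reW φ.1) + TT (imW φ.1)) + l ^ 2 * ‖clM N φ‖ ^ 2 := by
  have h1 : inner ℂ (clK N φ) ((l : ℂ) • clM N φ) = ((l * (TT (reW φ.1) + TT (imW φ.1)) : ℝ) : ℂ) := by
    refine (inner_smul_right (clK N φ) (clM N φ) (l : ℂ)).trans ?_
    rw [← inner_conj_symm, inner_cl_K, Complex.conj_ofReal, ← Complex.ofReal_mul]
  have h2 : ‖(l : ℂ) • clM N φ‖ ^ 2 = l ^ 2 * ‖clM N φ‖ ^ 2 := by
    rw [norm_smul, Complex.norm_real, Real.norm_eq_abs, mul_pow, sq_abs]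
  have h3 := norm_add_sq (𝕜 := ℂ) (clK N φ) ((l : ℂ) • clM N φ)
  rw [h1, h2] at h3
  rw [h3]
  have h4 : RCLike.re ((l * (TT (reW φ.1) + TT (imW φ.1)) : ℝ) : ℂ) = l * (TT (reW φ.1) + TT (imW φ.1)) :=
    Complex.ofReal_re _
  rw [h4]
  ring

theorem kato_const (z : ℝ) (N : ℕ) : ∃ l : ℝ, 0 < l ∧
    (∀ φ : CTest N, l * ‖clM N φ‖ ≤ ‖clK N φ + (l : ℂ) • clM N φ‖) ∧
    ∀ φ : CTest N, ‖clV z N φ‖ ≤ (1 / 2 : ℝ) * ‖clK N φ + (l : ℂ) • clM N φ‖ := by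
  obtain ⟨C, hC, hV⟩ := clV_le z N
  refine ⟨2 * C + 1, by linarith, fun φ => ?_, fun φ => ?_⟩
  · have h1 := K_id (2 * C + 1) φ
    have h2 := TT_nonnegM (reW φ.1)
    have h3 := TT_nonnegM (imW φ.1)
    have h4 : ((2 * C + 1) * ‖clM N φ‖) ^ 2 ≤ ‖clK N φ + ((2 * C + 1 : ℝ) : ℂ) • clM N φ‖ ^ 2 := by
      rw [h1, mul_pow]
      have h5 : 0 ≤ 2 * (2 * C + 1) * (TT (reW φ.1) + TT (imW φ.1)) := by positivity
      have h6 : 0 ≤ ‖clK N φ‖ ^ 2 := by positivity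
      linarith
    exact (pow_le_pow_iff_left₀ (by positivity) (norm_nonneg _) two_ne_zero).1 h4
  · have h1 := K_id (2 * C + 1) φ
    have h2 := TT_nonnegM (reW φ.1)
    have h3 := TT_nonnegM (imW φ.1)
    have h4 : ‖clV z N φ‖ ^ 2 ≤ ((1 / 2 : ℝ) * ‖clK N φ + ((2 * C + 1 : ℝ) : ℂ) • clM N φ‖) ^ 2 := by
      rw [mul_pow, h1]
      have h5 : 0 ≤ (2 * C + 1) ^ 2 * ‖clM N φ‖ ^ 2 := by positivity
      have h6 : 0 ≤ ‖clK N φ‖ ^ 2 := by positivity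
      have h7 := hV φ
      have h8 : 0 ≤ TT (reW φ.1) + TT (imW φ.1) := by linarith
      nlinarith
    exact (pow_le_pow_iff_left₀ (norm_nonneg _) (by positivity) two_ne_zero).1 h4

theorem core_ham (z : ℝ) (N : ℕ) (u v : Fer N)
    (h : ∀ φ : CTest N, inner ℂ ((clK N + clV z N) φ) u = inner ℂ (clM N φ) v) :
    ∃ x : ℕ → CTest N, Tendsto (fun n => clM N (x n)) atTop (𝓝 u) ∧
      Tendsto (fun n => (clK N + clV z N) (x n)) atTop (𝓝 v) := by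
  obtain ⟨l, hl, h1, h2⟩ := kato_const z N
  exact kato_abstract (clM N) (clK N) (clV z N) hl (by norm_num : (1 / 2 : ℝ) < 1) (by norm_num) sym_K (sym_V z)
    h1 h2 (fun f hf => orth_zero N hl f hf) u v h

theorem aux_MK1_coe (z : ℝ) (φ : CTest N) :
    ((((clK N + clV z N) φ : Fer N) : L2 N) : Om N → ℂ) =ᵐ[mu N] HF z φ.1 := by
  have h1 : (((clK N + clV z N) φ : Fer N) : L2 N) = (clK N φ : L2 N) + (clV z N φ : L2 N) := rfl
  rw [h1]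
  filter_upwards [Lp.coeFn_add (clK N φ : L2 N) (clV z N φ : L2 N), clK_coe φ, clV_coe z φ] with ω a1 a2 a3
  rw [a1, Pi.add_apply, a2, a3, HF_eq]

theorem isHam_iff (z : ℝ) (N : ℕ) (A : Fer N →ₗ.[ℂ] Fer N) :
    IsHam z N A ↔ IsSelfAdjoint A ∧ ∀ φ : CTest N, ∃ y : A.domain, (y : Fer N) = clM N φ ∧ A y = (clK N + clV z N) φ := by
  constructor
  · intro hA
    refine ⟨hA.sa, fun φ => ?_⟩
    obtain ⟨x, hx, hAx⟩ := hA.ext φ.1 φ.2
    refine ⟨x, ?_, ?_⟩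
    · exact Subtype.ext (Lp.ext (hx.trans (cl_coe φ).symm))
    · exact Subtype.ext (Lp.ext (hAx.trans (aux_MK1_coe z φ).symm))
  · rintro ⟨h1, h2⟩
    refine ⟨h1, fun φ hφ => ?_⟩
    obtain ⟨y, hy, hAy⟩ := h2 ⟨φ, hφ⟩
    refine ⟨y, ?_, ?_⟩
    · rw [hy]
      exact cl_coe ⟨φ, hφ⟩
    · rw [hAy]
      exact aux_MK1_coe z ⟨φ, hφ⟩

/-- **Kato's theorem for atoms** -/
theorem exists_unique_ham (z : ℝ) (N : ℕ) : ∃! A : Fer N →ₗ.[ℂ] Fer N, IsHam z N A := by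
  have h := exists_unique_sa (i := clM N) (S := clK N + clV z N)
    (fun x y => by
      rw [LinearMap.add_apply, LinearMap.add_apply, inner_add_left, inner_add_right, sym_K, sym_V])
    (orth_zero' N) (core_ham z N)
  simpa only [isHam_iff] using h

theorem ham_core {z : ℝ} {A : Fer N →ₗ.[ℂ] Fer N} (hA : IsHam z N A) (y : A.domain) :
    ∃ x : ℕ → CTest N, Tendsto (fun n => clM N (x n)) atTop (𝓝 (y : Fer N)) ∧
      Tendsto (fun n => (clK N + clV z N) (x n)) atTop (𝓝 (A y)) :=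
  core_sa (core_ham z N) hA.sa ((isHam_iff z N A).1 hA).2 y

end Ion
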