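import Pool.Agent.Lib.MP_69e010_mp.M.MN1
import Pool.Agent.Lib.MP_69e010_mp.M.MV2

/-!
# JOB MN2 (stream M of MP_69e010_mp): the infimum over the test functions bounds all Lipschitz functions

`ψ_n σ := mol ρ_n (ψ σ)` with a kernel of radius `r_n = 1/(n+1)` (`exists_kernel`).  `ψ_n` is a test function: smooth (`mol_smooth`), compact support (`mol_supp`), antisymmetric:
`mol ρ (ψ (σ ∘ π)) (X ∘ π) = ∫ ρ (X ∘ π - Y) ψ (σ ∘ π) Y dY = ∫ ρ (X ∘ π - Y' ∘ π) ψ (σ ∘ π) (Y' ∘ π) dY'` (`volume_measurePreserving_piCongrLeft`, see `mp_perm` in MDefs.lean for the pattern).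
`TT ψ_n <= TT ψ` (`gsq_mol_le`).  `nrm2 ψ_n → nrm2 ψ` and `∫ V z (ψ_n σ)² → ∫ V z (ψ σ)²`: all functions vanish outside a fixed ball, are bounded by a constant `C`, and converge uniformly
(`mol_lip`), so `|(ψ_n σ)² - (ψ σ)²| <= 2 C K r_n 1_{ball}`, and `|V z| 1_{ball}` is integrable (`integrable_inv_mul`, `integrable_inv_mul_pair` in H/HC2.lean with `G` = indicator of the ball), or dominated
convergence (`tendsto_integral_of_dominated_convergence`).  `EN_le_test` for `ψ_n`: `EN * nrm2 ψ_n <= qf z ψ_n <= TT ψ + ∑_σ ∫ V z (ψ_n σ)²`; let `n → ∞`.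
-/

open MeasureTheory Metric Filter Topology
open scoped ENNReal

noncomputable section

namespace Ion

variable {N : ℕ}

theorem aux_MN2_perm (π : Equiv.Perm (Fin N)) (G : Conf N → ℝ) : ∫ Y : Conf N, G (Y ∘ π) = ∫ Y : Conf N, G Y := by
  have h := volume_measurePreserving_piCongrLeft (fun _ : Fin N => E3) (π.symm : Fin N ≃ Fin N)
  have h1 : ⇑(MeasurableEquiv.piCongrLeft (fun _ : Fin N => E3) (π.symm : Fin N ≃ Fin N))
      = fun ω : Conf N => ω ∘ π := by
    funext ω i
    have h2 := MeasurableEquiv.piCongrLeft_apply_apply (π.symm : Fin N ≃ Fin N) (β := fun _ : Fin N => E3)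
      ω (π i)
    rw [Equiv.symm_apply_apply] at h2
    exact h2
  have h3 := h.integral_comp' (g := G)
  rw [h1] at h3
  exact h3

theorem aux_MN2_rad {F : Conf N → ℝ} (hF : HasCompactSupport F) : ∃ R : ℝ, 0 ≤ R ∧ ∀ X, F X ≠ 0 → ‖X‖ ≤ R := by
  obtain ⟨R, hR⟩ := hF.isBounded.subset_closedBall (0 : Conf N)
  refine ⟨max R 0, le_max_right _ _, fun X hX => ?_⟩
  have h1 : X ∈ tsupport F := subset_tsupport F hX
  have h2 := hR h1
  rw [mem_closedBall_zero_iff] at h2
  exact h2.trans (le_max_left _ _)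

theorem aux_MN2_loc {F : Conf N → ℝ} (hF : LipC F) : LocallyIntegrable F :=
  hF.cont.locallyIntegrable

theorem mol_test {r : ℝ} {ρ : Conf N → ℝ} (hρ : IsKer r ρ) {ψ : RW N} (hψ : Adms ψ) :
    IsTest (fun σ => mol ρ (ψ σ)) := by
  refine ⟨fun σ => mol_smooth hρ.smooth hρ.supp (aux_MN2_loc (hψ.1 σ)), fun σ => ?_, ?_⟩
  · obtain ⟨R, -, hR⟩ := aux_MN2_rad (hψ.1 σ).2
    refine HasCompactSupport.of_support_subset_isCompact (isCompact_closedBall (0 : Conf N) (R + r)) ?_
    intro X hX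
    rw [mem_closedBall_zero_iff]
    exact mol_supp hρ hR X hX
  · intro π σ X
    show mol ρ (ψ (σ ∘ π)) (X ∘ π) = _ * mol ρ (ψ σ) X
    unfold mol
    rw [← aux_MN2_perm π, ← integral_const_mul]
    refine integral_congr_ae (Eventually.of_forall fun Y => ?_)
    show ρ (X ∘ π - Y ∘ π) * ψ (σ ∘ π) (Y ∘ π) = _
    have e : X ∘ π - Y ∘ π = (X - Y) ∘ π := rfl
    rw [e, hρ.perm, hψ.2]
    ring

/-- convergence of weighted integrals of the squares of the mollified functions -/
theorem mol_weight {F W : Conf N → ℝ} (hF : LipC F) (hW : Measurable W)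
    (hWi : ∀ R : ℝ, Integrable (fun X => W X * (closedBall (0 : Conf N) R).indicator (fun _ => (1 : ℝ)) X))
    {ρ : ℕ → Conf N → ℝ} (hρ : ∀ n : ℕ, IsKer (1 / ((n : ℝ) + 1)) (ρ n)) :
    Tendsto (fun n => ∫ X, W X * (mol (ρ n) F X) ^ 2) atTop (𝓝 (∫ X, W X * (F X) ^ 2)) := by
  obtain ⟨R, hR0, hR⟩ := aux_MN2_rad hF.2
  obtain ⟨C, hC0, hC⟩ := hF.bdd
  obtain ⟨K, hK⟩ := hF.1
  have hr0 : ∀ n : ℕ, (0 : ℝ) ≤ 1 / ((n : ℝ) + 1) := fun n => by positivity
  have hr1 : ∀ n : ℕ, 1 / ((n : ℝ) + 1) ≤ 1 := fun n => by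
    rw [div_le_one (by positivity)]
    have : (0 : ℝ) ≤ n := Nat.cast_nonneg n
    linarith
  have hlip : ∀ (n : ℕ) (X : Conf N), |mol (ρ n) F X - F X| ≤ K * (1 / ((n : ℝ) + 1)) := fun n X =>
    mol_lip (hr0 n) (hρ n) hK X
  have hb : ∀ (n : ℕ) (X : Conf N), |mol (ρ n) F X| ≤ C + K := by
    intro n X
    have h1 := hlip n X
    have h2 := hC X
    have h3 : (K : ℝ) * (1 / ((n : ℝ) + 1)) ≤ K * 1 := mul_le_mul_of_nonneg_left (hr1 n) K.2
    have h4 := abs_sub_abs_le_abs_sub (mol (ρ n) F X) (F X)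
    linarith
  have hout : ∀ (n : ℕ) (X : Conf N), X ∉ closedBall (0 : Conf N) (R + 1) → mol (ρ n) F X = 0 := by
    intro n X hX
    by_contra h
    apply hX
    rw [mem_closedBall_zero_iff]
    exact (mol_supp (hρ n) hR X h).trans (by linarith [hr1 n])
  refine tendsto_integral_of_dominated_convergence
    (fun X => (C + K) ^ 2 * |W X * (closedBall (0 : Conf N) (R + 1)).indicator (fun _ => (1 : ℝ)) X|) ?_ ?_ ?_ ?_
  · intro n
    have h1 : Continuous (mol (ρ n) F) := (mol_smooth (hρ n).smooth (hρ n).supp (aux_MN2_loc hF)).continuous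
    exact (hW.mul (h1.measurable.pow_const 2)).aestronglyMeasurable
  · exact ((hWi (R + 1)).abs).const_mul _
  · intro n
    refine Eventually.of_forall fun X => ?_
    by_cases hX : X ∈ closedBall (0 : Conf N) (R + 1)
    · rw [Set.indicator_of_mem hX, mul_one, Real.norm_eq_abs, abs_mul, abs_pow, mul_comm]
      exact mul_le_mul_of_nonneg_right (pow_le_pow_left₀ (abs_nonneg _) (hb n X) 2) (abs_nonneg _)
    · rw [hout n X hX, Set.indicator_of_notMem hX]
      simp
  · refine Eventually.of_forall fun X => ?_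
    have h1 : Tendsto (fun n => mol (ρ n) F X) atTop (𝓝 (F X)) := by
      rw [tendsto_iff_norm_sub_tendsto_zero]
      have h2 : Tendsto (fun n : ℕ => (K : ℝ) * (1 / ((n : ℝ) + 1))) atTop (𝓝 (K * 0)) :=
        tendsto_one_div_add_atTop_nhds_zero_nat.const_mul _
      rw [mul_zero] at h2
      exact squeeze_zero (fun n => norm_nonneg _) (fun n => hlip n X) h2
    exact (h1.pow 2).const_mul (W X)

theorem aux_MN2_meas (z : ℝ) : Measurable (V z : Conf N → ℝ) := by
  unfold V Vee Ven
  refine Measurable.sub ?_ (Measurable.const_mul ?_ z)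
  · refine Finset.measurable_fun_sum _ fun i _ => Finset.measurable_fun_sum _ fun j _ => ?_
    exact ((measurable_pi_apply i).sub (measurable_pi_apply j)).norm.inv
  · refine Finset.measurable_fun_sum _ fun i _ => ?_
    exact (measurable_pi_apply i).norm.inv

theorem aux_MN2_int (z R : ℝ) :
    Integrable (fun X : Conf N => V z X * (closedBall (0 : Conf N) R).indicator (fun _ => (1 : ℝ)) X) := by
  set G : Conf N → ℝ := fun X => (closedBall (0 : Conf N) R).indicator (fun _ => (1 : ℝ)) X with hG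
  have hGm : Measurable G := measurable_const.indicator measurableSet_closedBall
  have hGb : ∀ X, |G X| ≤ 1 := by
    intro X
    rw [hG]
    by_cases hX : X ∈ closedBall (0 : Conf N) R
    · simp only [Set.indicator_of_mem hX, abs_one, le_refl]
    · simp only [Set.indicator_of_notMem hX, abs_zero, zero_le_one]
  have hGs : ∀ X, X ∉ closedBall (0 : Conf N) R → G X = 0 := fun X hX => Set.indicator_of_notMem hX _
  have hc : IsCompact (closedBall (0 : Conf N) R) := isCompact_closedBall _ _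
  have h1 : Integrable (fun X : Conf N => ∑ i, ∑ j ∈ Finset.univ.filter (fun j => i < j), ‖X i - X j‖⁻¹ * G X) := by
    refine integrable_finsetSum _ fun i _ => integrable_finsetSum _ fun j hj => ?_
    exact integrable_inv_mul_pair hGm hGb hc hGs (ne_of_lt (Finset.mem_filter.1 hj).2)
  have h2 : Integrable (fun X : Conf N => ∑ i, ‖X i‖⁻¹ * G X) := by
    refine integrable_finsetSum _ fun i _ => ?_
    exact integrable_inv_mul hGm hGb hc hGs i
  refine (h1.sub (h2.const_mul z)).congr (Eventually.of_forall fun X => ?_)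
  show _ - z * _ = V z X * G X
  unfold V Vee Ven
  rw [sub_mul, mul_assoc, Finset.sum_mul, Finset.sum_mul]
  congr 1
  exact Finset.sum_congr rfl fun i _ => by rw [Finset.sum_mul]

/-- mollification: the infimum over `C_c^∞` bounds all Lipschitz functions -/
theorem EN_le {z : ℝ} (hz : 0 < z) {ψ : RW N} (hψ : Adms ψ) : EN z N * nrm2 ψ ≤ qf z ψ := by
  have hk : ∀ n : ℕ, ∃ ρ : Conf N → ℝ, IsKer (1 / ((n : ℝ) + 1)) ρ := fun n => exists_kernel N (by positivity)
  choose ρ hρ using hk
  have hone : ∀ R : ℝ, Integrable (fun X : Conf N => (1 : ℝ) * (closedBall (0 : Conf N) R).indicator (fun _ => (1 : ℝ)) X) := by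
    intro R
    simp only [one_mul]
    refine integrable_of_bdd_supp (C := 1) (S := closedBall (0 : Conf N) R) (measurable_const.indicator measurableSet_closedBall) ?_
      (isCompact_closedBall _ _) (fun X hX => Set.indicator_of_notMem hX _)
    intro X
    by_cases hX : X ∈ closedBall (0 : Conf N) R
    · simp only [Set.indicator_of_mem hX, abs_one, le_refl]
    · simp only [Set.indicator_of_notMem hX, abs_zero, zero_le_one]
  have h1 : Tendsto (fun n => nrm2 (fun σ => mol (ρ n) (ψ σ))) atTop (𝓝 (nrm2 ψ)) := by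
    unfold nrm2
    refine tendsto_finsetSum _ fun σ _ => ?_
    have h := mol_weight (hψ.1 σ) (measurable_const (a := (1 : ℝ))) hone hρ
    simp only [one_mul] at h
    exact h
  have h2 : Tendsto (fun n => TT ψ + ∑ σ, ∫ X, V z X * (mol (ρ n) (ψ σ) X) ^ 2) atTop (𝓝 (qf z ψ)) := by
    unfold qf
    refine tendsto_const_nhds.add (tendsto_finsetSum _ fun σ _ => ?_)
    exact mol_weight (hψ.1 σ) (aux_MN2_meas z) (aux_MN2_int z) hρ
  refine le_of_tendsto_of_tendsto' (h1.const_mul (EN z N)) h2 fun n => ?_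
  have ht := mol_test (hρ n) hψ
  refine (EN_le_test hz ht).trans ?_
  unfold qf
  refine add_le_add ?_ le_rfl
  unfold TT
  refine Finset.sum_le_sum fun σ _ => ?_
  have ha := (ht.admsM).1 σ
  rw [integral_finsetSum _ (fun k _ => ha.integrable_gsq k), integral_finsetSum _ (fun k _ => (hψ.1 σ).integrable_gsq k)]
  exact Finset.sum_le_sum fun k _ => gsq_mol_le (hρ n) (hψ.1 σ) k

end Ion
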