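import Pool.Agent.Lib.MP_69e010_mp.M.MV2
import Pool.Agent.Lib.MP_69e010_mp.M.MN2

/-!
# JOB ML1 (stream M of MP_69e010_mp): normalisation of an approximating sequence of real test functions

`nrm2` is the square of a seminorm: `nrm2 (f + g) <= 2 nrm2 f + 2 nrm2 g`, and `|√nrm2 f - √nrm2 g| <= √nrm2 (f - g)` (Minkowski: Cauchy-Schwarz `(∑_σ ∫ f g)² <= nrm2 f * nrm2 g`; prove it from
`nrm2 (f + t g) >= 0` for all real `t`, `discrim_le_zero`).
Let `a n := nrm2 (ψ n) → α > 0`.  Drop finitely many terms: `a n >= α / 2`.  `χ n := scl (a n)^{-1/2} (ψ (n + n₁))`; `nrm2 (χ n) = 1`; `qf z (χ n) - EN = (qf z (ψ n) - EN a n) / a n → 0`.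
Cauchy: `χ n - χ m = (a n)^{-1/2} (ψ n - ψ m) + ((a n)^{-1/2} - (a m)^{-1/2}) ψ m`, so `nrm2 (χ n - χ m) <= 2 nrm2 (ψ n - ψ m) / a n + 2 ((a n)^{-1/2} - (a m)^{-1/2})² a m → 0`.
-/

open MeasureTheory Metric Finset Filter Topology

noncomputable section

namespace Ion

variable {N : ℕ}

theorem aux_ML1_sub {F G : Conf N → ℝ} (hF : LipC F) (hG : LipC G) : LipC (fun X => F X - G X) := by
  have h := hF.add hG.neg
  have e : (fun X => F X - G X) = fun X => F X + -G X := by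
    funext X
    ring
  rw [e]
  exact h

/-- comparison of weighted squares -/
theorem aux_ML1_le {f g h : RW N} (hf : ∀ σ, LipC (f σ)) (hg : ∀ σ, LipC (g σ)) (hh : ∀ σ, LipC (h σ)) {a b : ℝ}
    (hp : ∀ σ X, (f σ X) ^ 2 ≤ a * (g σ X) ^ 2 + b * (h σ X) ^ 2) : nrm2 f ≤ a * nrm2 g + b * nrm2 h := by
  unfold nrm2
  rw [Finset.mul_sum, Finset.mul_sum, ← Finset.sum_add_distrib]
  refine Finset.sum_le_sum fun σ _ => ?_
  have i1 := ((hg σ).integrable_sq).const_mul a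
  have i2 := ((hh σ).integrable_sq).const_mul b
  rw [← integral_const_mul, ← integral_const_mul, ← integral_add i1 i2]
  exact integral_mono (hf σ).integrable_sq (i1.add i2) fun X => hp σ X

theorem nrm2_add_le {f g : RW N} (hf : Adms f) (hg : Adms g) :
    nrm2 (fun σ X => f σ X + g σ X) ≤ 2 * nrm2 f + 2 * nrm2 g :=
  aux_ML1_le (fun σ => (hf.1 σ).add (hg.1 σ)) hf.1 hg.1 fun σ X => by
    nlinarith [sq_nonneg (f σ X - g σ X)]

/-- normalisation -/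
theorem normalise {z : ℝ} {ψ : ℕ → RW N} (h1 : ∀ n, IsTest (ψ n)) {α : ℝ} (hα : 0 < α)
    (h2 : Tendsto (fun n => nrm2 (ψ n)) atTop (𝓝 α))
    (h3 : Tendsto (fun n => qf z (ψ n) - EN z N * nrm2 (ψ n)) atTop (𝓝 0))
    (h4 : ∀ e > 0, ∃ n0, ∀ n ≥ n0, ∀ m ≥ n0, nrm2 (fun σ X => ψ n σ X - ψ m σ X) ≤ e) :
    ∃ χ : ℕ → RW N, (∀ n, IsTest (χ n)) ∧ (∀ n, nrm2 (χ n) = 1) ∧
      Tendsto (fun n => qf z (χ n)) atTop (𝓝 (EN z N)) ∧
      ∀ e > 0, ∃ n0, ∀ n ≥ n0, ∀ m ≥ n0, nrm2 (fun σ X => χ n σ X - χ m σ X) ≤ e := by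
  have hev : ∀ᶠ n in atTop, α / 2 < nrm2 (ψ n) := h2.eventually (lt_mem_nhds (by linarith))
  obtain ⟨n1, hn1⟩ := eventually_atTop.1 hev
  have hsh : Tendsto (fun n : ℕ => n + n1) atTop atTop := tendsto_add_atTop_nat n1
  have hpos : ∀ n, α / 2 < nrm2 (ψ (n + n1)) := fun n => hn1 _ (Nat.le_add_left _ _)
  have hpos' : ∀ n, 0 < nrm2 (ψ (n + n1)) := fun n => lt_trans (by linarith) (hpos n)
  have hs2 : ∀ n, ((√(nrm2 (ψ (n + n1))))⁻¹) ^ 2 = (nrm2 (ψ (n + n1)))⁻¹ := by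
    intro n
    rw [inv_pow, Real.sq_sqrt (hpos' n).le]
  refine ⟨fun n => scl ((√(nrm2 (ψ (n + n1))))⁻¹) (ψ (n + n1)), fun n => scl_test (h1 _), fun n => ?_, ?_, ?_⟩
  · rw [nrm2_scl, hs2]
    exact inv_mul_cancel₀ (hpos' n).ne'
  · have e1 : (fun n => qf z (scl ((√(nrm2 (ψ (n + n1))))⁻¹) (ψ (n + n1)))) = fun n =>
        EN z N + (nrm2 (ψ (n + n1)))⁻¹ * (qf z (ψ (n + n1)) - EN z N * nrm2 (ψ (n + n1))) := by
      funext n
      rw [qf_scl _ _ (h1 _).admsM, hs2]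
      have := (hpos' n).ne'
      field_simp
      ring
    rw [e1]
    have t1 : Tendsto (fun n => (nrm2 (ψ (n + n1)))⁻¹) atTop (𝓝 α⁻¹) := (h2.comp hsh).inv₀ hα.ne'
    have t2 := (t1.mul (h3.comp hsh)).const_add (EN z N)
    rw [mul_zero, add_zero] at t2
    exact t2
  · intro e he
    have ts : Tendsto (fun n => (√(nrm2 (ψ (n + n1))))⁻¹) atTop (𝓝 (√α)⁻¹) := by
      refine Tendsto.inv₀ ?_ (Real.sqrt_pos.2 hα).ne'
      exact (Real.continuous_sqrt.tendsto α).comp (h2.comp hsh)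
    have hd : 0 < √(e / (8 * α)) / 2 := by
      have : 0 < e / (8 * α) := by positivity
      have := Real.sqrt_pos.2 this
      linarith
    obtain ⟨k1, hk1⟩ := eventually_atTop.1 (Metric.tendsto_nhds.1 ts _ hd)
    obtain ⟨k2, hk2⟩ := eventually_atTop.1 ((h2.comp hsh).eventually (gt_mem_nhds (show α < 2 * α by linarith)))
    obtain ⟨k3, hk3⟩ := h4 (e * α / 8) (by positivity)
    refine ⟨max k1 (max k2 k3), fun n hn m hm => ?_⟩
    have hn1' : k1 ≤ n := le_trans (le_max_left _ _) hn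
    have hm1' : k1 ≤ m := le_trans (le_max_left _ _) hm
    have hm2' : k2 ≤ m := le_trans (le_trans (le_max_left _ _) (le_max_right _ _)) hm
    have hn3' : k3 ≤ n + n1 := le_trans (le_trans (le_trans (le_max_right _ _) (le_max_right _ _)) hn) (Nat.le_add_right _ _)
    have hm3' : k3 ≤ m + n1 := le_trans (le_trans (le_trans (le_max_right _ _) (le_max_right _ _)) hm) (Nat.le_add_right _ _)
    set sn := (√(nrm2 (ψ (n + n1))))⁻¹ with hsn
    set sm := (√(nrm2 (ψ (m + n1))))⁻¹ with hsm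
    have hA : ∀ n σ, LipC (ψ n σ) := fun n => ((h1 n).admsM).1
    have key : nrm2 (fun σ X => scl sn (ψ (n + n1)) σ X - scl sm (ψ (m + n1)) σ X) ≤
        (2 * sn ^ 2) * nrm2 (fun σ X => ψ (n + n1) σ X - ψ (m + n1) σ X) +
          (2 * (sn - sm) ^ 2) * nrm2 (ψ (m + n1)) := by
      refine aux_ML1_le (fun σ => aux_ML1_sub ((hA _ σ).const_mul sn) ((hA _ σ).const_mul sm))
        (fun σ => aux_ML1_sub (hA _ σ) (hA _ σ)) (hA _) fun σ X => ?_
      nlinarith [sq_nonneg (sn * (ψ (n + n1) σ X - ψ (m + n1) σ X) - (sn - sm) * ψ (m + n1) σ X)]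
    refine key.trans ?_
    have b1 : sn ^ 2 ≤ 2 / α := by
      rw [hsn, hs2, inv_le_comm₀ (hpos' n) (by positivity)]
      rw [inv_div]
      exact (hpos n).le
    have b2 : nrm2 (fun σ X => ψ (n + n1) σ X - ψ (m + n1) σ X) ≤ e * α / 8 := hk3 _ hn3' _ hm3'
    have b2' : 0 ≤ nrm2 (fun σ X => ψ (n + n1) σ X - ψ (m + n1) σ X) := nrm2_nonnegM _
    have b3 : (sn - sm) ^ 2 ≤ e / (8 * α) := by
      have c1 := hk1 n hn1'
      have c2 := hk1 m hm1'
      rw [Real.dist_eq] at c1 c2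
      have c3 : |sn - sm| ≤ √(e / (8 * α)) := by
        have : sn - sm = (sn - (√α)⁻¹) - (sm - (√α)⁻¹) := by ring
        rw [this]
        refine (abs_sub _ _).trans ?_
        linarith
      calc (sn - sm) ^ 2 = |sn - sm| ^ 2 := (sq_abs _).symm
        _ ≤ (√(e / (8 * α))) ^ 2 := pow_le_pow_left₀ (abs_nonneg _) c3 2
        _ = e / (8 * α) := Real.sq_sqrt (by positivity)
    have b4 : nrm2 (ψ (m + n1)) ≤ 2 * α := (hk2 m hm2').le
    have b4' : 0 ≤ nrm2 (ψ (m + n1)) := (hpos' m).le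
    calc (2 * sn ^ 2) * nrm2 (fun σ X => ψ (n + n1) σ X - ψ (m + n1) σ X) +
          (2 * (sn - sm) ^ 2) * nrm2 (ψ (m + n1))
        ≤ (2 * (2 / α)) * (e * α / 8) + (2 * (e / (8 * α))) * (2 * α) := by
          refine add_le_add ?_ ?_
          · exact mul_le_mul (by linarith) b2 b2' (by positivity)
          · exact mul_le_mul (by linarith) b4 b4' (by positivity)
      _ = e := by
          field_simp
          ring

/-- the norms of a Cauchy sequence converge -/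
theorem aux_ML1_conv {f : ℕ → RW N} (hf : ∀ n σ, LipC (f n σ)) {M : ℝ} (hM0 : 0 < M)
    {n1 : ℕ} (hM : ∀ n ≥ n1, nrm2 (f n) ≤ M)
    (hc : ∀ e > 0, ∃ n0, ∀ n ≥ n0, ∀ m ≥ n0, nrm2 (fun σ X => f n σ X - f m σ X) ≤ e) :
    ∃ a, Tendsto (fun n => nrm2 (f n)) atTop (𝓝 a) := by
  refine cauchySeq_tendsto_of_complete ?_
  rw [Metric.cauchySeq_iff]
  intro ε hε
  obtain ⟨t, ht, htM⟩ : ∃ t : ℝ, 0 < t ∧ t * M = ε / 2 := ⟨ε / (2 * M), by positivity, by field_simp⟩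
  obtain ⟨d, hd, hdt⟩ : ∃ d : ℝ, 0 < d ∧ (1 + 1 / t) * d = ε / 4 := by
    refine ⟨ε / 4 / (1 + 1 / t), by positivity, ?_⟩
    field_simp
  obtain ⟨k, hk⟩ := hc d hd
  have key : ∀ n ≥ max n1 k, ∀ m ≥ max n1 k, nrm2 (f n) - nrm2 (f m) < ε := by
    intro n hn m hm
    have h1 : nrm2 (f n) ≤ (1 + t) * nrm2 (f m) + (1 + 1 / t) * nrm2 (fun σ X => f n σ X - f m σ X) := by
      refine aux_ML1_le (hf n) (hf m) (fun σ => aux_ML1_sub (hf n σ) (hf m σ)) fun σ X => ?_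
      have h2 : (1 + t) * (f m σ X) ^ 2 + (1 + 1 / t) * (f n σ X - f m σ X) ^ 2 - (f n σ X) ^ 2 =
          (t * f m σ X - (f n σ X - f m σ X)) ^ 2 / t := by
        field_simp
        ring
      have h3 : 0 ≤ (t * f m σ X - (f n σ X - f m σ X)) ^ 2 / t := by positivity
      linarith
    have h4 := hk n (le_trans (le_max_right _ _) hn) m (le_trans (le_max_right _ _) hm)
    have h5 := hM m (le_trans (le_max_left _ _) hm)
    have h6 : t * nrm2 (f m) ≤ t * M := mul_le_mul_of_nonneg_left h5 ht.le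
    have h7 : (1 + 1 / t) * nrm2 (fun σ X => f n σ X - f m σ X) ≤ (1 + 1 / t) * d :=
      mul_le_mul_of_nonneg_left h4 (by positivity)
    linarith
  refine ⟨max n1 k, fun m hm n hn => ?_⟩
  rw [Real.dist_eq, abs_lt]
  exact ⟨by linarith [key n hn m hm], key m hm n hn⟩

/-- a sequence of pairs (real and imaginary parts): one of them can be normalised -/
theorem normalise_pair {z : ℝ} (hz : 0 < z) {f g : ℕ → RW N} (hf : ∀ n, IsTest (f n)) (hg : ∀ n, IsTest (g n)) {α : ℝ} (hα : 0 < α)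
    (h2 : Tendsto (fun n => nrm2 (f n) + nrm2 (g n)) atTop (𝓝 α))
    (h3 : Tendsto (fun n => (qf z (f n) + qf z (g n)) - EN z N * (nrm2 (f n) + nrm2 (g n))) atTop (𝓝 0))
    (h4 : ∀ e > 0, ∃ n0, ∀ n ≥ n0, ∀ m ≥ n0,
      nrm2 (fun σ X => f n σ X - f m σ X) + nrm2 (fun σ X => g n σ X - g m σ X) ≤ e) :
    ∃ χ : ℕ → RW N, (∀ n, IsTest (χ n)) ∧ (∀ n, nrm2 (χ n) = 1) ∧
      Tendsto (fun n => qf z (χ n)) atTop (𝓝 (EN z N)) ∧
      ∀ e > 0, ∃ n0, ∀ n ≥ n0, ∀ m ≥ n0, nrm2 (fun σ X => χ n σ X - χ m σ X) ≤ e := by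
  have hfA : ∀ n σ, LipC (f n σ) := fun n => ((hf n).admsM).1
  have hgA : ∀ n σ, LipC (g n σ) := fun n => ((hg n).admsM).1
  obtain ⟨n1, hn1⟩ := eventually_atTop.1 (h2.eventually (gt_mem_nhds (show α < α + 1 by linarith)))
  have hfM : ∀ n ≥ n1, nrm2 (f n) ≤ α + 1 := fun n hn => by
    linarith [hn1 n hn, nrm2_nonnegM (g n)]
  have hgM : ∀ n ≥ n1, nrm2 (g n) ≤ α + 1 := fun n hn => by
    linarith [hn1 n hn, nrm2_nonnegM (f n)]
  have hfc : ∀ e > 0, ∃ n0, ∀ n ≥ n0, ∀ m ≥ n0, nrm2 (fun σ X => f n σ X - f m σ X) ≤ e := by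
    intro e he
    obtain ⟨k, hk⟩ := h4 e he
    exact ⟨k, fun n hn m hm => by linarith [hk n hn m hm, nrm2_nonnegM (fun σ X => g n σ X - g m σ X)]⟩
  have hgc : ∀ e > 0, ∃ n0, ∀ n ≥ n0, ∀ m ≥ n0, nrm2 (fun σ X => g n σ X - g m σ X) ≤ e := by
    intro e he
    obtain ⟨k, hk⟩ := h4 e he
    exact ⟨k, fun n hn m hm => by linarith [hk n hn m hm, nrm2_nonnegM (fun σ X => f n σ X - f m σ X)]⟩
  obtain ⟨a, ha⟩ := aux_ML1_conv hfA (by linarith : (0:ℝ) < α + 1) hfM hfc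
  obtain ⟨b, hb⟩ := aux_ML1_conv hgA (by linarith : (0:ℝ) < α + 1) hgM hgc
  have hab : a + b = α := tendsto_nhds_unique (ha.add hb) h2
  have hqf : Tendsto (fun n => qf z (f n) - EN z N * nrm2 (f n)) atTop (𝓝 0) := by
    refine squeeze_zero (fun n => by linarith [EN_le_test hz (hf n)]) (fun n => ?_) h3
    linarith [EN_le_test hz (hg n)]
  have hqg : Tendsto (fun n => qf z (g n) - EN z N * nrm2 (g n)) atTop (𝓝 0) := by
    refine squeeze_zero (fun n => by linarith [EN_le_test hz (hg n)]) (fun n => ?_) h3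
    linarith [EN_le_test hz (hf n)]
  rcases lt_or_ge 0 a with h | h
  · exact normalise hf h ha hqf hfc
  · exact normalise hg (by linarith) hb hqg hgc

end Ion
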