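import Pool.Agent.Lib.MP_69e010_mp.M.MK
import Pool.Agent.Lib.MP_69e010_mp.M.ML1

/-!
# Stream M of MP_69e010_mp: a bound system has a normalised approximating sequence of real test functions

Let `x ≠ 0`, `A x = E x`, `E = sInf (specR A) = EN z N` (`EGS_eq`).  By `ham_core` there are test functions `φ n` with `clM (φ n) → x`, `H φ n → E x`.  So
`⟪clM φ n, H φ n⟫ → E ‖x‖²`, i.e. (`inner_cl_H`, `norm_cl`) `qf re + qf im → E ‖x‖²`, `nrm2 re + nrm2 im → ‖x‖² > 0`, and the Cauchy property because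
`nrm2 (reW (φ n) - reW (φ m)) + nrm2 (imW ..) = ‖clM (φ n - φ m)‖²`.  Then `normalise_pair`.
-/

open MeasureTheory Filter Topology LinearPMap
open scoped ENNReal ComplexConjugate

noncomputable section

namespace Ion

variable {N : ℕ}

theorem ml2_re_sub (φ χ : CTest N) : reW (φ - χ).1 = fun σ X => reW φ.1 σ X - reW χ.1 σ X := by
  funext σ X
  show (((φ - χ : CTest N) : Om N → ℂ) (jn σ X)).re = _
  rw [Submodule.coe_sub, Pi.sub_apply, Complex.sub_re]
  rfl

theorem ml2_im_sub (φ χ : CTest N) : imW (φ - χ).1 = fun σ X => imW φ.1 σ X - imW χ.1 σ X := by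
  funext σ X
  show (((φ - χ : CTest N) : Om N → ℂ) (jn σ X)).im = _
  rw [Submodule.coe_sub, Pi.sub_apply, Complex.sub_im]
  rfl

theorem bound_seq {z : ℝ} (hz : 0 < z) (hb : Bound z N) :
    ∃ χ : ℕ → RW N, (∀ n, IsTest (χ n)) ∧ (∀ n, nrm2 (χ n) = 1) ∧
      Tendsto (fun n => qf z (χ n)) atTop (𝓝 (EN z N)) ∧
      ∀ e > 0, ∃ n0, ∀ n ≥ n0, ∀ m ≥ n0, nrm2 (fun σ X => χ n σ X - χ m σ X) ≤ e := by
  obtain ⟨A, hA, x, hx, hAx⟩ := hb
  have hE : sInf (specR A) = EN z N := EGS_eq hz hA hx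
  rw [hE] at hAx
  obtain ⟨φ, h1, h2⟩ := ham_core hA x
  have hxn : 0 < ‖(x : Fer N)‖ ^ 2 := by
    have := norm_pos_iff.2 hx
    positivity
  have hn : Tendsto (fun n => nrm2 (reW (φ n).1) + nrm2 (imW (φ n).1)) atTop (𝓝 (‖(x : Fer N)‖ ^ 2)) := by
    have h3 := (h1.norm).pow 2
    refine h3.congr (fun n => ?_)
    exact norm_cl (φ n)
  have hq : Tendsto (fun n => qf z (reW (φ n).1) + qf z (imW (φ n).1)) atTop (𝓝 (EN z N * ‖(x : Fer N)‖ ^ 2)) := by
    have h3 := (h1.inner h2 (𝕜 := ℂ))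
    have h4 := (Complex.continuous_re.tendsto _).comp h3
    have h5 : (inner ℂ (x : Fer N) (A x)).re = EN z N * ‖(x : Fer N)‖ ^ 2 := by
      rw [hAx, inner_smul_right, inner_self_eq_norm_sq_to_K, Complex.re_ofReal_mul]
      congr 1
      have h6 : ((‖(x : Fer N)‖ : ℂ) ^ 2) = ((‖(x : Fer N)‖ ^ 2 : ℝ) : ℂ) := by push_cast; rfl
      exact (congrArg Complex.re h6).trans (Complex.ofReal_re _)
    rw [h5] at h4
    refine h4.congr (fun n => ?_)
    show (inner ℂ (clM N (φ n)) ((clK N + clV z N) (φ n))).re = _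
    rw [LinearMap.add_apply, inner_cl_H, Complex.ofReal_re]
  refine normalise_pair hz (f := fun n => reW (φ n).1) (g := fun n => imW (φ n).1) (fun n => reW_test (φ n).2)
    (fun n => imW_test (φ n).2) hxn hn ?_ ?_
  · have h3 := hq.sub (hn.const_mul (EN z N))
    rw [sub_self] at h3
    exact h3
  · intro e he
    have hc := (Metric.cauchySeq_iff.1 h1.cauchySeq) (Real.sqrt e) (Real.sqrt_pos.2 he)
    obtain ⟨n0, hn0⟩ := hc
    refine ⟨n0, fun n hn m hm => ?_⟩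
    have h3 := hn0 n hn m hm
    rw [dist_eq_norm, ← _root_.map_sub] at h3
    have h4 := norm_cl (φ n - φ m)
    rw [ml2_re_sub, ml2_im_sub] at h4
    rw [← h4]
    calc ‖clM N (φ n - φ m)‖ ^ 2 ≤ (Real.sqrt e) ^ 2 := pow_le_pow_left₀ (norm_nonneg _) h3.le 2
      _ = e := Real.sq_sqrt he.le

end Ion
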