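import Pool.Agent.Lib.MP_69e010_mp.M.MF2

/-!
# JOB MN1 (stream M of MP_69e010_mp): symmetric mollification kernels and mollification of Lipschitz functions

* `exists_kernel`: `b : ContDiffBump (0 : E3)` with `rIn = r/2`, `rOut = r` and `ρ X := ∏ i, b.normed volume (X i)` (smooth: `contDiff_prod`; integral: `integral_fintype_prod_eq_prod` or
  `integral_fintype_prod_volume_eq_prod`, `ContDiffBump.integral_normed`; support: if `ρ X ≠ 0` then `‖X i‖ < r` for all `i`, so `‖X‖ <= r` (`pi_norm_le_iff_of_nonneg`), compact support because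
  bounded sets have compact closure: `HasCompactSupport.of_support_subset_isCompact`, `isCompact_closedBall`); symmetric: `Equiv.prod_comp`).
* `mol_lip`: `mol ρ F X - F X = ∫ ρ (X - Y) (F Y - F X) dY`, `|F Y - F X| <= K ‖X - Y‖ <= K r` where `ρ (X - Y) ≠ 0` (and `∫ ρ (X - Y) dY = 1`, `integral_sub_left_eq_self`).
* `mol_supp`: `mol ρ F X ≠ 0` implies that there is `Y` with `ρ (X - Y) ≠ 0`, `F Y ≠ 0`, so `‖X‖ <= R + r`.
* `pd_mol_lip`: by `pd_mol` (MF2.lean) `pd k c (mol ρ F) X = ∫ (pd k c ρ)(X - Y) F(Y) dY` and integration by parts `integral_pd_mul` (H/HI.lean) with the Lipschitz function `F` and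
  the `LipC` function `G Y := ρ (X - Y)`, `pd k c G Y = - (pd k c ρ)(X - Y)` (chain rule).
* `gsq_mol_le`: `mol_sq` (MF2.lean) for `f := pd k c F` (bounded, measurable, compact support, so in `L²`).
-/

open MeasureTheory Metric Filter Topology
open scoped ENNReal

noncomputable section

namespace Ion

variable {N : ℕ}

/-- a symmetric mollification kernel of radius `r` -/
structure IsKer (r : ℝ) (ρ : Conf N → ℝ) : Prop where
  smooth : ContDiff ℝ (⊤ : ℕ∞) ρ
  supp : HasCompactSupport ρ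
  nonneg : ∀ X, 0 ≤ ρ X
  int : ∫ X, ρ X = 1
  rad : ∀ X, ρ X ≠ 0 → ‖X‖ ≤ r
  perm : ∀ (π : Equiv.Perm (Fin N)) (X : Conf N), ρ (X ∘ π) = ρ X

theorem exists_kernel (N : ℕ) {r : ℝ} (hr : 0 < r) : ∃ ρ : Conf N → ℝ, IsKer r ρ := by
  let b : ContDiffBump (0 : E3) := ⟨r / 2, r, by positivity, by linarith⟩
  let f : E3 → ℝ := b.normed volume
  have hf : ∀ x, f x ≠ 0 → ‖x‖ < r := by
    intro x hx
    have h1 : x ∈ Function.support f := hx
    have h2 : Function.support f = ball (0 : E3) b.rOut := b.support_normed_eq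
    rw [h2, mem_ball_zero_iff] at h1
    exact h1
  have hrad : ∀ X : Conf N, ∏ i, f (X i) ≠ 0 → ‖X‖ ≤ r := by
    intro X hX
    rw [pi_norm_le_iff_of_nonneg hr.le]
    intro i
    exact (hf _ (fun h => hX (Finset.prod_eq_zero (Finset.mem_univ i) h))).le
  refine ⟨fun X => ∏ i, f (X i), ?_, ?_, ?_, ?_, hrad, ?_⟩
  · refine contDiff_prod fun i _ => ?_
    exact (b.contDiff_normed (n := ⊤)).comp (contDiff_apply ℝ E3 i)
  · refine HasCompactSupport.intro (isCompact_closedBall (0 : Conf N) r) fun X hX => ?_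
    by_contra hne
    exact hX (by rw [mem_closedBall_zero_iff]; exact hrad X hne)
  · intro X
    exact Finset.prod_nonneg fun i _ => b.nonneg_normed _
  · have h1 := integral_fintype_prod_volume_eq_prod (𝕜 := ℝ) (fun (_ : Fin N) => f)
    rw [h1]
    have h2 : ∫ x, f x = 1 := b.integral_normed
    rw [h2, Finset.prod_const_one]
  · intro π X
    exact Equiv.prod_comp π fun i => f (X i)

theorem aux_MN1_neg : (volume : Measure (Conf N)).IsNegInvariant := by
  have h : (volume : Measure E3).IsNegInvariant := inferInstance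
  have h2 : (Measure.pi fun _ : Fin N => (volume : Measure E3)).IsNegInvariant := inferInstance
  rw [volume_pi]
  exact h2

theorem aux_MN1_sub {ρ : Conf N → ℝ} (hρ : HasCompactSupport ρ) (X : Conf N) :
    HasCompactSupport fun Y => ρ (X - Y) :=
  hρ.comp_homeomorph (Homeomorph.subLeft X)

theorem aux_MN1_int {r : ℝ} {ρ : Conf N → ℝ} (hρ : IsKer r ρ) {F : Conf N → ℝ} (hF : Continuous F) (X : Conf N) :
    Integrable fun Y => ρ (X - Y) * F Y := by
  have hc : Continuous fun Y => ρ (X - Y) := hρ.smooth.continuous.comp (continuous_const.sub continuous_id)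
  exact (hc.mul hF).integrable_of_hasCompactSupport ((aux_MN1_sub hρ.supp X).mul_right)

theorem mol_lip {r : ℝ} (hr : 0 ≤ r) {ρ F : Conf N → ℝ} (hρ : IsKer r ρ) {K : NNReal} (hF : LipschitzWith K F) (X : Conf N) :
    |mol ρ F X - F X| ≤ K * r := by
  have hneg : (volume : Measure (Conf N)).IsNegInvariant := aux_MN1_neg
  have h1 : ∫ Y, ρ (X - Y) = 1 := by
    rw [integral_sub_left_eq_self ρ volume X]
    exact hρ.int
  have h2 : Integrable fun Y => ρ (X - Y) := by
    have := aux_MN1_int hρ (F := fun _ => (1 : ℝ)) continuous_const X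
    simpa using this
  have h3 : mol ρ F X - F X = ∫ Y, ρ (X - Y) * (F Y - F X) := by
    have h4 : ∫ Y, ρ (X - Y) * (F Y - F X) = (∫ Y, ρ (X - Y) * F Y) - ∫ Y, ρ (X - Y) * F X := by
      rw [← integral_sub (aux_MN1_int hρ hF.continuous X) (h2.mul_const _)]
      refine integral_congr_ae (Filter.Eventually.of_forall fun Y => ?_)
      ring
    rw [h4, integral_mul_const, h1, one_mul]
    rfl
  have h5 : ∫ Y, ρ (X - Y) * (K * r) = K * r := by
    rw [integral_mul_const, h1, one_mul]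
  rw [h3, ← h5, ← Real.norm_eq_abs]
  refine norm_integral_le_of_norm_le (h2.mul_const _) (Filter.Eventually.of_forall fun Y => ?_)
  rw [Real.norm_eq_abs, abs_mul, abs_of_nonneg (hρ.nonneg _)]
  by_cases hY : ρ (X - Y) = 0
  · rw [hY, zero_mul, zero_mul]
  · refine mul_le_mul_of_nonneg_left ?_ (hρ.nonneg _)
    have h6 := hρ.rad _ hY
    have h7 := hF.dist_le_mul Y X
    rw [Real.dist_eq, dist_eq_norm, norm_sub_rev] at h7
    exact h7.trans (mul_le_mul_of_nonneg_left h6 K.2)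

theorem mol_supp {r R : ℝ} {ρ F : Conf N → ℝ} (hρ : IsKer r ρ) (hF : ∀ X, F X ≠ 0 → ‖X‖ ≤ R) (X : Conf N)
    (h : mol ρ F X ≠ 0) : ‖X‖ ≤ R + r := by
  obtain ⟨Y, hY⟩ : ∃ Y, ρ (X - Y) * F Y ≠ 0 := by
    by_contra hcon
    push Not at hcon
    apply h
    unfold mol
    simp only [hcon, integral_zero]
  have h1 := hρ.rad _ (left_ne_zero_of_mul hY)
  have h2 := hF _ (right_ne_zero_of_mul hY)
  calc ‖X‖ = ‖Y + (X - Y)‖ := by rw [add_sub_cancel]
    _ ≤ ‖Y‖ + ‖X - Y‖ := norm_add_le _ _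
    _ ≤ R + r := add_le_add h2 h1

theorem aux_MN1_pd {ρ : Conf N → ℝ} (hρ : ContDiff ℝ (⊤ : ℕ∞) ρ) (k : Fin N) (c : Fin 3) (X Y : Conf N) :
    pd k c (fun Z => ρ (X - Z)) Y = - pd k c ρ (X - Y) := by
  have h1 : HasFDerivAt ρ (fderiv ℝ ρ (X - Y)) (X - Y) :=
    (hρ.differentiable (by simp) _).hasFDerivAt
  have h2 : HasFDerivAt (fun Z : Conf N => X - Z) (-(ContinuousLinearMap.id ℝ (Conf N))) Y :=
    (hasFDerivAt_id Y).const_sub X
  have h3 := h1.comp Y h2
  have h4 : fderiv ℝ (fun Z => ρ (X - Z)) Y = (fderiv ℝ ρ (X - Y)).comp (-(ContinuousLinearMap.id ℝ (Conf N))) :=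
    h3.fderiv
  unfold pd
  rw [h4, ContinuousLinearMap.comp_apply]
  simp

theorem aux_MN1_lipC {r : ℝ} {ρ : Conf N → ℝ} (hρ : IsKer r ρ) (X : Conf N) : LipC fun Y => ρ (X - Y) := by
  have hs : ContDiff ℝ (⊤ : ℕ∞) fun Y : Conf N => ρ (X - Y) := hρ.smooth.comp (contDiff_const.sub contDiff_id)
  exact ⟨ContDiff.lipschitzWith_of_hasCompactSupport (aux_MN1_sub hρ.supp X) hs (by simp), aux_MN1_sub hρ.supp X⟩

theorem pd_mol_lip {r : ℝ} {ρ F : Conf N → ℝ} (hρ : IsKer r ρ) (hF : LipC F) (k : Fin N) (c : Fin 3) (X : Conf N) :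
    pd k c (mol ρ F) X = mol ρ (pd k c F) X := by
  obtain ⟨K, hK⟩ := hF.1
  rw [pd_mol hρ.smooth hρ.supp hK.continuous.locallyIntegrable]
  have h1 := integral_pd_mul hK (aux_MN1_lipC hρ X) k c
  have h2 : mol ρ (pd k c F) X = ∫ Y, pd k c F Y * ρ (X - Y) := by
    unfold mol
    refine integral_congr_ae (Filter.Eventually.of_forall fun Y => ?_)
    exact mul_comm _ _
  rw [h2, h1, ← integral_neg]
  unfold mol
  refine integral_congr_ae (Filter.Eventually.of_forall fun Y => ?_)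
  show pd k c ρ (X - Y) * F Y = -(F Y * pd k c (fun Z => ρ (X - Z)) Y)
  rw [aux_MN1_pd hρ.smooth]
  ring

theorem aux_MN1_sq {F : Conf N → ℝ} (hF : LipC F) (k : Fin N) (c : Fin 3) :
    Integrable fun X => (pd k c F X) ^ 2 := by
  obtain ⟨K, hK⟩ := hF.1
  refine integrable_of_bdd_supp ((measurable_pd k c F).pow_const 2) (C := (K : ℝ) ^ 2) (fun X => ?_)
    (S := tsupport F) hF.2 (fun X hX => ?_)
  · rw [abs_of_nonneg (sq_nonneg _), ← sq_abs]
    exact pow_le_pow_left₀ (abs_nonneg _) (abs_pd_le hK k c X) 2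
  · rw [pd_eq_zero hX]
    ring

theorem gsq_mol_le {r : ℝ} {ρ F : Conf N → ℝ} (hρ : IsKer r ρ) (hF : LipC F) (k : Fin N) :
    ∫ X, gsq k (mol ρ F) X ≤ ∫ X, gsq k F X := by
  have hL : ∀ c, MemLp (pd k c F) 2 volume := fun c =>
    (memLp_two_iff_integrable_sq (measurable_pd k c F).aestronglyMeasurable).2 (aux_MN1_sq hF k c)
  have hm := fun c => mol_sq hρ.smooth hρ.supp hρ.nonneg hρ.int (hL c)
  have h1 : ∀ X, gsq k (mol ρ F) X = ∑ c, (mol ρ (pd k c F) X) ^ 2 := by
    intro X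
    unfold gsq
    refine Finset.sum_congr rfl fun c _ => ?_
    rw [pd_mol_lip hρ hF]
  have h2 : ∀ X, gsq k F X = ∑ c, (pd k c F X) ^ 2 := fun X => rfl
  simp only [h1, h2]
  rw [integral_finsetSum _ fun c _ => (hm c).1, integral_finsetSum _ fun c _ => aux_MN1_sq hF k c]
  exact Finset.sum_le_sum fun c _ => (hm c).2

end Ion
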