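import Pool.Agent.Lib.MP_69e010_mp.H.HC
import Pool.Agent.Lib.MP_69e010_mp.H.HF

/-!
# JOB MV (stream M of MP_69e010_mp): the potential is bounded by the kinetic energy; lower bound of the energy

* `V_sq_le`: `V z X = ∑_{i<j} ‖X i - X j‖⁻¹ - z ∑_i ‖X i‖⁻¹` is a sum of at most `N² + N` terms, so (`sq_sum_le_card_mul_sum_sq`, `(a - b)² <= 2a² + 2b²`)
  `(V z X)² <= 2 N² ∑_{i,j, i<j} (‖X i - X j‖⁻¹)² + 2 z² N ∑_i (‖X i‖⁻¹)²`; multiply by `(F X)²` and use Hardy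
  (`hardy_nuc` from H/HE.lean, `hardy_pair` from H/HF.lean); integrability of `(V z X)² (F X)²`: measurable and dominated by the integrable right side
  (`Integrable.mono'`).  Some constant `C = C(z, N)` is enough.
* `TT_le`: `z ‖x‖⁻¹ <= (1/8) (‖x‖⁻¹)² + 2 z²` (also for `x = 0`), so `z ∑_σ ∫ Ven ψ² <= (1/8) 4 TT ψ + 2 z² N nrm2 ψ`, and `Vee >= 0`.
  Integrability: `LipC.integrable_Vee`, `LipC.integrable_Ven` (H/HC2.lean), `LipC.integrable_gsq`, `LipC.integrable_sq` (H/HA1.lean).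
* `EN_bddBelow`: by `TT_le` and `TT ψ >= 0` every element is `>= - 2 z² N`; test functions are Lipschitz: `ContDiff.lipschitzWith_of_hasCompactSupport`.
-/

open MeasureTheory Metric Finset Filter Topology

noncomputable section

namespace Ion

variable {N : ℕ}

theorem lipC_of_smooth {F : Conf N → ℝ} (h : ContDiff ℝ (⊤ : ℕ∞) F) (h' : HasCompactSupport F) : LipC F :=
  ⟨ContDiff.lipschitzWith_of_hasCompactSupport h' h (by simp), h'⟩

theorem IsTest.admsM {ψ : RW N} (h : IsTest ψ) : Adms ψ :=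
  ⟨fun σ => lipC_of_smooth (h.1 σ) (h.2.1 σ), h.2.2⟩

theorem aux_MV_Vee_sq (X : Conf N) :
    (Vee X) ^ 2 ≤ (N : ℝ) ^ 2 * ∑ i, ∑ j ∈ univ.filter (fun j => i < j), (‖X i - X j‖⁻¹) ^ 2 := by
  have hc : ∀ i : Fin N, ((univ.filter (fun j => i < j)).card : ℝ) ≤ N := by
    intro i
    have h := Finset.card_le_univ (univ.filter (fun j : Fin N => i < j))
    rw [Fintype.card_fin] at h
    exact_mod_cast h
  have hN : (0 : ℝ) ≤ N := Nat.cast_nonneg N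
  have h1 : (Vee X) ^ 2 ≤ (N : ℝ) * ∑ i, (∑ j ∈ univ.filter (fun j => i < j), ‖X i - X j‖⁻¹) ^ 2 := by
    have h := sq_sum_le_card_mul_sum_sq (s := (univ : Finset (Fin N)))
      (f := fun i => ∑ j ∈ univ.filter (fun j => i < j), ‖X i - X j‖⁻¹)
    rw [Finset.card_univ, Fintype.card_fin] at h
    exact h
  have h2 : ∀ i : Fin N, (∑ j ∈ univ.filter (fun j => i < j), ‖X i - X j‖⁻¹) ^ 2 ≤
      (N : ℝ) * ∑ j ∈ univ.filter (fun j => i < j), (‖X i - X j‖⁻¹) ^ 2 := by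
    intro i
    refine sq_sum_le_card_mul_sum_sq.trans ?_
    exact mul_le_mul_of_nonneg_right (hc i) (Finset.sum_nonneg fun j _ => sq_nonneg _)
  refine h1.trans ?_
  rw [sq, mul_assoc]
  refine mul_le_mul_of_nonneg_left ?_ hN
  rw [Finset.mul_sum]
  exact Finset.sum_le_sum fun i _ => h2 i

theorem aux_MV_Ven_sq (X : Conf N) : (Ven X) ^ 2 ≤ (N : ℝ) * ∑ i, (‖X i‖⁻¹) ^ 2 := by
  have h := sq_sum_le_card_mul_sum_sq (s := (univ : Finset (Fin N))) (f := fun i => ‖X i‖⁻¹)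
  rw [Finset.card_univ, Fintype.card_fin] at h
  exact h

theorem aux_MV_meas_V (z : ℝ) : Measurable fun X : Conf N => V z X := by
  unfold V Vee Ven
  fun_prop

theorem aux_MV_gsum {F : Conf N → ℝ} (hF : LipC F) :
    ∫ X, ∑ k, gsq k F X = ∑ k, ∫ X, gsq k F X :=
  integral_finsetSum _ fun k _ => hF.integrable_gsq k

theorem aux_MV_gsq_nonneg (F : Conf N → ℝ) (k : Fin N) : 0 ≤ ∫ X, gsq k F X :=
  integral_nonneg fun X => gsq_nonneg k F X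

theorem V_sq_le (z : ℝ) (N : ℕ) : ∃ C : ℝ, 0 ≤ C ∧ ∀ F : Conf N → ℝ, LipC F →
    Integrable (fun X => (V z X) ^ 2 * (F X) ^ 2) ∧
      ∫ X, (V z X) ^ 2 * (F X) ^ 2 ≤ C * ∫ X, ∑ k, gsq k F X := by
  have hN : (0 : ℝ) ≤ N := Nat.cast_nonneg N
  refine ⟨8 * (N : ℝ) ^ 3 + 8 * z ^ 2 * N, by positivity, fun F hF => ?_⟩
  have hi1 : ∀ i : Fin N, Integrable (fun X : Conf N => ∑ j ∈ univ.filter (fun j => i < j),
      (‖X i - X j‖⁻¹) ^ 2 * (F X) ^ 2) := fun i =>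
    integrable_finsetSum _ fun j hj => (hardy_pair hF (ne_of_lt (mem_filter.1 hj).2)).1
  have hi2 : Integrable (fun X : Conf N => ∑ i, ∑ j ∈ univ.filter (fun j => i < j),
      (‖X i - X j‖⁻¹) ^ 2 * (F X) ^ 2) := integrable_finsetSum _ fun i _ => hi1 i
  have hi3 : Integrable (fun X : Conf N => ∑ i, (‖X i‖⁻¹) ^ 2 * (F X) ^ 2) :=
    integrable_finsetSum _ fun i _ => (hardy_nuc hF i).1
  have hR : Integrable (fun X : Conf N => 2 * (N : ℝ) ^ 2 * (∑ i, ∑ j ∈ univ.filter (fun j => i < j),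
      (‖X i - X j‖⁻¹) ^ 2 * (F X) ^ 2) + 2 * z ^ 2 * N * ∑ i, (‖X i‖⁻¹) ^ 2 * (F X) ^ 2) :=
    (hi2.const_mul _).add (hi3.const_mul _)
  have hle : ∀ X : Conf N, (V z X) ^ 2 * (F X) ^ 2 ≤ 2 * (N : ℝ) ^ 2 * (∑ i, ∑ j ∈ univ.filter (fun j => i < j),
      (‖X i - X j‖⁻¹) ^ 2 * (F X) ^ 2) + 2 * z ^ 2 * N * ∑ i, (‖X i‖⁻¹) ^ 2 * (F X) ^ 2 := by
    intro X
    have h1 := aux_MV_Vee_sq X
    have h2 := aux_MV_Ven_sq X
    have h3 : (V z X) ^ 2 ≤ 2 * (N : ℝ) ^ 2 * (∑ i, ∑ j ∈ univ.filter (fun j => i < j), (‖X i - X j‖⁻¹) ^ 2) +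
        2 * z ^ 2 * N * ∑ i, (‖X i‖⁻¹) ^ 2 := by
      have h4 : (V z X) ^ 2 ≤ 2 * (Vee X) ^ 2 + 2 * (z ^ 2 * (Ven X) ^ 2) := by
        unfold V
        nlinarith [sq_nonneg (Vee X + z * Ven X)]
      have h5 : z ^ 2 * (Ven X) ^ 2 ≤ z ^ 2 * ((N : ℝ) * ∑ i, (‖X i‖⁻¹) ^ 2) :=
        mul_le_mul_of_nonneg_left h2 (sq_nonneg z)
      nlinarith
    have h6 := mul_le_mul_of_nonneg_right h3 (sq_nonneg (F X))
    refine h6.trans (le_of_eq ?_)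
    rw [add_mul, mul_assoc (2 * (N : ℝ) ^ 2), Finset.sum_mul, mul_assoc (2 * z ^ 2 * (N : ℝ)), Finset.sum_mul]
    congr 2
    refine Finset.sum_congr rfl fun i _ => ?_
    rw [Finset.sum_mul]
  have hint : Integrable (fun X => (V z X) ^ 2 * (F X) ^ 2) := by
    refine hR.mono' ?_ (Filter.Eventually.of_forall fun X => ?_)
    · exact (((aux_MV_meas_V z).pow_const 2).mul (hF.cont.measurable.pow_const 2)).aestronglyMeasurable
    · rw [Real.norm_eq_abs, abs_of_nonneg (by positivity)]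
      exact hle X
  refine ⟨hint, ?_⟩
  have h1 : ∫ X, (V z X) ^ 2 * (F X) ^ 2 ≤ ∫ X : Conf N, (2 * (N : ℝ) ^ 2 *
      (∑ i, ∑ j ∈ univ.filter (fun j => i < j), (‖X i - X j‖⁻¹) ^ 2 * (F X) ^ 2) +
        2 * z ^ 2 * N * ∑ i, (‖X i‖⁻¹) ^ 2 * (F X) ^ 2) := integral_mono hint hR hle
  refine h1.trans ?_
  rw [integral_add (hi2.const_mul _) (hi3.const_mul _), integral_const_mul, integral_const_mul,
    integral_finsetSum _ fun i _ => hi1 i, integral_finsetSum _ fun i _ => (hardy_nuc hF i).1, aux_MV_gsum hF]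
  have h2 : ∀ i : Fin N, ∫ X : Conf N, ∑ j ∈ univ.filter (fun j => i < j), (‖X i - X j‖⁻¹) ^ 2 * (F X) ^ 2 ≤
      (N : ℝ) * (4 * ∫ X, gsq i F X) := by
    intro i
    rw [integral_finsetSum _ fun j hj => (hardy_pair hF (ne_of_lt (mem_filter.1 hj).2)).1]
    refine (Finset.sum_le_card_nsmul _ _ (4 * ∫ X, gsq i F X)
      fun j hj => (hardy_pair hF (ne_of_lt (mem_filter.1 hj).2)).2).trans ?_
    rw [nsmul_eq_mul]
    have h := Finset.card_le_univ (univ.filter (fun j : Fin N => i < j))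
    rw [Fintype.card_fin] at h
    have h' : ((univ.filter (fun j : Fin N => i < j)).card : ℝ) ≤ N := by exact_mod_cast h
    exact mul_le_mul_of_nonneg_right h' (mul_nonneg (by norm_num) (aux_MV_gsq_nonneg F i))
  have h3 : ∑ i, ∫ X : Conf N, ∑ j ∈ univ.filter (fun j => i < j), (‖X i - X j‖⁻¹) ^ 2 * (F X) ^ 2 ≤
      (N : ℝ) * (4 * ∑ i, ∫ X, gsq i F X) := by
    rw [Finset.mul_sum, Finset.mul_sum]
    exact Finset.sum_le_sum fun i _ => h2 i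
  have h4 : ∑ i, ∫ X : Conf N, (‖X i‖⁻¹) ^ 2 * (F X) ^ 2 ≤ 4 * ∑ i, ∫ X, gsq i F X := by
    rw [Finset.mul_sum]
    exact Finset.sum_le_sum fun i _ => (hardy_nuc hF i).2
  have h5 := mul_le_mul_of_nonneg_left h3 (show (0 : ℝ) ≤ 2 * (N : ℝ) ^ 2 by positivity)
  have h6 := mul_le_mul_of_nonneg_left h4 (show (0 : ℝ) ≤ 2 * z ^ 2 * N by positivity)
  refine (add_le_add h5 h6).trans (le_of_eq ?_)
  ring

theorem TT_nonnegM (ψ : RW N) : 0 ≤ TT ψ :=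
  Finset.sum_nonneg fun σ _ => integral_nonneg fun X => Finset.sum_nonneg fun k _ => gsq_nonneg k (ψ σ) X

theorem nrm2_nonnegM (ψ : RW N) : 0 ≤ nrm2 ψ :=
  Finset.sum_nonneg fun σ _ => integral_nonneg fun X => sq_nonneg (ψ σ X)

theorem aux_MV_inv (z t : ℝ) : z * t ≤ 1 / 8 * t ^ 2 + 2 * z ^ 2 := by
  nlinarith [sq_nonneg (t - 4 * z)]

theorem aux_MV_V {z : ℝ} {F : Conf N → ℝ} (hF : LipC F) :
    -(1 / 2 * ∫ X, ∑ k, gsq k F X) - 2 * z ^ 2 * N * ∫ X, (F X) ^ 2 ≤ ∫ X, V z X * (F X) ^ 2 := by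
  have hi3 : Integrable (fun X : Conf N => ∑ i, (‖X i‖⁻¹) ^ 2 * (F X) ^ 2) :=
    integrable_finsetSum _ fun i _ => (hardy_nuc hF i).1
  have hle : ∀ X : Conf N, -(1 / 8 * (∑ i, (‖X i‖⁻¹) ^ 2 * (F X) ^ 2)) - 2 * z ^ 2 * N * (F X) ^ 2 ≤
      V z X * (F X) ^ 2 := by
    intro X
    have h1 : 0 ≤ Vee X := Finset.sum_nonneg fun i _ => Finset.sum_nonneg fun j _ => by positivity
    have h2 : z * Ven X ≤ 1 / 8 * (∑ i, (‖X i‖⁻¹) ^ 2) + 2 * z ^ 2 * N := by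
      unfold Ven
      rw [Finset.mul_sum, Finset.mul_sum]
      have h3 : ∑ i, z * ‖X i‖⁻¹ ≤ ∑ i, (1 / 8 * (‖X i‖⁻¹) ^ 2 + 2 * z ^ 2) :=
        Finset.sum_le_sum fun i _ => aux_MV_inv z _
      rw [Finset.sum_add_distrib, Finset.sum_const, Finset.card_univ, Fintype.card_fin, nsmul_eq_mul] at h3
      linarith
    have h4 : -(1 / 8 * (∑ i, (‖X i‖⁻¹) ^ 2)) - 2 * z ^ 2 * N ≤ V z X := by
      unfold V
      linarith
    have h5 := mul_le_mul_of_nonneg_right h4 (sq_nonneg (F X))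
    refine le_trans (le_of_eq ?_) h5
    rw [← Finset.sum_mul]
    ring
  have hng : Integrable (fun X : Conf N => -(1 / 8 * (∑ i, (‖X i‖⁻¹) ^ 2 * (F X) ^ 2))) :=
    (hi3.const_mul _).neg
  have hL : Integrable (fun X : Conf N => -(1 / 8 * (∑ i, (‖X i‖⁻¹) ^ 2 * (F X) ^ 2)) -
      2 * z ^ 2 * N * (F X) ^ 2) := hng.sub (hF.integrable_sq.const_mul _)
  refine le_trans ?_ (integral_mono hL (hF.integrable_V z) hle)
  rw [integral_sub hng (hF.integrable_sq.const_mul _), integral_neg, integral_const_mul,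
    integral_const_mul, integral_finsetSum _ fun i _ => (hardy_nuc hF i).1, aux_MV_gsum hF]
  have h4 : ∑ i, ∫ X : Conf N, (‖X i‖⁻¹) ^ 2 * (F X) ^ 2 ≤ 4 * ∑ i, ∫ X, gsq i F X := by
    rw [Finset.mul_sum]
    exact Finset.sum_le_sum fun i _ => (hardy_nuc hF i).2
  linarith

theorem TT_le {z : ℝ} (hz : 0 < z) {ψ : RW N} (hψ : Adms ψ) :
    TT ψ ≤ 2 * qf z ψ + 4 * z ^ 2 * N * nrm2 ψ := by
  have h1 : -(1 / 2 * TT ψ) - 2 * z ^ 2 * N * nrm2 ψ ≤ ∑ σ, ∫ X, V z X * (ψ σ X) ^ 2 := by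
    unfold TT nrm2
    rw [Finset.mul_sum, Finset.mul_sum, ← Finset.sum_neg_distrib, ← Finset.sum_sub_distrib]
    exact Finset.sum_le_sum fun σ _ => aux_MV_V (hψ.1 σ)
  unfold qf
  linarith

theorem EN_bddBelow (z : ℝ) (hz : 0 < z) (N : ℕ) :
    BddBelow {e : ℝ | ∃ ψ : RW N, IsTest ψ ∧ nrm2 ψ = 1 ∧ e = qf z ψ} := by
  refine ⟨-(2 * z ^ 2 * N), ?_⟩
  rintro e ⟨ψ, h1, h2, rfl⟩
  have h3 := TT_le hz h1.admsM
  have h4 := TT_nonnegM ψ
  rw [h2, mul_one] at h3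
  linarith

end Ion
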