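import Pool.Agent.Lib.MP_69e010_mp.M.MDefs
import Pool.Agent.Lib.MP_69e010_mp.M.MV

/-!
# JOB MR (stream M of MP_69e010_mp): real and imaginary parts of complex test functions

`jn (σ ∘ π) (X ∘ π) = jn σ X ∘ π` by `rfl`.  Real part of a `C^∞` function: compose with `Complex.reCLM`
(`Complex.reCLM.contDiff.comp`, `HasCompactSupport.comp_left`).  Antisymmetry: take the real part of the identity, `sgn π` is `± 1`.
`lapC_re`: `fderiv ℝ (fun Y => (F Y).re) Y v = (fderiv ℝ F Y v).re` (chain rule with the continuous linear map `Complex.reCLM`: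
`(Complex.reCLM.hasFDerivAt.comp _ hF.hasFDerivAt).fderiv` or `ContinuousLinearMap.fderiv_comp`), twice.
-/

open MeasureTheory Filter Topology
open scoped ENNReal

noncomputable section

namespace Ion

variable {N : ℕ}

/-- real part -/
def reW (φ : Om N → ℂ) : RW N := fun σ X => (φ (jn σ X)).re

/-- imaginary part -/
def imW (φ : Om N → ℂ) : RW N := fun σ X => (φ (jn σ X)).im

/-- a real wave function as a complex one -/
def cpx (ψ : RW N) : Om N → ℂ := fun ω => (ψ (fun i => (ω i).2) (fun i => (ω i).1) : ℂ)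

/-- the Laplacian of a real function -/
def lapR (F : Conf N → ℝ) (X : Conf N) : ℝ := ∑ k : Fin N, ∑ c : Fin 3, pd k c (fun Y => pd k c F Y) X

theorem jn_comp (σ : Spin N) (X : Conf N) (π : Equiv.Perm (Fin N)) : jn (σ ∘ π) (X ∘ π) = jn σ X ∘ π := rfl

theorem cpx_jn (ψ : RW N) (σ : Spin N) (X : Conf N) : cpx ψ (jn σ X) = (ψ σ X : ℂ) := rfl

theorem aux_MR_sgn (π : Equiv.Perm (Fin N)) : sgn π = ((((Equiv.Perm.sign π : ℤ) : ℝ)) : ℂ) := by
  unfold sgn
  rw [Complex.ofReal_intCast]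

theorem aux_MR_dsmooth {F : Conf N → ℂ} (hF : ContDiff ℝ (⊤ : ℕ∞) F) (v : Conf N) :
    ContDiff ℝ (⊤ : ℕ∞) (fun Y => fderiv ℝ F Y v) :=
  (hF.fderiv_right (m := ((⊤ : ℕ∞) : WithTop ℕ∞)) (by simp)).clm_apply contDiff_const

theorem aux_MR_pd_zero {F : Conf N → ℝ} {X : Conf N} (h : X ∉ tsupport F) (k : Fin N) (c : Fin 3) :
    pd k c F X = 0 := by
  have h1 : fderiv ℝ F X = 0 := by
    by_contra h2
    exact h (support_fderiv_subset ℝ (Function.mem_support.mpr h2))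
  unfold pd
  rw [h1]
  rfl

theorem aux_MR_tsupp (k : Fin N) (c : Fin 3) (F : Conf N → ℝ) :
    tsupport (fun Y => pd k c F Y) ⊆ tsupport F := by
  refine closure_minimal (fun X hX => ?_) (isClosed_tsupport F)
  by_contra h
  exact hX (aux_MR_pd_zero h k c)

theorem ct_eq (φ : Om N → ℂ) (σ : Spin N) (X : Conf N) :
    φ (jn σ X) = (reW φ σ X : ℂ) + (imW φ σ X : ℂ) * Complex.I := by
  exact (Complex.re_add_im (φ (jn σ X))).symm

theorem reW_test {φ : Om N → ℂ} (hφ : φ ∈ CTest N) : IsTest (reW φ) := by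
  obtain ⟨h1, h2, h3⟩ := hφ
  refine ⟨fun σ => Complex.reCLM.contDiff.comp (h1 σ), fun σ => (h2 σ).comp_left (g := Complex.re) Complex.zero_re,
    fun π σ X => ?_⟩
  show (φ (jn (σ ∘ π) (X ∘ π))).re = ((Equiv.Perm.sign π : ℤ) : ℝ) * (φ (jn σ X)).re
  rw [jn_comp, h3, aux_MR_sgn, Complex.re_ofReal_mul]

theorem imW_test {φ : Om N → ℂ} (hφ : φ ∈ CTest N) : IsTest (imW φ) := by
  obtain ⟨h1, h2, h3⟩ := hφ
  refine ⟨fun σ => Complex.imCLM.contDiff.comp (h1 σ), fun σ => (h2 σ).comp_left (g := Complex.im) Complex.zero_im,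
    fun π σ X => ?_⟩
  show (φ (jn (σ ∘ π) (X ∘ π))).im = ((Equiv.Perm.sign π : ℤ) : ℝ) * (φ (jn σ X)).im
  rw [jn_comp, h3, aux_MR_sgn, Complex.im_ofReal_mul]

theorem cpx_ct {ψ : RW N} (hψ : IsTest ψ) : cpx ψ ∈ CTest N := by
  obtain ⟨h1, h2, h3⟩ := hψ
  refine ⟨fun σ => Complex.ofRealCLM.contDiff.comp (h1 σ),
    fun σ => (h2 σ).comp_left (g := ((↑) : ℝ → ℂ)) Complex.ofReal_zero, fun π ω => ?_⟩
  have h4 := h3 π (fun i => (ω i).2) (fun i => (ω i).1)
  have h5 : cpx ψ (ω ∘ π) = ((ψ ((fun i => (ω i).2) ∘ π) ((fun i => (ω i).1) ∘ π) : ℝ) : ℂ) := rfl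
  rw [h5, h4, aux_MR_sgn, Complex.ofReal_mul]
  rfl

theorem reW_cpx (ψ : RW N) : reW (cpx ψ) = ψ := by
  funext σ X
  exact Complex.ofReal_re _

theorem imW_cpx (ψ : RW N) : imW (cpx ψ) = fun _ _ => 0 := by
  funext σ X
  exact Complex.ofReal_im _

/-- derivatives of the real and imaginary parts -/
theorem fderiv_re {F : Conf N → ℂ} (hF : ContDiff ℝ (⊤ : ℕ∞) F) (X v : Conf N) :
    fderiv ℝ (fun Y => (F Y).re) X v = (fderiv ℝ F X v).re := by
  have h1 : DifferentiableAt ℝ F X := (hF.differentiable (by simp)) X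
  have h2 : HasFDerivAt (fun Y => (F Y).re) (Complex.reCLM.comp (fderiv ℝ F X)) X :=
    Complex.reCLM.hasFDerivAt.comp X h1.hasFDerivAt
  rw [h2.fderiv]
  rfl

theorem fderiv_im {F : Conf N → ℂ} (hF : ContDiff ℝ (⊤ : ℕ∞) F) (X v : Conf N) :
    fderiv ℝ (fun Y => (F Y).im) X v = (fderiv ℝ F X v).im := by
  have h1 : DifferentiableAt ℝ F X := (hF.differentiable (by simp)) X
  have h2 : HasFDerivAt (fun Y => (F Y).im) (Complex.imCLM.comp (fderiv ℝ F X)) X :=
    Complex.imCLM.hasFDerivAt.comp X h1.hasFDerivAt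
  rw [h2.fderiv]
  rfl

theorem lapC_re {F : Conf N → ℂ} (hF : ContDiff ℝ (⊤ : ℕ∞) F) (X : Conf N) :
    (lapC F X).re = lapR (fun Y => (F Y).re) X := by
  unfold lapC lapR
  rw [Complex.re_sum]
  refine Finset.sum_congr rfl fun k _ => ?_
  rw [Complex.re_sum]
  refine Finset.sum_congr rfl fun c _ => ?_
  rw [← fderiv_re (aux_MR_dsmooth hF (ev k c)) X (ev k c)]
  have h1 : (fun Y => (fderiv ℝ F Y (ev k c)).re) = fun Y => pd k c (fun Z => (F Z).re) Y := by
    funext Y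
    exact (fderiv_re hF Y (ev k c)).symm
  rw [h1]
  rfl

theorem lapC_im {F : Conf N → ℂ} (hF : ContDiff ℝ (⊤ : ℕ∞) F) (X : Conf N) :
    (lapC F X).im = lapR (fun Y => (F Y).im) X := by
  unfold lapC lapR
  rw [Complex.im_sum]
  refine Finset.sum_congr rfl fun k _ => ?_
  rw [Complex.im_sum]
  refine Finset.sum_congr rfl fun c _ => ?_
  rw [← fderiv_im (aux_MR_dsmooth hF (ev k c)) X (ev k c)]
  have h1 : (fun Y => (fderiv ℝ F Y (ev k c)).im) = fun Y => pd k c (fun Z => (F Z).im) Y := by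
    funext Y
    exact (fderiv_im hF Y (ev k c)).symm
  rw [h1]
  rfl

theorem lapC_ofReal {F : Conf N → ℝ} (hF : ContDiff ℝ (⊤ : ℕ∞) F) (X : Conf N) :
    lapC (fun Y => (F Y : ℂ)) X = (lapR F X : ℂ) := by
  have h1 : ContDiff ℝ (⊤ : ℕ∞) (fun Y => (F Y : ℂ)) := Complex.ofRealCLM.contDiff.comp hF
  apply Complex.ext
  · rw [lapC_re h1, Complex.ofReal_re]
    rfl
  · rw [lapC_im h1, Complex.ofReal_im]
    have h2 : (fun Y => ((F Y : ℂ)).im) = fun _ : Conf N => (0 : ℝ) := by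
      funext Y
      exact Complex.ofReal_im _
    rw [h2]
    unfold lapR pd
    simp

/-- the first derivatives of a smooth compactly supported function are smooth and compactly supported -/
theorem pd_smooth {F : Conf N → ℝ} (hF : ContDiff ℝ (⊤ : ℕ∞) F) (k : Fin N) (c : Fin 3) :
    ContDiff ℝ (⊤ : ℕ∞) (fun Y => pd k c F Y) := by
  exact (hF.fderiv_right (m := ((⊤ : ℕ∞) : WithTop ℕ∞)) (by simp)).clm_apply contDiff_const

theorem pd_supp {F : Conf N → ℝ} (hF : HasCompactSupport F) (k : Fin N) (c : Fin 3) :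
    HasCompactSupport (fun Y => pd k c F Y) := by
  exact (hF.fderiv ℝ).comp_left
    (g := fun L : Conf N →L[ℝ] ℝ => L (Pi.single k (EuclideanSpace.single c (1 : ℝ)))) rfl

theorem lapR_smooth {F : Conf N → ℝ} (hF : ContDiff ℝ (⊤ : ℕ∞) F) : ContDiff ℝ (⊤ : ℕ∞) (lapR F) := by
  unfold lapR
  exact ContDiff.sum fun k _ => ContDiff.sum fun c _ => pd_smooth (pd_smooth hF k c) k c

theorem lapR_supp {F : Conf N → ℝ} (hF : HasCompactSupport F) : HasCompactSupport (lapR F) := by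
  refine HasCompactSupport.intro hF (fun X hX => ?_)
  unfold lapR
  refine Finset.sum_eq_zero fun k _ => Finset.sum_eq_zero fun c _ => ?_
  exact aux_MR_pd_zero (fun h => hX (aux_MR_tsupp k c F h)) k c

end Ion
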