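import Pool.Agent.Lib.MP_69e010_mp.QDefs

/-!
# Stream M of MP_69e010_mp: there are antisymmetric test functions (Slater determinants of bump functions)
-/

open MeasureTheory Metric Finset Filter Topology

noncomputable section

namespace Ion

variable {N : ℕ}

/-- points on a line -/
def spt (i : Fin N) : E3 := EuclideanSpace.single (0 : Fin 3) (3 * (i : ℝ))

theorem spt_dist (i j : Fin N) (h : i ≠ j) : 3 ≤ dist (spt i) (spt j) := by
  unfold spt
  rw [EuclideanSpace.dist_eq, Fin.sum_univ_three]
  have h1 : (1 : ℝ) ≤ |(i : ℝ) - (j : ℝ)| := by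
    have h2 : ((i : ℕ) : ℤ) - ((j : ℕ) : ℤ) ≠ 0 := by
      intro h3
      apply h
      apply Fin.ext
      omega
    have h3 := Int.one_le_abs h2
    exact_mod_cast h3
  have h4 : (3 : ℝ) ≤ dist (3 * (i : ℝ)) (3 * (j : ℝ)) := by
    rw [Real.dist_eq, ← mul_sub, abs_mul, abs_of_pos (by norm_num : (0 : ℝ) < 3)]
    linarith
  have h5 : Real.sqrt (dist (3 * (i : ℝ)) (3 * (j : ℝ)) ^ 2) = dist (3 * (i : ℝ)) (3 * (j : ℝ)) :=
    Real.sqrt_sq dist_nonneg
  refine h4.trans (h5.symm.le.trans (Real.sqrt_le_sqrt ?_))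
  simp

/-- bump functions around the points -/
def sbp (i : Fin N) : ContDiffBump (spt i) := ⟨1 / 2, 1, by norm_num, by norm_num⟩

theorem sbp_apply (i j : Fin N) : sbp i (spt j) = if i = j then 1 else 0 := by
  by_cases h : i = j
  · subst h
    rw [if_pos rfl]
    exact (sbp i).one_of_mem_closedBall (mem_closedBall_self (sbp i).rIn_pos.le)
  · rw [if_neg h]
    apply (sbp i).zero_of_le_dist
    have h1 := spt_dist j i (Ne.symm h)
    show (1 : ℝ) ≤ _
    linarith

/-- the Slater determinant -/
def sla (X : Conf N) : ℝ := Matrix.det (Matrix.of fun i j : Fin N => sbp i (X j))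

theorem sla_eq (X : Conf N) : sla X = ∑ π : Equiv.Perm (Fin N),
    ((Equiv.Perm.sign π : ℤ) : ℝ) * ∏ i, sbp (π i) (X i) := by
  unfold sla
  rw [Matrix.det_apply]
  refine Finset.sum_congr rfl fun π _ => ?_
  rw [Units.smul_def, zsmul_eq_mul]
  rfl

theorem sla_perm (X : Conf N) (π : Equiv.Perm (Fin N)) : sla (X ∘ π) = ((Equiv.Perm.sign π : ℤ) : ℝ) * sla X := by
  unfold sla
  have h := Matrix.det_permute' π (Matrix.of fun i j : Fin N => sbp i (X j))
  exact h

theorem sla_smooth : ContDiff ℝ (⊤ : ℕ∞) (sla : Conf N → ℝ) := by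
  have h : (sla : Conf N → ℝ) = fun X => ∑ π : Equiv.Perm (Fin N),
      ((Equiv.Perm.sign π : ℤ) : ℝ) * ∏ i, sbp (π i) (X i) := by
    funext X; exact sla_eq X
  rw [h]
  apply ContDiff.sum
  intro π _
  apply contDiff_const.mul
  apply contDiff_prod
  intro i _
  exact (sbp (π i)).contDiff.comp (contDiff_apply ℝ E3 i)

theorem sla_supp : HasCompactSupport (sla : Conf N → ℝ) := by
  apply HasCompactSupport.of_support_subset_isCompact (K := closedBall 0 (3 * N + 1)) (isCompact_closedBall _ _)
  intro X hX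
  rw [Function.mem_support, sla_eq] at hX
  obtain ⟨π, -, hπ⟩ := Finset.exists_ne_zero_of_sum_ne_zero hX
  have h1 := right_ne_zero_of_mul hπ
  rw [mem_closedBall, dist_zero_right, pi_norm_le_iff_of_nonneg (by positivity)]
  intro i
  have h2 : sbp (π i) (X i) ≠ 0 := (Finset.prod_ne_zero_iff.1 h1) i (Finset.mem_univ i)
  have h3 : X i ∈ Function.support (sbp (π i)) := h2
  rw [(sbp (π i)).support_eq, mem_ball] at h3
  have h4 : dist (X i) (spt (π i)) < 1 := h3
  have h5 : ‖spt (π i)‖ ≤ 3 * N := by
    unfold spt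
    rw [EuclideanSpace.norm_single, Real.norm_eq_abs, abs_of_nonneg (by positivity)]
    have h6 : (((π i : Fin N) : ℕ) : ℝ) ≤ N := by exact_mod_cast (π i).2.le
    linarith
  have h6 : ‖X i‖ ≤ ‖X i - spt (π i)‖ + ‖spt (π i)‖ := by
    have := norm_add_le (X i - spt (π i)) (spt (π i))
    simpa using this
  rw [dist_eq_norm] at h4
  linarith

theorem sla_pt : sla (fun i : Fin N => spt i) = 1 := by
  unfold sla
  have h : (Matrix.of fun i j : Fin N => sbp i (spt j)) = (1 : Matrix (Fin N) (Fin N) ℝ) := by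
    ext i j
    rw [Matrix.of_apply, sbp_apply, Matrix.one_apply]
  rw [h, Matrix.det_one]

/-- there are antisymmetric test functions that do not vanish -/
theorem exists_test_pos (N : ℕ) : ∃ ψ : RW N, IsTest ψ ∧ 0 < nrm2 ψ := by
  classical
  refine ⟨fun σ X => if σ = (fun _ => 0) then sla X else 0, ⟨?_, ?_, ?_⟩, ?_⟩
  · intro σ
    by_cases h : σ = fun _ => 0
    · simp only [if_pos h]; exact sla_smooth
    · simp only [if_neg h]; exact contDiff_const
  · intro σ
    by_cases h : σ = fun _ => 0
    · simp only [if_pos h]; exact sla_supp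
    · simp only [if_neg h]; exact HasCompactSupport.zero
  · intro π σ X
    by_cases h : σ = fun _ => 0
    · have h' : σ ∘ π = fun _ => 0 := by rw [h]; rfl
      simp only [if_pos h, if_pos h']
      exact sla_perm X π
    · have h' : ¬ σ ∘ π = fun _ => 0 := by
        intro h1
        apply h
        funext i
        have h2 := congrFun h1 (π.symm i)
        simpa using h2
      simp only [if_neg h, if_neg h', mul_zero]
  · unfold nrm2
    have h1 : ∀ σ : Spin N, 0 ≤ ∫ X : Conf N, (if σ = (fun _ => 0) then sla X else 0) ^ 2 :=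
      fun σ => integral_nonneg fun X => sq_nonneg _
    refine Finset.sum_pos' (fun σ _ => h1 σ) ⟨fun _ => 0, Finset.mem_univ _, ?_⟩
    simp only [if_true]
    have hc : Continuous fun X : Conf N => (sla X) ^ 2 := (sla_smooth.continuous).pow 2
    refine hc.integral_pos_of_hasCompactSupport_nonneg_nonzero ?_ (fun X => sq_nonneg _) (x := fun i => spt i) ?_
    · have h2 : (fun X : Conf N => (sla X) ^ 2) = fun X => sla X * sla X := by funext X; ring
      rw [h2]
      exact sla_supp.mul_left
    · show (sla fun i : Fin N => spt i) ^ 2 ≠ 0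
      rw [sla_pt]
      norm_num

end Ion
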