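import Pool.Agent.Lib.MP_69e010_mp.M.ML2
import Pool.Agent.Lib.MP_69e010_mp.M.MS

/-!
# Stream M of MP_69e010_mp: the spectrum of the Hamiltonian is bounded below and not empty; the system without electrons is bound
-/

open MeasureTheory Filter Topology

noncomputable section

namespace Ion

/-- the domain of the Hamiltonian is not zero -/
theorem ham_nontrivial {z : ℝ} {N : ℕ} {A : Fer N →ₗ.[ℂ] Fer N} (hA : IsHam z N A) :
    ∃ (φ : CTest N) (x : A.domain), (x : Fer N) = clM N φ ∧ A x = (clK N + clV z N) φ ∧ (x : Fer N) ≠ 0 := by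
  obtain ⟨ψ, hψ, h0⟩ := exists_test_pos N
  obtain ⟨x, hx, hx'⟩ := ((isHam_iff z N A).1 hA).2 ⟨cpx ψ, cpx_ct hψ⟩
  refine ⟨⟨cpx ψ, cpx_ct hψ⟩, x, hx, hx', fun h1 => ?_⟩
  rw [h1] at hx
  have h2 := norm_cl (⟨cpx ψ, cpx_ct hψ⟩ : CTest N)
  rw [← hx, norm_zero] at h2
  have h3 : reW (cpx ψ) = ψ := reW_cpx ψ
  have h4 : (0 : ℝ) ^ 2 = nrm2 (reW (cpx ψ)) + nrm2 (imW (cpx ψ)) := h2
  rw [h3] at h4
  have h5 := nrm2_nonnegM (imW (cpx ψ))
  nlinarith

/-- the spectrum of the Hamiltonian has a smallest element, the ground state energy `EN z N` -/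
theorem spec_facts {z : ℝ} (hz : 0 < z) {N : ℕ} {A : Fer N →ₗ.[ℂ] Fer N} (hA : IsHam z N A) :
    EN z N ∈ specR A ∧ (∀ t ∈ specR A, EN z N ≤ t) ∧ sInf (specR A) = EN z N := by
  obtain ⟨-, x, -, -, hx⟩ := ham_nontrivial hA
  refine ⟨not_isRes hA.sa (ham_lower hz hA) (fun e he => ham_seq hz hA hx he), fun t ht => ?_, EGS_eq hz hA hx⟩
  by_contra hlt
  exact ht (isRes_of_lt hA.sa (ham_lower hz hA) (not_le.1 hlt))

theorem EN_zero (z : ℝ) : EN z 0 = 0 := by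
  have h1 : ∀ ψ : RW 0, qf z ψ = 0 := by
    intro ψ
    unfold qf TT
    have h2 : ∀ X : Conf 0, V z X = 0 := by
      intro X
      unfold V Vee Ven
      simp
    simp [h2]
  unfold EN
  by_cases hne : {e : ℝ | ∃ ψ : RW 0, IsTest ψ ∧ nrm2 ψ = 1 ∧ e = qf z ψ}.Nonempty
  · have h3 : {e : ℝ | ∃ ψ : RW 0, IsTest ψ ∧ nrm2 ψ = 1 ∧ e = qf z ψ} = {0} := by
      ext e
      rw [Set.mem_singleton_iff]
      constructor
      · rintro ⟨ψ, -, -, rfl⟩
        exact h1 ψ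
      · rintro rfl
        obtain ⟨e, ψ, h4, h5, h6⟩ := hne
        exact ⟨ψ, h4, h5, (h1 ψ).symm⟩
    rw [h3, csInf_singleton]
  · rw [Set.not_nonempty_iff_eq_empty] at hne
    rw [hne, Real.sInf_empty]

/-- the system without electrons is bound -/
theorem bound_zero {z : ℝ} (hz : 0 < z) : Bound z 0 := by
  obtain ⟨A, hA, -⟩ := exists_unique_ham z 0
  refine ⟨A, hA, ?_⟩
  rw [(spec_facts hz hA).2.2, EN_zero]
  obtain ⟨φ, x, hx, hx', h0⟩ := ham_nontrivial hA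
  refine ⟨x, h0, ?_⟩
  rw [hx', Complex.ofReal_zero, zero_smul, LinearMap.add_apply]
  have h1 : clK 0 φ = 0 := by
    apply Subtype.ext
    apply Lp.ext
    have h2 := clK_coe φ
    have h3 := Lp.coeFn_zero ℂ 2 (mu 0)
    filter_upwards [h2, h3] with ω a1 a2
    rw [a1]
    refine Eq.trans ?_ a2.symm
    show KF φ.1 ω = 0
    unfold KF lapC
    simp
  have h1' : clV z 0 φ = 0 := by
    apply Subtype.ext
    apply Lp.ext
    have h2 := clV_coe z φ
    have h3 := Lp.coeFn_zero ℂ 2 (mu 0)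
    filter_upwards [h2, h3] with ω a1 a2
    rw [a1]
    refine Eq.trans ?_ a2.symm
    show VF z φ.1 ω = 0
    unfold VF V Vee Ven
    simp
  rw [h1, h1', add_zero]

end Ion
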